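import Pool.Agent.Y57.RCA.Ops

/-!
# The group action on functions, and the vanishing of averages
-/

set_option autoImplicit false

open scoped BigOperators

namespace Pool.Agent.Y57.RCA

/-- the exponent of the torus character -/
def wtt (t : Fin 4 → ZMod 5) (r : Fin 8) (π : S) : ZMod 5 := ∑ p, t p * lt r π p

/-- the action of `M` on functions -/
noncomputable def PF : M →* Module.End ℂ (I → ℂ) where
  toFun m :=
    { toFun := fun f x => zz (wtt m.t x.1 x.2) * f (x.1, m.s⁻¹ * x.2)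
      map_add' := fun f f' => by
        funext x
        simp only [Pi.add_apply]
        ring
      map_smul' := fun t f => by
        funext x
        simp only [Pi.smul_apply, smul_eq_mul, RingHom.id_apply]
        ring }
  map_one' := by
    refine LinearMap.ext fun f => funext fun x => ?_
    show zz (wtt (1 : M).t x.1 x.2) * f (x.1, (1 : M).s⁻¹ * x.2) = f x
    have : wtt (1 : M).t x.1 x.2 = 0 := by
      unfold wtt
      exact Finset.sum_eq_zero fun p _ => by rw [M.one_t, zero_mul]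
    rw [this, zz_zero, one_mul, M.one_s, inv_one, one_mul]
  map_mul' a b := by
    refine LinearMap.ext fun f => funext fun x => ?_
    show zz (wtt (a * b).t x.1 x.2) * f (x.1, (a * b).s⁻¹ * x.2) =
      zz (wtt a.t x.1 x.2) * (zz (wtt b.t x.1 (a.s⁻¹ * x.2)) * f (x.1, b.s⁻¹ * (a.s⁻¹ * x.2)))
    have : wtt (a * b).t x.1 x.2 = wtt a.t x.1 x.2 + wtt b.t x.1 (a.s⁻¹ * x.2) := by
      unfold wtt
      rw [← Equiv.sum_comp a.s⁻¹ (fun p => b.t p * lt x.1 (a.s⁻¹ * x.2) p),
        ← Finset.sum_add_distrib]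
      refine Finset.sum_congr rfl fun p _ => ?_
      rw [M.mul_t, add_mul]
      congr 2
      unfold lt
      rw [mul_inv_rev, inv_inv, Equiv.Perm.mul_apply, invp]
    rw [this, zz_add, M.mul_s, mul_inv_rev, mul_assoc, mul_assoc]

theorem PF_apply (m : M) (f : I → ℂ) (r : Fin 8) (π : S) :
    PF m f (r, π) = zz (wtt m.t r π) * f (r, m.s⁻¹ * π) := rfl

theorem PF_sym (m : M) {f : I → ℂ} (hf : Sym f) : Sym (PF m f) := by
  intro r π
  rw [PF_apply, PF_apply, ← mul_assoc, hf]
  have : wtt m.t r (π * tau r) = wtt m.t r π := by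
    unfold wtt
    refine Finset.sum_congr rfl fun p _ => ?_
    congr 1
    unfold lt
    have h1 := wt_tau r ((tau r)⁻¹ (π⁻¹ p))
    rw [invp] at h1
    rw [mul_inv_rev, Equiv.Perm.mul_apply, h1]
  rw [this]
  ring

/-- a table shifts weights by `ε` -/
def Shift (K : Fin 8 → Fin 4 → Fm) (ε : ZMod 5) : Prop :=
  ∀ r ρ, ∀ e ∈ K r ρ, ∀ ρ', wt e.2.1 (e.2.2⁻¹ ρ') = wt r ρ' + if ρ' = ρ then ε else 0

theorem shift_X : Shift KX 1 := by
  unfold Shift
  decide +kernel

theorem shift_Y : Shift KY (-1) := by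
  unfold Shift
  decide +kernel

theorem PF_op {K : Fin 8 → Fin 4 → Fm} {ε : ZMod 5} (hK : Shift K ε) (m : M) (i : Fin 4)
    (f : I → ℂ) : op K (m.s i) (PF m f) = zz (ε * m.t (m.s i)) • PF m (op K i f) := by
  funext x
  obtain ⟨r, π⟩ := x
  rw [Pi.smul_apply, PF_apply, op_apply, op_apply, smul_eq_mul]
  have h1 : (m.s⁻¹ * π)⁻¹ i = π⁻¹ (m.s i) := by
    rw [mul_inv_rev, inv_inv]
    rfl
  rw [h1]
  have hw : ∀ e ∈ K r (π⁻¹ (m.s i)), wtt m.t e.2.1 (π * e.2.2) =
      wtt m.t r π + ε * m.t (m.s i) := by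
    intro e he
    unfold wtt lt
    have h2 : ∀ p : Fin 4, m.t p * wt e.2.1 ((π * e.2.2)⁻¹ p) =
        m.t p * wt r (π⁻¹ p) + if p = m.s i then ε * m.t p else 0 := by
      intro p
      rw [mul_inv_rev, Equiv.Perm.mul_apply, hK r _ e he (π⁻¹ p), mul_add]
      congr 1
      have h3 : (π⁻¹ : S) p = π⁻¹ (m.s i) ↔ p = m.s i := (π⁻¹ : S).injective.eq_iff
      simp only [h3]
      split_ifs
      · rw [mul_comm]
      · rw [mul_zero]
    rw [Finset.sum_congr rfl fun p _ => h2 p, Finset.sum_add_distrib]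
    congr 1
    rw [Finset.sum_ite_eq' Finset.univ (m.s i) (fun p => ε * m.t p), if_pos (Finset.mem_univ _)]
  generalize K r (π⁻¹ (m.s i)) = L at hw
  induction L with
  | nil => simp [ev]
  | cons e L ih =>
    rw [ev_cons, ev_cons, ih fun e' he' => hw e' (by simp [he']), PF_apply,
      hw e (by simp), zz_add, mul_assoc m.s⁻¹]
    ring

/-- linear combination of the `op K i` -/
noncomputable def lc (K : Fin 8 → Fin 4 → Fm) (a : Fin 4 → ℂ) : Module.End ℂ (I → ℂ) :=
  ∑ i, a i • op K i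

theorem lc_apply (K : Fin 8 → Fin 4 → Fm) (a : Fin 4 → ℂ) (f : I → ℂ) :
    lc K a f = ∑ i, a i • op K i f := by
  simp [lc]

theorem PF_lc {K : Fin 8 → Fin 4 → Fm} {ε : ZMod 5} (hK : Shift K ε) (m : M) (a : Fin 4 → ℂ)
    (f : I → ℂ) :
    PF m (lc K a f) = lc K (fun i => zz (-(ε * m.t i)) * a (m.s⁻¹ i)) (PF m f) := by
  rw [lc_apply, lc_apply, map_sum, ← Equiv.sum_comp m.s
    (fun i => (zz (-(ε * m.t i)) * a (m.s⁻¹ i)) • (op K i) ((PF m) f))]
  refine Finset.sum_congr rfl fun i _ => ?_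
  rw [PF_op hK, pinv, smul_smul, map_smul]
  congr 1
  linear_combination (-(a i)) * (zz_neg_mul (ε * m.t (m.s i)))

/-- the action of `m` on coefficients -/
noncomputable def cf (ε : ZMod 5) (m : M) (a : Fin 4 → ℂ) : Fin 4 → ℂ :=
  fun i => zz (-(ε * m.t i)) * a (m.s⁻¹ i)

theorem cf_mul (ε : ZMod 5) (m n : M) (a : Fin 4 → ℂ) : cf ε (m * n) a = cf ε m (cf ε n a) := by
  funext i
  unfold cf
  rw [M.mul_t, M.mul_s, mul_inv_rev, ← mul_assoc, ← zz_add]
  congr 2
  ring

theorem PF_prod {K : Fin 8 → Fin 4 → Fm} {ε : ZMod 5} (hK : Shift K ε) (m : M)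
    (l : List (Fin 4 → ℂ)) (f : I → ℂ) :
    PF m ((l.map (lc K)).prod f) = (l.map fun a => lc K (cf ε m a)).prod (PF m f) := by
  induction l generalizing f with
  | nil => rfl
  | cons a l ih =>
    rw [List.map_cons, List.prod_cons, List.map_cons, List.prod_cons, Module.End.mul_apply,
      Module.End.mul_apply, ← ih, PF_lc hK]
    rfl

/-- the scaling operator -/
noncomputable def EE : Module.End ℂ (I → ℂ) where
  toFun f x := 2 ^ dg x.1 * f x
  map_add' f f' := by
    funext x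
    simp only [Pi.add_apply]
    ring
  map_smul' t f := by
    funext x
    simp only [Pi.smul_apply, smul_eq_mul, RingHom.id_apply]
    ring

theorem EE_apply (f : I → ℂ) (r : Fin 8) (π : S) : EE f (r, π) = 2 ^ dg r * f (r, π) := rfl

/-- the degree scaling of a table -/
def Scale (K : Fin 8 → Fin 4 → Fm) (lam : ℂ) : Prop :=
  ∀ r ρ, ∀ e ∈ K r ρ, (2 : ℂ) ^ dg e.2.1 = lam * 2 ^ dg r

theorem deg_X : ∀ r ρ, ∀ e ∈ KX r ρ, dg r = dg e.2.1 + 1 := by decide +kernel

theorem deg_Y : ∀ r ρ, ∀ e ∈ KY r ρ, dg e.2.1 = dg r + 1 := by decide +kernel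

theorem scale_X : Scale KX (1 / 2) := by
  intro r ρ e he
  rw [deg_X r ρ e he, pow_succ]
  ring

theorem scale_Y : Scale KY 2 := by
  intro r ρ e he
  rw [deg_Y r ρ e he, pow_succ]
  ring

theorem op_EE {K : Fin 8 → Fin 4 → Fm} {lam : ℂ} (hK : Scale K lam) (i : Fin 4) (f : I → ℂ) :
    op K i (EE f) = lam • EE (op K i f) := by
  funext x
  obtain ⟨r, π⟩ := x
  rw [Pi.smul_apply, EE_apply, op_apply, op_apply, smul_eq_mul]
  have h := hK r (π⁻¹ i)
  generalize K r (π⁻¹ i) = L at h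
  induction L with
  | nil => simp [ev]
  | cons e L ih =>
    rw [ev_cons, ev_cons, ih fun e' he' => h e' (by simp [he']), EE_apply, h e (by simp)]
    ring

theorem lc_EE {K : Fin 8 → Fin 4 → Fm} {lam : ℂ} (hK : Scale K lam) (a : Fin 4 → ℂ) (f : I → ℂ) :
    lc K a (EE f) = lam • EE (lc K a f) := by
  rw [lc_apply, lc_apply, map_sum, Finset.smul_sum]
  refine Finset.sum_congr rfl fun i _ => ?_
  rw [op_EE hK, map_smul, smul_comm]

theorem prod_EE {K : Fin 8 → Fin 4 → Fm} {lam : ℂ} (hK : Scale K lam) (l : List (Fin 4 → ℂ))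
    (f : I → ℂ) :
    (l.map (lc K)).prod (EE f) = lam ^ l.length • EE ((l.map (lc K)).prod f) := by
  induction l with
  | nil => simp
  | cons a l ih =>
    rw [List.map_cons, List.prod_cons, Module.End.mul_apply, ih, map_smul, lc_EE hK, smul_smul,
      List.length_cons, pow_succ]
    rfl

theorem wt_sep : ∀ r r' : Fin 8, ∀ g : S, (∃ k, ∀ ρ, wt r' ρ = wt r (g⁻¹ ρ) + k) →
    dg r' = dg r := by decide +kernel

theorem dg_of_lt {r r' : Fin 8} {π π' : S}
    (h : ∀ p q, lt r π q - lt r π p = lt r' π' q - lt r' π' p) : dg r' = dg r := by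
  apply wt_sep r r' (π'⁻¹ * π)
  refine ⟨lt r' π' 0 - lt r π 0, fun ρ => ?_⟩
  have h1 := h 0 (π' ρ)
  unfold lt at h1
  rw [pinv] at h1
  rw [mul_inv_rev, inv_inv, Equiv.Perm.mul_apply]
  unfold lt
  linear_combination -h1

/-- diagonal elements -/
def dd (p q : Fin 4) (k : ZMod 5) : M where
  t := Pi.single q k - Pi.single p k
  s := 1
  h := by simp [Finset.sum_sub_distrib]

theorem wtt_dd (p q : Fin 4) (k : ZMod 5) (r : Fin 8) (π : S) :
    wtt (dd p q k).t r π = k * (lt r π q - lt r π p) := by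
  unfold wtt
  show ∑ i, (Pi.single q k - Pi.single p k : Fin 4 → ZMod 5) i * lt r π i = _
  simp only [Pi.sub_apply, sub_mul, Finset.sum_sub_distrib]
  rw [Finset.sum_eq_single q, Finset.sum_eq_single p]
  · rw [Pi.single_eq_same, Pi.single_eq_same]; ring
  · intro i _ hi; rw [Pi.single_eq_of_ne hi, zero_mul]
  · intro h; exact absurd (Finset.mem_univ _) h
  · intro i _ hi; rw [Pi.single_eq_of_ne hi, zero_mul]
  · intro h; exact absurd (Finset.mem_univ _) h

theorem PF_dd (p q : Fin 4) (k : ZMod 5) (f : I → ℂ) (r : Fin 8) (π : S) :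
    PF (dd p q k) f (r, π) = zz (k * (lt r π q - lt r π p)) * f (r, π) := by
  rw [PF_apply, wtt_dd]
  show _ * f (r, 1⁻¹ * π) = _
  rw [inv_one, one_mul]

/-- an operator commuting with the torus and of nonzero degree is zero -/
theorem zero_of_comm (B : Module.End ℂ (I → ℂ)) (hP : ∀ m f, B (PF m f) = PF m (B f))
    {lam : ℂ} (hlam : lam ≠ 1) (hE : ∀ f, B (EE f) = lam • EE (B f)) : B = 0 := by
  classical
  have key : ∀ (r : Fin 8) (π : S), B (Pi.single (r, π) 1) = 0 := by
    intro r π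
    funext x
    obtain ⟨r', π'⟩ := x
    by_contra hne
    have hne' : B (Pi.single (r, π) 1) (r', π') ≠ 0 := hne
    have h1 : ∀ p q, lt r π q - lt r π p = lt r' π' q - lt r' π' p := by
      intro p q
      have h2 := congrFun (hP (dd p q 1) (Pi.single (r, π) 1)) (r', π')
      have h3 : PF (dd p q 1) (Pi.single (r, π) 1) =
          zz (1 * (lt r π q - lt r π p)) • (Pi.single (r, π) 1 : I → ℂ) := by
        funext x
        obtain ⟨r'', π''⟩ := x
        rw [PF_dd, Pi.smul_apply, smul_eq_mul]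
        by_cases hx : ((r'', π'') : I) = (r, π)
        · rw [Prod.mk.injEq] at hx
          obtain ⟨rfl, rfl⟩ := hx
          rfl
        · rw [Pi.single_eq_of_ne hx, mul_zero, mul_zero]
      rw [h3, map_smul, Pi.smul_apply, PF_dd, smul_eq_mul] at h2
      have h4 := zz_inj (mul_right_cancel₀ hne' h2)
      rwa [one_mul, one_mul] at h4
    have h2 := dg_of_lt h1
    have h3 := congrFun (hE (Pi.single (r, π) 1)) (r', π')
    have h4 : EE (Pi.single (r, π) 1) = (2 ^ dg r : ℂ) • (Pi.single (r, π) 1 : I → ℂ) := by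
      funext x
      obtain ⟨r'', π''⟩ := x
      rw [EE_apply, Pi.smul_apply, smul_eq_mul]
      by_cases hx : ((r'', π'') : I) = (r, π)
      · rw [Prod.mk.injEq] at hx
        obtain ⟨rfl, rfl⟩ := hx
        rfl
      · rw [Pi.single_eq_of_ne hx, mul_zero, mul_zero]
    rw [h4, map_smul, Pi.smul_apply, Pi.smul_apply, EE_apply, smul_eq_mul, smul_eq_mul, h2,
      ← mul_assoc] at h3
    have h5 := mul_right_cancel₀ hne' h3
    have h6 : (2 : ℂ) ^ dg r ≠ 0 := pow_ne_zero _ two_ne_zero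
    apply hlam
    have h7 : lam * 2 ^ dg r = 1 * 2 ^ dg r := by rw [← h5, one_mul]
    exact mul_right_cancel₀ h6 h7
  refine (Pi.basisFun ℂ I).ext fun x => ?_
  rw [Pi.basisFun_apply]
  exact key x.1 x.2

theorem average_zero {K : Fin 8 → Fin 4 → Fm} {ε : ZMod 5} (hK : Shift K ε) {lam : ℂ}
    (hS : Scale K lam) (hlam : ∀ n : ℕ, n ≠ 0 → lam ^ n ≠ 1) (l : List (Fin 4 → ℂ)) (hl : l ≠ []) :
    ∑ m : M, (l.map fun a => lc K (cf ε m a)).prod = 0 := by
  refine zero_of_comm _ ?_ (hlam l.length ?_) ?_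
  · intro m f
    rw [LinearMap.sum_apply, LinearMap.sum_apply, map_sum, ← Equiv.sum_comp (Equiv.mulLeft m)]
    refine Finset.sum_congr rfl fun n _ => ?_
    have h1 := PF_prod hK m (l.map fun a => cf ε n a) f
    rw [List.map_map, List.map_map] at h1
    have h2 : (fun a => lc K (cf ε (Equiv.mulLeft m n) a)) =
        (fun a => lc K (cf ε m a)) ∘ fun a => cf ε n a := by
      funext a
      rw [Equiv.coe_mulLeft, cf_mul]
      rfl
    rw [h2]
    exact h1.symm
  · intro h
    exact hl (List.length_eq_zero_iff.1 h)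
  · intro f
    rw [LinearMap.sum_apply, LinearMap.sum_apply, map_sum, Finset.smul_sum]
    refine Finset.sum_congr rfl fun n _ => ?_
    have h1 := prod_EE hS (l.map fun a => cf ε n a) f
    rw [List.map_map, List.length_map] at h1
    exact h1

end Pool.Agent.Y57.RCA
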