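import Mathlib

/-!
# Modules over restricted rational Cherednik algebras

The definitions used in the statement about the problem `MP_b4b244_al`.
-/

set_option autoImplicit false

open scoped BigOperators

namespace Pool.Agent.Y57.RCA

section

variable {V : Type} [AddCommGroup V] [Module ℂ V]

/-- the action of `GL(V)` on `V^*`: `(w f)(v) = f(w⁻¹ v)` -/
def act (w : V ≃ₗ[ℂ] V) (f : Module.Dual ℂ V) : Module.Dual ℂ V :=
  f ∘ₗ ((w⁻¹ : V ≃ₗ[ℂ] V) : V →ₗ[ℂ] V)

/-- `w` is a reflection: `w - 1` has rank one -/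
def IsReflection (w : V ≃ₗ[ℂ] V) : Prop :=
  Module.finrank ℂ (LinearMap.range ((w : V →ₗ[ℂ] V) - LinearMap.id)) = 1

/-- `W` is a finite complex reflection group: it is finite and generated by reflections -/
def IsReflectionGroup (W : Subgroup (V ≃ₗ[ℂ] V)) : Prop :=
  Finite W ∧ Subgroup.closure {s | s ∈ W ∧ IsReflection s} = W

/-- the set `Ref(W)` of reflections of `W` -/
def Ref (W : Subgroup (V ≃ₗ[ℂ] V)) : Type := {s : W // IsReflection (s : V ≃ₗ[ℂ] V)}

/-- `c : Ref(W) → ℂ` is a parameter: it is invariant under conjugation by `W` -/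
def IsParameter (W : Subgroup (V ≃ₗ[ℂ] V)) (c : Ref W → ℂ) : Prop :=
  ∀ s s' : Ref W, IsConj s.1 s'.1 → c s = c s'

/-- a property of parameters holds for generic `c`: it holds on a nonempty Zariski-open subset of
the space of parameters (every such subset contains a nonempty one of the form `{c | p(c) ≠ 0}`) -/
def HoldsGenerically (W : Subgroup (V ≃ₗ[ℂ] V)) (Q : (Ref W → ℂ) → Prop) : Prop :=
  ∃ p : MvPolynomial (Ref W) ℂ, (∃ c, IsParameter W c ∧ MvPolynomial.eval c p ≠ 0) ∧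
    ∀ c, IsParameter W c → MvPolynomial.eval c p ≠ 0 → Q c

variable (W : Subgroup (V ≃ₗ[ℂ] V)) (c : Ref W → ℂ)
  {L : Type} [AddCommGroup L] [Module ℂ L]
  (x : Module.Dual ℂ V →ₗ[ℂ] Module.End ℂ L) (y : V →ₗ[ℂ] Module.End ℂ L)
  (g : Representation ℂ W L)

/-- the relations of the rational Cherednik algebra `H_c(W)` at `t = 0`: `[x, x'] = 0`,
`[y, y'] = 0`, `w x = w(x) w`, `w y = w(y) w` and
`[y, x] = - ∑_s c(s) ⟨y, x - s(x)⟩ s`, where `⟨y, x - s(x)⟩ = ⟨y, α_s⟩ ⟨α_s^∨, x⟩` -/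
def CherednikRel : Prop :=
  (∀ f f', x f * x f' = x f' * x f) ∧ (∀ v v', y v * y v' = y v' * y v) ∧
  (∀ (w : W) f, g w * x f = x (act w f) * g w) ∧ (∀ (w : W) v, g w * y v = y (w.1 v) * g w) ∧
  ∀ v f, y v * x f - x f * y v = -∑ᶠ s : Ref W, (c s * (f - act s.1 f) v) • g s.1

/-- the elements of positive degree of `ℂ[V]^W` and `ℂ[V^*]^W` act by `0` (they are spanned by the
averages `∑_w w(x_1) ⋯ w(x_n)` and `∑_w w(y_1) ⋯ w(y_n)`, `n ≥ 1`) -/
def Restricted : Prop :=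
  (∀ l : List (Module.Dual ℂ V), l ≠ [] → ∑ᶠ w : W, (l.map fun f => x (act w f)).prod = 0) ∧
  ∀ l : List V, l ≠ [] → ∑ᶠ w : W, (l.map fun v => y (w.1 v)).prod = 0

/-- the only subspaces stable under all operators are `0` and `L ≠ 0` -/
def IsSimple : Prop :=
  Nontrivial L ∧ ∀ N : Submodule ℂ L, (∀ f, N ≤ N.comap (x f)) → (∀ v, N ≤ N.comap (y v)) →
    (∀ w, N ≤ N.comap (g w)) → N = ⊥ ∨ N = ⊤

variable {U : Type} [AddCommGroup U] [Module ℂ U] (ρ : Representation ℂ W U) (ι : U →ₗ[ℂ] L)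

/-- `ι : λ → L` is nonzero, `W`-linear, with image killed by `V`, i.e. it defines a nonzero
homomorphism from the baby Verma module `Δ_c(λ)` to `L` -/
def IsHighestWeight : Prop :=
  ι ≠ 0 ∧ (∀ v u, y v (ι u) = 0) ∧ ∀ w u, g w (ι u) = ι (ρ w u)

/-- `(L, x, y, g, ι)` is a model of `L_c(λ)`: a simple module over the restricted rational
Cherednik algebra `H̄_c(W)` which is a quotient of the baby Verma module `Δ_c(λ)` -/
def IsL : Prop :=
  CherednikRel W c x y g ∧ Restricted W x y ∧ IsSimple W x y g ∧ IsHighestWeight W y g ρ ι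

/-- `dim L_c(λ)_i`, where `L_c(λ)_i` is spanned by the vectors `x_1 ⋯ x_i u` with `u ∈ λ` -/
noncomputable def gdim (i : ℤ) : ℕ :=
  Module.finrank ℂ (Submodule.span ℂ {z | ∃ (l : List (Module.Dual ℂ V)) (u : U),
    (l.length : ℤ) = i ∧ z = (l.map x).prod (ι u)})

/-- `P(q) = ∑_i a_i q^i` is palindromic: `P(q) = q^d P(q⁻¹)` for some `d ∈ ℤ` -/
def Palindromic (a : ℤ → ℕ) : Prop := ∃ d : ℤ, ∀ i : ℤ, a i = a (d - i)

/-- the Poincaré series of `L_c(λ)` is palindromic -/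
def PalindromicAt : Prop :=
  ∀ (L : Type) [AddCommGroup L] [Module ℂ L] (x : Module.Dual ℂ V →ₗ[ℂ] Module.End ℂ L)
    (y : V →ₗ[ℂ] Module.End ℂ L) (g : Representation ℂ W L) (ι : U →ₗ[ℂ] L),
    IsL W c x y g ρ ι → Palindromic (gdim x ι)

/-- `L_c(λ)` exists, and its Poincaré series is `∑_i a_i q^i` -/
def HasSeries (a : ℤ → ℕ) : Prop :=
  (∃ (L : Type) (_ : AddCommGroup L) (_ : Module ℂ L) (x : Module.Dual ℂ V →ₗ[ℂ] Module.End ℂ L)
    (y : V →ₗ[ℂ] Module.End ℂ L) (g : Representation ℂ W L) (ι : U →ₗ[ℂ] L), IsL W c x y g ρ ι) ∧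
  ∀ (L : Type) [AddCommGroup L] [Module ℂ L] (x : Module.Dual ℂ V →ₗ[ℂ] Module.End ℂ L)
    (y : V →ₗ[ℂ] Module.End ℂ L) (g : Representation ℂ W L) (ι : U →ₗ[ℂ] L),
    IsL W c x y g ρ ι → gdim x ι = a

/-- `W = G(5,5,4)`: in some basis of `V`, it consists of all monomial matrices of size `4` whose
nonzero entries are fifth roots of unity with product `1` -/
def IsG554 : Prop :=
  ∃ b : Module.Basis (Fin 4) ℂ V, ∀ w, w ∈ W ↔ ∃ (σ : Equiv.Perm (Fin 4)) (a : Fin 4 → ℂ),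
    (∀ i, a i ^ 5 = 1) ∧ ∏ i, a i = 1 ∧ ∀ i, w (b i) = a i • b (σ i)

/-- the representation `ρ` is a counterexample: it is irreducible of dimension `12`, the
Poincaré series of `L_c(ρ)` is `∑_i a_i q^i` for all `c ≠ 0`, and it is not palindromic for
generic `c` -/
def IsCounterexample (a : ℤ → ℕ) : Prop :=
  ρ.IsIrreducible ∧ Module.finrank ℂ U = 12 ∧
    (∀ c, IsParameter W c → c ≠ 0 → HasSeries W c ρ a) ∧
    ¬ HoldsGenerically W fun c => PalindromicAt W c ρ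

end

/-- the coefficients of `12 + 36 q + 36 q^2 + 24 q^3 + 12 q^4` -/
def coeffs (i : ℤ) : ℕ :=
  if i = 0 then 12 else if i = 1 then 36 else if i = 2 then 36 else if i = 3 then 24
  else if i = 4 then 12 else 0

end Pool.Agent.Y57.RCA
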