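import Pool.Agent.Y57.RCA.Basic

/-!
# Restricted rational Cherednik algebras and baby Verma modules
-/

set_option autoImplicit false

open scoped BigOperators TensorProduct

namespace Pool.Agent.Y57.RCA

section

variable {V : Type} [AddCommGroup V] [Module ℂ V]

/-- generators of the rational Cherednik algebra: `x ∈ V^*`, `y ∈ V` and `w ∈ W` -/
inductive Gen (W : Subgroup (V ≃ₗ[ℂ] V)) : Type
  | x : Module.Dual ℂ V → Gen W
  | y : V → Gen W
  | g : W → Gen W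

/-- the free algebra on the generators -/
abbrev Fr (W : Subgroup (V ≃ₗ[ℂ] V)) : Type := FreeAlgebra ℂ (Gen W)

/-- the generator `x` -/
def X (W : Subgroup (V ≃ₗ[ℂ] V)) (f : Module.Dual ℂ V) : Fr W := FreeAlgebra.ι ℂ (Gen.x f)
/-- the generator `y` -/
def Y (W : Subgroup (V ≃ₗ[ℂ] V)) (v : V) : Fr W := FreeAlgebra.ι ℂ (Gen.y v)
/-- the generator `w` -/
def G (W : Subgroup (V ≃ₗ[ℂ] V)) (w : W) : Fr W := FreeAlgebra.ι ℂ (Gen.g w)

/-- The defining relations of the restricted rational Cherednik algebra of `W` with parameter `c`: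
the relations of `T(V ⊕ V^*) ⋊ ℂ W`, the commutation relations
`[x, x'] = 0`, `[y, y'] = 0`, `[y, x] = - ∑_s c(s) ⟨x - s(x), y⟩ s` (sum over the reflections of
`W`; with `s(x) = x - ⟨α_s^∨, x⟩ α_s` one has `⟨x - s(x), y⟩ = ⟨y, α_s⟩ ⟨α_s^∨, x⟩`), and the
vanishing of the averages `∑_w w(x_1) ⋯ w(x_n)` and `∑_w w(y_1) ⋯ w(y_n)`, `n ≥ 1`, which span
the `W`-invariants of positive degree in `ℂ[V]` and in `ℂ[V^*]`. -/
inductive Rel (W : Subgroup (V ≃ₗ[ℂ] V)) (c : Ref W → ℂ) : Fr W → Fr W → Prop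
  | x_add (f f' : Module.Dual ℂ V) : Rel W c (X W (f + f')) (X W f + X W f')
  | x_smul (t : ℂ) (f : Module.Dual ℂ V) : Rel W c (X W (t • f)) (t • X W f)
  | y_add (v v' : V) : Rel W c (Y W (v + v')) (Y W v + Y W v')
  | y_smul (t : ℂ) (v : V) : Rel W c (Y W (t • v)) (t • Y W v)
  | g_one : Rel W c (G W 1) 1
  | g_mul (w w' : W) : Rel W c (G W (w * w')) (G W w * G W w')
  | g_x (w : W) (f : Module.Dual ℂ V) : Rel W c (G W w * X W f) (X W (act w f) * G W w)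
  | g_y (w : W) (v : V) : Rel W c (G W w * Y W v) (Y W ((w : V ≃ₗ[ℂ] V) v) * G W w)
  | x_x (f f' : Module.Dual ℂ V) : Rel W c (X W f * X W f') (X W f' * X W f)
  | y_y (v v' : V) : Rel W c (Y W v * Y W v') (Y W v' * Y W v)
  | y_x (v : V) (f : Module.Dual ℂ V) : Rel W c (Y W v * X W f - X W f * Y W v)
      (-∑ᶠ s : Ref W, (c s * (f - act s.1 f) v) • G W s.1)
  | inv_x (l : List (Module.Dual ℂ V)) (hl : l ≠ []) :
      Rel W c (∑ᶠ w : W, (l.map fun f => X W (act w f)).prod) 0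
  | inv_y (l : List V) (hl : l ≠ []) :
      Rel W c (∑ᶠ w : W, (l.map fun v => Y W ((w : V ≃ₗ[ℂ] V) v)).prod) 0

/-- the restricted rational Cherednik algebra `H̄_c(W)`: the quotient of the free algebra by the
two-sided ideal generated by the relations -/
def RRCA (W : Subgroup (V ≃ₗ[ℂ] V)) (c : Ref W → ℂ) : Type := RingQuot (Rel W c)

instance (W : Subgroup (V ≃ₗ[ℂ] V)) (c : Ref W → ℂ) : Ring (RRCA W c) :=
  inferInstanceAs (Ring (RingQuot (Rel W c)))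

instance (W : Subgroup (V ≃ₗ[ℂ] V)) (c : Ref W → ℂ) : Algebra ℂ (RRCA W c) :=
  inferInstanceAs (Algebra ℂ (RingQuot (Rel W c)))

/-- the quotient map -/
def mkH (W : Subgroup (V ≃ₗ[ℂ] V)) (c : Ref W → ℂ) : Fr W →ₐ[ℂ] RRCA W c :=
  RingQuot.mkAlgHom ℂ (Rel W c)

/-- the image of a generator in `H̄_c(W)` -/
def gen (W : Subgroup (V ≃ₗ[ℂ] V)) (c : Ref W → ℂ) (a : Gen W) : RRCA W c :=
  mkH W c (FreeAlgebra.ι ℂ a)

section

variable (W : Subgroup (V ≃ₗ[ℂ] V)) (c : Ref W → ℂ)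
  {U : Type} [AddCommGroup U] [Module ℂ U] (ρ : Representation ℂ W U)

/-- the relations `(h y) ⊗ u = 0` and `(h w) ⊗ u = h ⊗ (w u)` of the baby Verma module -/
def babyRel : Submodule (RRCA W c) (RRCA W c ⊗[ℂ] U) :=
  Submodule.span (RRCA W c)
    ({z | ∃ (h : RRCA W c) (v : V) (u : U), z = (h * gen W c (Gen.y v)) ⊗ₜ[ℂ] u} ∪
     {z | ∃ (h : RRCA W c) (w : W) (u : U),
        z = (h * gen W c (Gen.g w)) ⊗ₜ[ℂ] u - h ⊗ₜ[ℂ] (ρ w u)})

/-- the baby Verma module `Δ_c(λ) = H̄_c ⊗_{ℂ[V^*]^{co W} ⋊ W} λ`, where `V` acts on `λ` by `0` -/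
abbrev BabyVerma : Type := (RRCA W c ⊗[ℂ] U) ⧸ babyRel W c ρ

end

end

end Pool.Agent.Y57.RCA
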