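import Pool.Agent.Y57.RCA.Grade

/-!
# Dimensions
-/

set_option autoImplicit false

open scoped BigOperators

namespace Pool.Agent.Y57.RCA

def ir : Fin 8 → Fin 4 := ![0, 0, 0, 0, 0, 0, 0, 0]
def jr : Fin 8 → Fin 4 := ![1, 0, 1, 3, 0, 2, 3, 3]

/-- normal form -/
def nf (x : I) : Prop := x.2 (ir x.1) ≤ x.2 (jr x.1)

instance : DecidablePred nf := fun x => by unfold nf; infer_instance

theorem nf_or : ∀ (r : Fin 8) (π : S), nf (r, π) ∨ nf (r, π * tau r) := by decide +kernel

theorem nf_both : ∀ (r : Fin 8) (π : S), nf (r, π) → nf (r, π * tau r) → tau r = 1 ∧ chi r = 1 := by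
  decide +kernel

/-- index set of the component of degree `i` -/
abbrev TT (i : ℤ) : Type := {x : I // (dg x.1 : ℤ) = i ∧ nf x}

/-- extension of a function on the index set -/
noncomputable def ext (i : ℤ) (g : TT i → ℂ) : I → ℂ := fun x =>
  if h : (dg x.1 : ℤ) = i ∧ nf x then g ⟨x, h⟩
  else if h' : (dg x.1 : ℤ) = i ∧ nf (x.1, x.2 * tau x.1) then
    (chi x.1 : ℂ) * g ⟨(x.1, x.2 * tau x.1), h'⟩
  else 0

theorem ext_pos (i : ℤ) (g : TT i → ℂ) (x : I) (h : (dg x.1 : ℤ) = i ∧ nf x) :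
    ext i g x = g ⟨x, h⟩ := by
  unfold ext
  rw [dif_pos h]

theorem ext_mid (i : ℤ) (g : TT i → ℂ) (x : I) (h : ¬((dg x.1 : ℤ) = i ∧ nf x))
    (h' : (dg x.1 : ℤ) = i ∧ nf (x.1, x.2 * tau x.1)) :
    ext i g x = (chi x.1 : ℂ) * g ⟨(x.1, x.2 * tau x.1), h'⟩ := by
  unfold ext
  rw [dif_neg h, dif_pos h']

theorem ext_neg (i : ℤ) (g : TT i → ℂ) (x : I) (h : (dg x.1 : ℤ) ≠ i) : ext i g x = 0 := by
  unfold ext
  rw [dif_neg fun h' => h h'.1, dif_neg fun h' => h h'.1]

theorem ext_sym (i : ℤ) (g : TT i → ℂ) : Sym (ext i g) := by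
  intro r π
  by_cases hi : (dg r : ℤ) = i
  · have hc : (chi r : ℂ) * (chi r : ℂ) = 1 := by exact_mod_cast chi_chi r
    by_cases h1 : nf (r, π)
    · by_cases h2 : nf (r, π * tau r)
      · obtain ⟨ht, hχ⟩ := nf_both r π h1 h2
        rw [ht, mul_one, hχ]
        simp
      · rw [ext_pos i g (r, π) ⟨hi, h1⟩]
        have hne : ¬((dg ((r, π * tau r) : I).1 : ℤ) = i ∧ nf (r, π * tau r)) := fun h => h2 h.2
        have hπ : π * tau r * tau r = π := by rw [mul_assoc, tau_tau, mul_one]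
        have h3 : (dg ((r, π * tau r) : I).1 : ℤ) = i ∧
            nf (((r, π * tau r) : I).1, ((r, π * tau r) : I).2 * tau ((r, π * tau r) : I).1) := by
          refine ⟨hi, ?_⟩
          show nf (r, π * tau r * tau r)
          rw [hπ]
          exact h1
        rw [ext_mid i g (r, π * tau r) hne h3]
        congr 2
        apply Subtype.ext
        show (r, π * tau r * tau r) = (r, π)
        rw [hπ]
    · have h2 : nf (r, π * tau r) := (nf_or r π).resolve_left h1
      rw [ext_pos i g (r, π * tau r) ⟨hi, h2⟩, ext_mid i g (r, π) (fun h => h1 h.2) ⟨hi, h2⟩,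
        ← mul_assoc, hc, one_mul]
  · rw [ext_neg i g _ hi, ext_neg i g _ hi, mul_zero]

/-- functions on the index set -/
noncomputable def equivT (i : ℤ) : Ud i ≃ₗ[ℂ] (TT i → ℂ) where
  toFun u t := ((u : Vs) : I → ℂ) t.1
  map_add' u v := rfl
  map_smul' t u := rfl
  invFun g := ⟨⟨ext i g, ext_sym i g⟩, fun r π h => ext_neg i g (r, π) h⟩
  left_inv u := by
    apply Subtype.ext
    apply Subtype.ext
    funext x
    obtain ⟨r, π⟩ := x
    show ext i (fun t => ((u : Vs) : I → ℂ) t.1) (r, π) = ((u : Vs) : I → ℂ) (r, π)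
    by_cases hi : (dg r : ℤ) = i
    · by_cases h1 : nf (r, π)
      · rw [ext_pos i _ (r, π) ⟨hi, h1⟩]
      · have h2 : nf (r, π * tau r) := (nf_or r π).resolve_left h1
        rw [ext_mid i _ (r, π) (fun h => h1 h.2) ⟨hi, h2⟩]
        have h3 := (u : Vs).2 r π
        have hc : (chi r : ℂ) * (chi r : ℂ) = 1 := by exact_mod_cast chi_chi r
        show (chi r : ℂ) * ((u : Vs) : I → ℂ) (r, π * tau r) = _
        rw [h3, ← mul_assoc, hc, one_mul]
    · rw [ext_neg i _ (r, π) hi]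
      exact (u.2 r π hi).symm
  right_inv g := by
    funext t
    exact ext_pos i g t.1 t.2

theorem finrank_Ud (i : ℤ) : Module.finrank ℂ (Ud i) = Fintype.card (TT i) := by
  rw [(equivT i).finrank_eq, Module.finrank_fintype_fun_eq_card]

theorem card0 : Fintype.card (TT 0) = 12 := by decide +kernel
theorem card1 : Fintype.card (TT 1) = 36 := by decide +kernel
theorem card2 : Fintype.card (TT 2) = 36 := by decide +kernel
theorem card3 : Fintype.card (TT 3) = 24 := by decide +kernel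
theorem card4 : Fintype.card (TT 4) = 12 := by decide +kernel

theorem dg_le : ∀ r, dg r ≤ 4 := by decide

theorem card_other (i : ℤ) (hi : i < 0 ∨ 4 < i) : Fintype.card (TT i) = 0 := by
  rw [Fintype.card_eq_zero_iff]
  refine ⟨fun t => ?_⟩
  have h1 := t.2.1
  have h2 := dg_le t.1.1
  omega

theorem finrank_U0 : Module.finrank ℂ U0 = 12 := by
  show Module.finrank ℂ (Ud 0) = 12
  rw [finrank_Ud, card0]

end Pool.Agent.Y57.RCA
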