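import Pool.Agent.Y57.RCA.Dim

/-!
# The Poincaré series is not palindromic
-/

set_option autoImplicit false

open scoped BigOperators

namespace Pool.Agent.Y57.RCA

theorem card_coeffs (i : ℤ) : Fintype.card (TT i) = coeffs i := by
  unfold coeffs
  split_ifs with h0 h1 h2 h3 h4
  · subst h0; exact card0
  · subst h1; exact card1
  · subst h2; exact card2
  · subst h3; exact card3
  · subst h4; exact card4
  · apply card_other
    omega

theorem ne_zero_param (c : Ref G554 → ℂ) (h : IsParameter G554 c) (hc : c ≠ 0) :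
    c (refMap (0, 0)) ≠ 0 := by
  intro h0
  apply hc
  funext s
  rw [param_const c h s, h0]
  rfl

theorem coeffs_eq (i : ℤ) (h : coeffs i = 12) : i = 0 ∨ i = 4 := by
  unfold coeffs at h
  split_ifs at h <;> omega

theorem not_palindromic_coeffs : ¬ Palindromic coeffs := by
  rintro ⟨d, hd⟩
  have h0 := coeffs_eq (d - 0) ((hd 0).symm.trans rfl)
  have h4 := coeffs_eq (d - 4) ((hd 4).symm.trans rfl)
  have hd4 : d = 4 := by omega
  have h1 := hd 1
  rw [hd4] at h1
  have e1 : coeffs 1 = 36 := rfl
  have e2 : coeffs (4 - 1) = 24 := rfl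
  rw [e1, e2] at h1
  omega

theorem hasSeries (c : Ref G554 → ℂ) (h : IsParameter G554 c) (hc : c ≠ 0) :
    HasSeries G554 c lam coeffs := by
  have hL := isL_V c h (ne_zero_param c h hc)
  have : Nontrivial U0 := ⟨e0, 0, e0_ne⟩
  refine ⟨⟨Vs, inferInstance, inferInstance, xV, _, gV, inc, hL⟩, ?_⟩
  intro L _ _ x y g ι hL'
  funext i
  rw [gdim_unique G554 c lam xV _ gV inc x y g ι hL kaU kaU_inc kaU_x hL' i, gdim_V, finrank_Ud,
    card_coeffs]

theorem not_palindromicAt (c : Ref G554 → ℂ) (h : IsParameter G554 c) (hc : c ≠ 0) :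
    ¬ PalindromicAt G554 c lam := by
  intro hp
  have hL := isL_V c h (ne_zero_param c h hc)
  have h1 := hp Vs xV _ gV inc hL
  have h2 : gdim xV inc = coeffs := by
    funext i
    rw [gdim_V, finrank_Ud, card_coeffs]
  rw [h2] at h1
  exact not_palindromic_coeffs h1

theorem not_generic : ¬ HoldsGenerically G554 (fun c => PalindromicAt G554 c lam) := by
  rintro ⟨p, ⟨c1, hc1, hp1⟩, hp⟩
  have h1 : ∀ c : Ref G554 → ℂ, IsParameter G554 c → c ≠ 0 → MvPolynomial.eval c p = 0 := by
    intro c h hc
    by_contra hne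
    exact not_palindromicAt c h hc (hp c h hne)
  have h2 : c1 = 0 := by
    by_contra hne
    exact hp1 (h1 c1 hc1 hne)
  subst h2
  let q : Polynomial ℂ := MvPolynomial.aeval (fun _ => Polynomial.X) p
  have hq : ∀ t : ℂ, q.eval t = MvPolynomial.eval (fun _ => t) p := by
    intro t
    have h3 : ((Polynomial.evalRingHom t).comp
        (MvPolynomial.aeval (R := ℂ) (fun _ : Ref G554 => (Polynomial.X : Polynomial ℂ))).toRingHom) =
        MvPolynomial.eval (fun _ => t) := by
      apply MvPolynomial.ringHom_ext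
      · intro r
        simp
      · intro i
        simp
    exact congrFun (congrArg DFunLike.coe h3) p
  have hq0 : q = 0 := by
    apply Polynomial.eq_zero_of_infinite_isRoot
    refine Set.Infinite.mono (s := {t : ℂ | t ≠ 0}) ?_ ?_
    · intro t ht
      show q.eval t = 0
      rw [hq]
      apply h1
      · intro _ _ _
        rfl
      · intro h
        apply ht
        exact congrFun h (refMap (0, 0))
    · exact (Set.finite_singleton (0 : ℂ)).infinite_compl
  apply hp1
  have h4 := hq 0
  rw [hq0, Polynomial.eval_zero] at h4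
  exact h4.symm

theorem isG554 : IsG554 G554 := by
  refine ⟨Pi.basisFun ℂ (Fin 4), fun w => ?_⟩
  rw [mem_G554]
  constructor
  · rintro ⟨σ, a, ha, hp, hw⟩
    refine ⟨σ, fun i => a (σ i), fun i => ha _, ?_, fun i => ?_⟩
    · rw [← hp]
      exact Equiv.prod_comp σ a
    · rw [Pi.basisFun_apply, Pi.basisFun_apply]
      funext j
      rw [hw, Pi.smul_apply, smul_eq_mul]
      by_cases h : j = σ i
      · subst h
        rw [pinv, Pi.single_eq_same, Pi.single_eq_same]
      · rw [Pi.single_eq_of_ne h, Pi.single_eq_of_ne, mul_zero, mul_zero]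
        intro h'
        apply h
        rw [← h', invp]
  · rintro ⟨σ, a, ha, hp, hw⟩
    refine ⟨σ, fun i => a (σ⁻¹ i), fun i => ha _, ?_, fun v j => ?_⟩
    · rw [← hp]
      exact Equiv.prod_comp σ⁻¹ a
    · have h1 : w v = ∑ i, v i • w (Pi.basisFun ℂ (Fin 4) i) := by
        conv_lhs => rw [← (Pi.basisFun ℂ (Fin 4)).sum_repr v, map_sum]
        refine Finset.sum_congr rfl fun i _ => ?_
        rw [map_smul, Pi.basisFun_repr]
      rw [h1, Finset.sum_apply, Finset.sum_eq_single (σ⁻¹ j)]
      · rw [hw, Pi.basisFun_apply, invp, Pi.smul_apply, Pi.smul_apply, Pi.single_eq_same,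
          smul_eq_mul, smul_eq_mul]
        ring
      · intro i _ hi
        rw [hw, Pi.basisFun_apply, Pi.smul_apply, Pi.smul_apply, Pi.single_eq_of_ne, smul_zero,
          smul_zero]
        intro h'
        apply hi
        rw [h', pinv]
      · intro h; exact absurd (Finset.mem_univ _) h

theorem isCounterexample : IsCounterexample G554 lam coeffs :=
  ⟨lam_irreducible, finrank_U0, hasSeries, not_generic⟩

end Pool.Agent.Y57.RCA
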