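import Pool.Agent.Y57.RCA.Quot

/-!
# From operators to modules over the restricted rational Cherednik algebra
-/

set_option autoImplicit false

open scoped BigOperators TensorProduct

namespace Pool.Agent.Y57.RCA

section

variable {V : Type} [AddCommGroup V] [Module ℂ V]
variable (W : Subgroup (V ≃ₗ[ℂ] V)) (c : Ref W → ℂ)
  {L : Type} [AddCommGroup L] [Module ℂ L]
  (x : Module.Dual ℂ V →ₗ[ℂ] Module.End ℂ L) (y : V →ₗ[ℂ] Module.End ℂ L)
  (g : Representation ℂ W L)

/-- the action of the generators -/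
def genOp : Gen W → Module.End ℂ L
  | .x f => x f
  | .y v => y v
  | .g w => g w

/-- the action of the free algebra -/
noncomputable def frOp : Fr W →ₐ[ℂ] Module.End ℂ L := FreeAlgebra.lift ℂ (genOp W x y g)

theorem frOp_X (f : Module.Dual ℂ V) : frOp W x y g (X W f) = x f :=
  FreeAlgebra.lift_ι_apply _ _

theorem frOp_Y (v : V) : frOp W x y g (Y W v) = y v :=
  FreeAlgebra.lift_ι_apply _ _

theorem frOp_G (w : W) : frOp W x y g (G W w) = g w :=
  FreeAlgebra.lift_ι_apply _ _

theorem frOp_rel [Finite W] (h1 : CherednikRel W c x y g) (h2 : Restricted W x y) {a b : Fr W}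
    (h : Rel W c a b) : frOp W x y g a = frOp W x y g b := by
  have : Finite (Ref W) := Subtype.finite
  have : Fintype (Ref W) := Fintype.ofFinite _
  have : Fintype W := Fintype.ofFinite _
  obtain ⟨hxx, hyy, hgx, hgy, hyx⟩ := h1
  cases h with
  | x_add f f' => rw [map_add, frOp_X, frOp_X, frOp_X, map_add]
  | x_smul t f => rw [map_smul, frOp_X, frOp_X, map_smul]
  | y_add v v' => rw [map_add, frOp_Y, frOp_Y, frOp_Y, map_add]
  | y_smul t v => rw [map_smul, frOp_Y, frOp_Y, map_smul]
  | g_one => rw [map_one, frOp_G, map_one]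
  | g_mul w w' => rw [map_mul, frOp_G, frOp_G, frOp_G, map_mul]
  | g_x w f => rw [map_mul, map_mul, frOp_G, frOp_X, frOp_X, hgx]
  | g_y w v => rw [map_mul, map_mul, frOp_G, frOp_Y, frOp_Y, hgy]
  | x_x f f' => rw [map_mul, map_mul, frOp_X, frOp_X, hxx]
  | y_y v v' => rw [map_mul, map_mul, frOp_Y, frOp_Y, hyy]
  | y_x v f =>
    rw [map_sub, map_mul, map_mul, frOp_X, frOp_Y, hyx, map_neg, finsum_eq_sum_of_fintype,
      finsum_eq_sum_of_fintype, map_sum]
    congr 1
    refine Finset.sum_congr rfl fun s _ => ?_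
    rw [map_smul, frOp_G]
  | inv_x l hl =>
    rw [map_zero, ← h2.1 l hl, finsum_eq_sum_of_fintype, finsum_eq_sum_of_fintype, map_sum]
    refine Finset.sum_congr rfl fun w _ => ?_
    rw [map_list_prod, List.map_map]
    congr 1
    refine List.map_congr_left fun f _ => ?_
    exact frOp_X W x y g _
  | inv_y l hl =>
    rw [map_zero, ← h2.2 l hl, finsum_eq_sum_of_fintype, finsum_eq_sum_of_fintype, map_sum]
    refine Finset.sum_congr rfl fun w _ => ?_
    rw [map_list_prod, List.map_map]
    congr 1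
    refine List.map_congr_left fun f _ => ?_
    exact frOp_Y W x y g _

/-- the action of the restricted rational Cherednik algebra -/
noncomputable def opHom [Finite W] (h1 : CherednikRel W c x y g) (h2 : Restricted W x y) :
    RRCA W c →ₐ[ℂ] Module.End ℂ L :=
  RingQuot.liftAlgHom ℂ ⟨frOp W x y g, fun _ _ h => frOp_rel W c x y g h1 h2 h⟩

variable [Finite W] (h1 : CherednikRel W c x y g) (h2 : Restricted W x y)

theorem opHom_mk (z : Fr W) : opHom W c x y g h1 h2 (mkH W c z) = frOp W x y g z :=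
  RingQuot.liftAlgHom_mkAlgHom_apply ..

theorem opHom_x (f : Module.Dual ℂ V) : opHom W c x y g h1 h2 (gen W c (Gen.x f)) = x f :=
  (opHom_mk W c x y g h1 h2 _).trans (frOp_X W x y g f)

theorem opHom_y (v : V) : opHom W c x y g h1 h2 (gen W c (Gen.y v)) = y v :=
  (opHom_mk W c x y g h1 h2 _).trans (frOp_Y W x y g v)

theorem opHom_g (w : W) : opHom W c x y g h1 h2 (gen W c (Gen.g w)) = g w :=
  (opHom_mk W c x y g h1 h2 _).trans (frOp_G W x y g w)

/-- a copy of `L` with its module structure -/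
def LM (_ : CherednikRel W c x y g) (_ : Restricted W x y) : Type := L

/-- the additive group -/
@[reducible] def lmAdd : AddCommGroup (LM W c x y g h1 h2) := inferInstanceAs (AddCommGroup L)

attribute [local instance] lmAdd

/-- the vector space -/
@[reducible] def lmVec : Module ℂ (LM W c x y g h1 h2) := inferInstanceAs (Module ℂ L)

attribute [local instance] lmVec

/-- the module structure -/
@[reducible] noncomputable def lmMod : Module (RRCA W c) (LM W c x y g h1 h2) :=
  Module.compHom L (opHom W c x y g h1 h2).toRingHom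

attribute [local instance] lmMod

theorem LM_smul (h : RRCA W c) (u : LM W c x y g h1 h2) :
    h • u = opHom W c x y g h1 h2 h u := rfl

theorem lmTower : IsScalarTower ℂ (RRCA W c) (LM W c x y g h1 h2) where
  smul_assoc t h u := by
    rw [LM_smul, LM_smul, map_smul]
    rfl

attribute [local instance] lmTower

theorem LM_simple (h3 : IsSimple W x y g) : IsSimpleModule (RRCA W c) (LM W c x y g h1 h2) := by
  obtain ⟨hnt, hN⟩ := h3
  rw [isSimpleModule_iff]
  have hnt2 : Nontrivial (Submodule (RRCA W c) (LM W c x y g h1 h2)) := by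
    have : Nontrivial (LM W c x y g h1 h2) := hnt
    infer_instance
  refine { toNontrivial := hnt2, eq_bot_or_eq_top := ?_ }
  intro N
  let N' : Submodule ℂ L := N.restrictScalars ℂ
  have hcase := hN N' ?_ ?_ ?_
  · rcases hcase with h | h
    · left
      rw [eq_bot_iff]
      intro v hv
      have h5 : v ∈ N' := hv
      rw [h] at h5
      exact h5
    · right
      rw [eq_top_iff]
      intro v _
      have h5 : v ∈ N' := by rw [h]; trivial
      exact h5
  · intro f u hu
    have h5 := N.smul_mem (gen W c (Gen.x f)) hu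
    have e : gen W c (Gen.x f) • (show LM W c x y g h1 h2 from u) = x f u := by
      rw [LM_smul, opHom_x]
    rw [e] at h5
    exact h5
  · intro v u hu
    have h5 := N.smul_mem (gen W c (Gen.y v)) hu
    have e : gen W c (Gen.y v) • (show LM W c x y g h1 h2 from u) = y v u := by
      rw [LM_smul, opHom_y]
    rw [e] at h5
    exact h5
  · intro w u hu
    have h5 := N.smul_mem (gen W c (Gen.g w)) hu
    have e : gen W c (Gen.g w) • (show LM W c x y g h1 h2 from u) = g w u := by
      rw [LM_smul, opHom_g]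
    rw [e] at h5
    exact h5

variable {U : Type} [AddCommGroup U] [Module ℂ U] (ρ : Representation ℂ W U) (ι : U →ₗ[ℂ] L)

/-- the map to the copy -/
def ioL : U →ₗ[ℂ] LM W c x y g h1 h2 := ι

theorem partX_eq (i : ℤ) :
    Module.finrank ℂ (partX W c (ioL W c x y g h1 h2 ι) i) = gdim x ι i := by
  have key : ∀ (l : List (Module.Dual ℂ V)) (u : U),
      (l.map (xH W c)).prod • ioL W c x y g h1 h2 ι u = (l.map x).prod (ι u) := by
    intro l u
    rw [LM_smul, map_list_prod, List.map_map]
    have : (opHom W c x y g h1 h2) ∘ (xH W c) = x := by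
      funext f
      exact opHom_x W c x y g h1 h2 f
    rw [this]
    rfl
  have h3 : partX W c (ioL W c x y g h1 h2 ι) i =
      (Submodule.span ℂ {z : L | ∃ (l : List (Module.Dual ℂ V)) (u : U),
        (l.length : ℤ) = i ∧ z = (l.map x).prod (ι u)} : Submodule ℂ L) := by
    unfold partX
    congr 1
    ext z
    constructor
    · rintro ⟨l, u, hl, rfl⟩
      exact ⟨l, u, hl, key l u⟩
    · rintro ⟨l, u, hl, rfl⟩
      exact ⟨l, u, hl, (key l u).symm⟩
  rw [h3]
  rfl

end

section

variable {V : Type} [AddCommGroup V] [Module ℂ V] [FiniteDimensional ℂ V]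
variable (W : Subgroup (V ≃ₗ[ℂ] V)) [Finite W] (c : Ref W → ℂ)
  {U : Type} [AddCommGroup U] [Module ℂ U] [Nontrivial U] (ρ : Representation ℂ W U)
  {L : Type} [AddCommGroup L] [Module ℂ L]
  (x : Module.Dual ℂ V →ₗ[ℂ] Module.End ℂ L) (y : V →ₗ[ℂ] Module.End ℂ L)
  (g : Representation ℂ W L) (ι : U →ₗ[ℂ] L)
  {L' : Type} [AddCommGroup L'] [Module ℂ L']
  (x' : Module.Dual ℂ V →ₗ[ℂ] Module.End ℂ L') (y' : V →ₗ[ℂ] Module.End ℂ L')
  (g' : Representation ℂ W L') (ι' : U →ₗ[ℂ] L')

attribute [local instance] lmAdd lmVec lmMod lmTower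

/-- the graded dimension of `L_c(λ)` does not depend on the model -/
theorem gdim_unique (h : IsL W c x y g ρ ι) (κ : L →ₗ[ℂ] U) (hκι : ∀ u, κ (ι u) = u)
    (hκx : ∀ f p, κ (x f p) = 0) (h' : IsL W c x' y' g' ρ ι') (i : ℤ) :
    gdim x' ι' i = gdim x ι i := by
  obtain ⟨h1, h2, h3, h4, h5, h6⟩ := h
  obtain ⟨h1', h2', h3', h4', h5', h6'⟩ := h'
  have hs := LM_simple W c x y g h1 h2 h3
  have hs' := LM_simple W c x' y' g' h1' h2' h3'
  rw [← partX_eq W c x y g h1 h2 ι i, ← partX_eq W c x' y' g' h1' h2' ι' i]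
  refine partX_unique W c ρ (ioL W c x y g h1 h2 ι) ?_ ?_ (show LM W c x y g h1 h2 →ₗ[ℂ] U from κ)
    ?_ ?_ (ioL W c x' y' g' h1' h2' ι') ?_ ?_ ?_ i
  · intro v u
    rw [LM_smul, opHom_y]
    exact h5 v u
  · intro w u
    rw [LM_smul, opHom_g]
    exact h6 w u
  · exact hκι
  · intro f p
    rw [LM_smul, opHom_x]
    exact hκx f p
  · intro v u
    rw [LM_smul, opHom_y]
    exact h5' v u
  · intro w u
    rw [LM_smul, opHom_g]
    exact h6' w u
  · exact h4'

end

end Pool.Agent.Y57.RCA
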