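import Pool.Agent.Y57.RCA.Simple
import Pool.Agent.Y57.RCA.Link

/-!
# The grading, the irreducible representation of `G(5,5,4)`, and the module
-/

set_option autoImplicit false

open scoped BigOperators

namespace Pool.Agent.Y57.RCA

/-- the homogeneous components of the module -/
def Ud (i : ℤ) : Submodule ℂ Vs where
  carrier := {u | ∀ r π, (dg r : ℤ) ≠ i → (u : I → ℂ) (r, π) = 0}
  add_mem' := by
    intro a b ha hb r π h
    rw [Submodule.coe_add, Pi.add_apply, ha r π h, hb r π h, add_zero]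
  zero_mem' := by
    intro r π _
    rfl
  smul_mem' := by
    intro t a ha r π h
    rw [Submodule.coe_smul, Pi.smul_apply, ha r π h, smul_zero]

theorem PV_Ud (m : M) (i : ℤ) {u : Vs} (hu : u ∈ Ud i) : PV m u ∈ Ud i := by
  intro r π h
  rw [PV_coe, PF_apply, hu r _ h, mul_zero]

theorem ev_zero (L : Fm) (π : S) (f : I → ℂ) (h : ∀ e ∈ L, f (e.2.1, π * e.2.2) = 0) :
    ev L π f = 0 := by
  induction L with
  | nil => rfl
  | cons e L ih =>
    rw [ev_cons, h e (by simp), ih fun e' he' => h e' (by simp [he']), mul_zero, add_zero]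

theorem lc_deg {K : Fin 8 → Fin 4 → Fm} {ε : ℤ} (hK : ∀ r ρ, ∀ e ∈ K r ρ, (dg r : ℤ) = dg e.2.1 + ε)
    (a : Fin 4 → ℂ) {i : ℤ} {u : Vs} (hu : u ∈ Ud i) (r : Fin 8) (π : S) (h : (dg r : ℤ) ≠ i + ε) :
    lc K a (u : I → ℂ) (r, π) = 0 := by
  rw [lc_apply, Finset.sum_apply]
  refine Finset.sum_eq_zero fun j _ => ?_
  rw [Pi.smul_apply, op_apply, ev_zero, smul_zero]
  intro e he
  apply hu
  intro h2
  apply h
  rw [hK _ _ e he, h2]

theorem XV_Ud (a : Fin 4 → ℂ) {i : ℤ} {u : Vs} (hu : u ∈ Ud i) : XV a u ∈ Ud (i + 1) := by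
  intro r π h
  refine lc_deg (K := KX) (ε := 1) ?_ a hu r π h
  intro r ρ e he
  rw [deg_X r ρ e he]
  push_cast
  ring

theorem YV_Ud (a : Fin 4 → ℂ) {i : ℤ} {u : Vs} (hu : u ∈ Ud i) : YV a u ∈ Ud (i + -1) := by
  intro r π h
  refine lc_deg (K := KY) (ε := -1) ?_ a hu r π h
  intro r ρ e he
  rw [deg_Y r ρ e he]
  push_cast
  ring

theorem vb_Ud (r : Fin 8) : vb r ∈ Ud (dg r) := by
  intro r' π h
  show bA ℂ r (r', π) = 0
  unfold bA
  rw [if_neg]
  rintro rfl
  exact h rfl

theorem chi_or : ∀ r : Fin 8, (chi r : ℤ) = 1 ∨ tau r ≠ 1 := by decide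

theorem vb_ne (r : Fin 8) : vb r ≠ 0 := by
  intro h
  have h1 : bA ℂ r (r, 1) = 0 := congrFun (congrArg Subtype.val h) (r, 1)
  unfold bA at h1
  rw [if_pos rfl, if_pos rfl] at h1
  have hc : (chi r : ℤ) = 1 ∨ tau r ≠ 1 := chi_or r
  by_cases ht : (1 : S) = tau r
  · rw [if_pos ht] at h1
    rcases hc with hc | hc
    · rw [hc] at h1
      norm_num at h1
    · exact hc ht.symm
  · rw [if_neg ht] at h1
    norm_num at h1

/-- the underlying space of the `12`-dimensional representation of `G(5,5,4)` -/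
def U0 : Type := Ud 0

instance : AddCommGroup U0 := inferInstanceAs (AddCommGroup (Ud 0))
instance : Module ℂ U0 := inferInstanceAs (Module ℂ (Ud 0))

/-- the underlying vector -/
def U0.v (u : U0) : Vs := (show Ud 0 from u).1

theorem U0.v_mem (u : U0) : u.v ∈ Ud 0 := (show Ud 0 from u).2

theorem U0.v_inj {u u' : U0} (h : u.v = u'.v) : u = u' := Subtype.ext h

/-- the action of `M` on `λ` -/
noncomputable def lamM (m : M) : U0 →ₗ[ℂ] U0 :=
  (show Ud 0 →ₗ[ℂ] Ud 0 from (PV m).restrict fun _ hu => PV_Ud _ 0 hu)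

theorem lamM_v (m : M) (u : U0) : (lamM m u).v = PV m u.v := rfl

/-- the `12`-dimensional representation of `G(5,5,4)` -/
noncomputable def lam : Representation ℂ G554 U0 where
  toFun w := lamM (psi.symm w)
  map_one' := by
    refine LinearMap.ext fun u => U0.v_inj ?_
    rw [lamM_v, map_one, PV_one]
    rfl
  map_mul' a b := by
    refine LinearMap.ext fun u => U0.v_inj ?_
    rw [lamM_v, map_mul, PV_mul]
    rfl

theorem lam_psi (m : M) (u : U0) : (lam (psi m) u).v = PV m u.v := by
  show (lamM (psi.symm (psi m)) u).v = _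
  rw [MulEquiv.symm_apply_apply, lamM_v]

/-- the highest weight vector -/
noncomputable def e0 : U0 := (⟨vb 0, vb_Ud 0⟩ : Ud 0)

theorem e0_v : e0.v = vb 0 := rfl

theorem e0_ne : e0 ≠ 0 := fun h => vb_ne 0 (congrArg U0.v h)

/-- the inclusion of `λ` in the module -/
def inc : U0 →ₗ[ℂ] Vs := (show Ud 0 →ₗ[ℂ] Vs from (Ud 0).subtype)

theorem inc_apply (u : U0) : inc u = u.v := rfl

/-- subspaces of the degree zero part -/
theorem zero_part (N : Submodule ℂ Vs) (hN0 : N ≤ Ud 0) (hN : N ≠ ⊥)
    (hp : ∀ m, ∀ u ∈ N, PV m u ∈ N) : N = Ud 0 := by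
  obtain ⟨u, hu, hne⟩ := (Submodule.ne_bot_iff N).1 hN
  obtain ⟨⟨r, π⟩, hrp⟩ : ∃ x, (u : I → ℂ) x ≠ 0 := by
    by_contra hall
    push Not at hall
    exact hne (Subtype.ext (funext hall))
  have hr : r = 0 := by
    by_contra h
    apply hrp
    apply hN0 hu
    intro h2
    exact h (dg_zero r (by exact_mod_cast h2))
  subst hr
  have hvb := vb_of_PV N hp u hu π hrp
  apply le_antisymm hN0
  intro v hv
  rw [span_formula v]
  refine N.smul_mem _ (N.sum_mem fun x _ => ?_)
  by_cases hx : x.1 = 0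
  · rw [hx]
    exact N.smul_mem _ (hp _ _ hvb)
  · have h0 : (v : I → ℂ) x = 0 := by
      apply hv x.1 x.2
      intro h2
      exact hx (dg_zero x.1 (by exact_mod_cast h2))
    rw [h0, zero_smul]
    exact N.zero_mem

theorem lam_irreducible : lam.IsIrreducible := by
  have hnt : Nontrivial (Subrepresentation lam) := by
    refine ⟨⊥, ⊤, ?_⟩
    intro h
    have h1 : (⊥ : Submodule ℂ U0) = ⊤ := congrArg Subrepresentation.toSubmodule h
    have h2 : e0 ∈ (⊥ : Submodule ℂ U0) := by
      rw [h1]; trivial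
    rw [Submodule.mem_bot] at h2
    exact e0_ne h2
  refine { toNontrivial := hnt, eq_bot_or_eq_top := ?_ }
  intro N
  by_cases hN : N.toSubmodule = ⊥
  · left
    exact Subrepresentation.toSubmodule_injective hN
  · right
    apply Subrepresentation.toSubmodule_injective
    show N.toSubmodule = ⊤
    have h1 := zero_part (N.toSubmodule.map inc) ?_ ?_ ?_
    · rw [eq_top_iff]
      intro v _
      have h2 : v.v ∈ N.toSubmodule.map inc := by
        rw [h1]
        exact v.v_mem
      obtain ⟨w, hw, hwv⟩ := h2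
      have : w = v := U0.v_inj hwv
      rwa [← this]
    · rintro _ ⟨w, _, rfl⟩
      exact w.v_mem
    · intro h
      apply hN
      rw [eq_bot_iff]
      intro v hv
      have h2 : v.v ∈ (⊥ : Submodule ℂ Vs) := by
        rw [← h]
        exact ⟨v, hv, rfl⟩
      rw [Submodule.mem_bot] at h2 ⊢
      exact U0.v_inj h2
    · rintro m _ ⟨w, hw, rfl⟩
      exact ⟨lam (psi m) w, N.apply_mem_toSubmodule _ hw, lam_psi m w⟩

/-! ### the module -/

/-- `x` acting on the module -/
noncomputable def xV : Module.Dual ℂ E4 →ₗ[ℂ] Module.End ℂ Vs where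
  toFun f := XV (cx f)
  map_add' f f' := by rw [cx_add, XV_add]
  map_smul' t f := by rw [cx_smul, XV_smul, RingHom.id_apply]

/-- `y` acting on the module -/
noncomputable def yV (c0 : ℂ) : E4 →ₗ[ℂ] Module.End ℂ Vs where
  toFun v := (5 * c0) • YV v
  map_add' v v' := by rw [YV_add, smul_add]
  map_smul' t v := by rw [YV_smul, smul_comm, RingHom.id_apply]

/-- `G(5,5,4)` acting on the module -/
noncomputable def gV : Representation ℂ G554 Vs where
  toFun w := PV (psi.symm w)
  map_one' := by rw [map_one, PV_one]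
  map_mul' a b := by rw [map_mul, PV_mul]

theorem gV_psi (m : M) : gV (psi m) = PV m := by
  show PV (psi.symm (psi m)) = _
  rw [MulEquiv.symm_apply_apply]

theorem xV_apply (f : Module.Dual ℂ E4) : xV f = XV (cx f) := rfl
theorem yV_apply (c0 : ℂ) (v : E4) : yV c0 v = (5 * c0) • YV v := rfl

theorem frAct_G' (c0 : ℂ) (w : G554) : frAct c0 (G G554 w) = gV w := by
  obtain ⟨m, rfl⟩ := psi.surjective w
  rw [frAct_G, gV_psi]

section

variable (c : Ref G554 → ℂ) (hc : IsParameter G554 c)

include hc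

theorem cherednikRel_V : CherednikRel G554 c xV (yV (c (refMap (0, 0)))) gV := by
  refine ⟨fun f f' => XV_comm _ _, ?_, ?_, ?_, ?_⟩
  · intro v v'
    have h := frAct_rel c hc _ _ (Rel.y_y v v')
    rw [map_mul, map_mul, frAct_Y, frAct_Y] at h
    exact h
  · intro w f
    have h := frAct_rel c hc _ _ (Rel.g_x w f)
    rw [map_mul, map_mul, frAct_X, frAct_X, frAct_G'] at h
    exact h
  · intro w v
    have h := frAct_rel c hc _ _ (Rel.g_y w v)
    rw [map_mul, map_mul, frAct_Y, frAct_Y, frAct_G'] at h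
    exact h
  · intro v f
    have : Fintype (Ref G554) := Fintype.ofFinite _
    have h := frAct_rel c hc _ _ (Rel.y_x v f)
    rw [map_sub, map_mul, map_mul, frAct_X, frAct_Y, map_neg, finsum_eq_sum_of_fintype,
      map_sum] at h
    rw [finsum_eq_sum_of_fintype]
    refine Eq.trans h ?_
    congr 1
    refine Finset.sum_congr rfl fun s _ => ?_
    rw [map_smul, frAct_G']

theorem restricted_V : Restricted G554 xV (yV (c (refMap (0, 0)))) := by
  have : Fintype G554 := Fintype.ofFinite _
  constructor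
  · intro l hl
    have h := frAct_rel c hc _ _ (Rel.inv_x l hl)
    rw [map_zero, finsum_eq_sum_of_fintype, map_sum] at h
    rw [finsum_eq_sum_of_fintype]
    refine Eq.trans (Finset.sum_congr rfl fun w _ => ?_) h
    rw [map_list_prod, List.map_map]
    congr 1
    refine List.map_congr_left fun f _ => ?_
    exact (frAct_X _ _).symm
  · intro l hl
    have h := frAct_rel c hc _ _ (Rel.inv_y l hl)
    rw [map_zero, finsum_eq_sum_of_fintype, map_sum] at h
    rw [finsum_eq_sum_of_fintype]
    refine Eq.trans (Finset.sum_congr rfl fun w _ => ?_) h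
    rw [map_list_prod, List.map_map]
    congr 1
    refine List.map_congr_left fun f _ => ?_
    exact (frAct_Y _ _).symm

omit hc

theorem cx_proj (i : Fin 4) : cx (LinearMap.proj i) = Pi.single i 1 := by
  funext j
  show (Pi.single j 1 : E4) i = (Pi.single i 1 : Fin 4 → ℂ) j
  by_cases h : i = j
  · subst h; rfl
  · rw [Pi.single_eq_of_ne h, Pi.single_eq_of_ne (Ne.symm h)]

theorem isSimple_V (c0 : ℂ) (h0 : c0 ≠ 0) : IsSimple G554 xV (yV c0) gV := by
  refine ⟨⟨vb 0, 0, vb_ne 0⟩, fun N hx hy hg => ?_⟩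
  by_cases hN : N = ⊥
  · exact Or.inl hN
  · right
    apply eq_top_of_stable N hN
    · intro i u hu
      have h2 : xV (LinearMap.proj i) u ∈ N := hx (LinearMap.proj i) hu
      rwa [xV_apply, cx_proj] at h2
    · intro i u hu
      have h3 : (5 * c0) • YV (Pi.single i 1) u ∈ N := hy (Pi.single i 1) hu
      have h4 := N.smul_mem (5 * c0)⁻¹ h3
      rwa [smul_smul, inv_mul_cancel₀ (mul_ne_zero (by norm_num) h0), one_smul] at h4
    · intro m u hu
      have h2 : gV (psi m) u ∈ N := hg (psi m) hu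
      rwa [gV_psi] at h2

/-- restriction to degree zero -/
def kaF (u : Vs) : Vs := ⟨fun x => if x.1 = 0 then (u : I → ℂ) x else 0, by
  intro r π
  by_cases h : r = 0
  · simp only [h, if_true]
    exact u.2 0 π
  · simp only [h, if_false, mul_zero]⟩

theorem kaF_apply (u : Vs) (x : I) :
    ((kaF u : Vs) : I → ℂ) x = if x.1 = 0 then (u : I → ℂ) x else 0 := rfl

/-- the projection to the degree zero part -/
def ka : Vs →ₗ[ℂ] Ud 0 where
  toFun u := ⟨kaF u, by
    intro r π h
    rw [kaF_apply, if_neg]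
    rintro rfl
    exact h rfl⟩
  map_add' u v := by
    apply Subtype.ext
    apply Subtype.ext
    funext x
    show (if x.1 = 0 then (u : I → ℂ) x + (v : I → ℂ) x else 0) =
      (if x.1 = 0 then (u : I → ℂ) x else 0) + (if x.1 = 0 then (v : I → ℂ) x else 0)
    split_ifs <;> simp
  map_smul' t u := by
    apply Subtype.ext
    apply Subtype.ext
    funext x
    show (if x.1 = 0 then t * (u : I → ℂ) x else 0) =
      t * (if x.1 = 0 then (u : I → ℂ) x else 0)
    split_ifs <;> simp

/-- the projection to the degree zero part -/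
def kaU : Vs →ₗ[ℂ] U0 := ka

theorem ka_inc (u : U0) : (ka (inc u) : Vs) = u.v := by
  apply Subtype.ext
  funext x
  show (if x.1 = 0 then (u.v : I → ℂ) x else 0) = (u.v : I → ℂ) x
  split_ifs with h
  · rfl
  · symm
    apply u.v_mem x.1 x.2
    intro h2
    exact h (dg_zero x.1 (by exact_mod_cast h2))

theorem kaU_inc (u : U0) : kaU (inc u) = u := U0.v_inj (ka_inc u)

theorem KX_zero : ∀ ρ, KX 0 ρ = [] := by decide

theorem ka_x (a : Fin 4 → ℂ) (u : Vs) : (ka (XV a u) : Vs) = 0 := by
  apply Subtype.ext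
  funext x
  obtain ⟨r, π⟩ := x
  show (if r = 0 then lc KX a (u : I → ℂ) (r, π) else 0) = 0
  split_ifs with h
  · subst h
    rw [lc_apply, Finset.sum_apply]
    refine Finset.sum_eq_zero fun j _ => ?_
    rw [Pi.smul_apply, op_apply, KX_zero, ev_nil, smul_zero]
  · rfl

theorem kaU_x (f : Module.Dual ℂ E4) (u : Vs) : kaU (xV f u) = 0 := U0.v_inj (ka_x _ _)

theorem YV_zero (v : E4) (u : U0) : YV v u.v = 0 := by
  have h1 : YV v u.v ∈ Ud (0 + -1) := YV_Ud v u.v_mem
  apply Subtype.ext
  funext x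
  apply h1 x.1 x.2
  intro h
  have : (0 : ℤ) ≤ dg x.1 := Int.natCast_nonneg _
  omega

theorem isHighestWeight_V (c0 : ℂ) : IsHighestWeight G554 (yV c0) gV lam inc := by
  refine ⟨?_, ?_, ?_⟩
  · intro h
    apply vb_ne 0
    have h1 : inc e0 = 0 := by rw [h, LinearMap.zero_apply]
    exact h1
  · intro v u
    rw [yV_apply, LinearMap.smul_apply, inc_apply, YV_zero, smul_zero]
  · intro w u
    obtain ⟨m, rfl⟩ := psi.surjective w
    rw [gV_psi, inc_apply, inc_apply, lam_psi]

include hc in
theorem isL_V (h0 : c (refMap (0, 0)) ≠ 0) :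
    IsL G554 c xV (yV (c (refMap (0, 0)))) gV lam inc :=
  ⟨cherednikRel_V c hc, restricted_V c hc, isSimple_V _ h0, isHighestWeight_V _⟩

end

theorem wd_len : ∀ r, (wd r).length = dg r := by decide

theorem proj_word (l : List (Fin 4)) :
    ((l.map fun i => (LinearMap.proj i : Module.Dual ℂ E4)).map xV) =
      l.map fun i => XV (Pi.single i 1) := by
  rw [List.map_map]
  refine List.map_congr_left fun i _ => ?_
  show XV (cx (LinearMap.proj i)) = _
  rw [cx_proj]

theorem PV_word (m : M) (l : List (Module.Dual ℂ E4)) (u : Vs) :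
    PV m ((l.map xV).prod u) = ((l.map (act (M.toGL m))).map xV).prod (PV m u) := by
  induction l with
  | nil => rfl
  | cons a l ih =>
    rw [List.map_cons, List.prod_cons, List.map_cons, List.map_cons, List.prod_cons,
      Module.End.mul_apply, Module.End.mul_apply, ← ih]
    have h := LinearMap.congr_fun (PV_XV m (cx a)) ((l.map xV).prod u)
    rw [← cx_act] at h
    exact h

/-- the homogeneous components, as spans -/
theorem span_eq_Ud (i : ℤ) : Submodule.span ℂ {z | ∃ (l : List (Module.Dual ℂ E4)) (u : U0),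
    (l.length : ℤ) = i ∧ z = (l.map xV).prod (inc u)} = Ud i := by
  apply le_antisymm
  · rw [Submodule.span_le]
    rintro _ ⟨l, u, rfl, rfl⟩
    show _ ∈ Ud _
    induction l with
    | nil => exact u.v_mem
    | cons a l ih =>
      rw [List.map_cons, List.prod_cons, Module.End.mul_apply, List.length_cons]
      push_cast
      exact XV_Ud _ ih
  · intro v hv
    rw [span_formula v]
    refine Submodule.smul_mem _ _ (Submodule.sum_mem _ fun x _ => ?_)
    by_cases hx : (dg x.1 : ℤ) = i
    · refine Submodule.smul_mem _ _ ?_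
      rw [vb_word, map_smul]
      refine Submodule.smul_mem _ _ (Submodule.subset_span ?_)
      refine ⟨((wd x.1).map fun i => (LinearMap.proj i : Module.Dual ℂ E4)).map
        (act (M.toGL (pm x.2))), lamM (pm x.2) e0, ?_, ?_⟩
      · rw [List.length_map, List.length_map, wd_len, hx]
      · rw [inc_apply, lamM_v, e0_v, ← PV_word, proj_word]
    · have h0 : (v : I → ℂ) x = 0 := hv x.1 x.2 hx
      rw [h0, zero_smul]
      exact Submodule.zero_mem _

theorem gdim_V (i : ℤ) : gdim xV inc i = Module.finrank ℂ (Ud i) := by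
  rw [gdim, span_eq_Ud]

end Pool.Agent.Y57.RCA
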