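import Mathlib

/-!
# The combinatorial model of a 120-dimensional module over the restricted rational
Cherednik algebra of `G(5,5,4)`

Functions on `Fin 8 × Perm (Fin 4)`, with operators in pull-back form.
-/

set_option autoImplicit false

namespace Pool.Agent.Y57.RCA

abbrev S : Type := Equiv.Perm (Fin 4)

/-- index set -/
abbrev I : Type := Fin 8 × S

/-- a formal functional -/
abbrev Fm : Type := List (ℤ × Fin 8 × S)

/-- degree of the type -/
def dg : Fin 8 → ℕ := ![0, 1, 1, 2, 2, 3, 3, 4]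

/-- the letters at the four roles -/
def wt : Fin 8 → Fin 4 → ZMod 5 :=
  ![![0, 0, 1, 3], ![4, 0, 1, 3], ![0, 0, 0, 3], ![3, 0, 1, 3],
    ![4, 0, 0, 3], ![4, 0, 4, 3], ![3, 0, 0, 3], ![3, 0, 4, 3]]

/-- the symmetry of the type -/
def tau : Fin 8 → S :=
  ![Equiv.swap 0 1, 1, Equiv.swap 0 1, Equiv.swap 0 3, 1, Equiv.swap 0 2, Equiv.swap 0 3,
    Equiv.swap 0 3]

/-- the sign of the symmetry -/
def chi : Fin 8 → ℤ := ![1, 1, 1, -1, 1, 1, -1, -1]

def s01 : S := Equiv.swap 0 1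
def s02 : S := Equiv.swap 0 2
def s03 : S := Equiv.swap 0 3
def s12 : S := Equiv.swap 1 2
/-- `0 ↦ 1 ↦ 2 ↦ 0` -/
def c012 : S := Equiv.swap 0 1 * Equiv.swap 1 2
/-- `0 ↦ 2 ↦ 3 ↦ 0` -/
def c023 : S := Equiv.swap 0 2 * Equiv.swap 2 3

/-- the table of the `x`'s -/
def KX : Fin 8 → Fin 4 → Fm :=
  ![![[], [], [], []],
    ![[(1, 0, 1)], [], [], []],
    ![[], [], [(1, 0, 1)], []],
    ![[(1, 1, 1)], [], [], [(-1, 1, s03)]],
    ![[(1, 2, 1), (1, 2, c012)], [], [(1, 1, 1)], []],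
    ![[(1, 4, s02)], [], [(1, 4, 1)], []],
    ![[(1, 4, 1)], [], [(1, 3, 1)], [(-1, 4, s03)]],
    ![[(1, 5, 1)], [], [(1, 6, 1)], [(-1, 5, c023)]]]

/-- the table of the `y`'s -/
def KY : Fin 8 → Fin 4 → Fm :=
  ![![[(-1, 1, 1)], [(-1, 1, s01)], [(1, 2, s12), (1, 2, c012)], []],
    ![[(-1, 3, 1)], [], [(1, 4, s12)], []],
    ![[(-1, 4, 1)], [(-1, 4, s01)], [], []],
    ![[], [], [(1, 6, s12)], []],
    ![[(-1, 6, 1)], [(-1, 5, s12)], [], []],
    ![[(-1, 7, 1)], [], [(-1, 7, s02)], []],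
    ![[], [(-1, 7, s12)], [], []],
    ![[], [], [], []]]

/-- composition of a formal functional with an operator given by a table -/
def app (K : Fin 8 → Fin 4 → Fm) (ρ : Fin 4) (L : Fm) : Fm :=
  L.flatMap fun e => (K e.2.1 (e.2.2⁻¹ ρ)).map fun e' => (e.1 * e'.1, e'.2.1, e.2.2 * e'.2.2)

/-- the symmetrised coefficient -/
def symCoef (L : Fm) (r : Fin 8) (g : S) : ℤ :=
  (L.map fun e => (if e.2.1 = r ∧ e.2.2 = g then e.1 else 0) +
    (if e.2.1 = r ∧ e.2.2 = g * tau r then chi r * e.1 else 0)).sum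

/-- the formal functional vanishes on symmetric functions -/
def Nul (L : Fm) : Prop := ∀ e ∈ L, symCoef L e.2.1 e.2.2 = 0

instance (L : Fm) : Decidable (Nul L) := by unfold Nul; infer_instance

/-- negative of a formal functional -/
def neg (L : Fm) : Fm := L.map fun e => (-e.1, e.2)

/-- right-hand side of the commutation relations between `y` (at role `a`) and `x` (at role `b`) -/
def rhs (r : Fin 8) (a b : Fin 4) : Fm :=
  if a = b then
    ((List.finRange 4).filter fun c => c ≠ a ∧ wt r c = wt r a).map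
      fun c => (-1, r, Equiv.swap a c)
  else if wt r a - wt r b = 1 then [(1, r, Equiv.swap a b)] else []

theorem comm_X : ∀ r : Fin 8, ∀ a b : Fin 4, Nul (app KX b (KX r a) ++ neg (app KX a (KX r b))) := by
  decide +kernel

theorem comm_Y : ∀ r : Fin 8, ∀ a b : Fin 4, Nul (app KY b (KY r a) ++ neg (app KY a (KY r b))) := by
  decide +kernel

theorem comm_YX : ∀ r : Fin 8, ∀ a b : Fin 4,
    Nul (app KX b (KY r a) ++ neg (app KY a (KX r b)) ++ neg (rhs r a b)) := by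
  decide +kernel

theorem inv_X : ∀ r : Fin 8, ∀ a : Fin 4,
    Nul (app KX a [(1, r, tau r)] ++ neg (app KX a [(chi r, r, 1)])) := by
  decide +kernel

theorem inv_Y : ∀ r : Fin 8, ∀ a : Fin 4,
    Nul (app KY a [(1, r, tau r)] ++ neg (app KY a [(chi r, r, 1)])) := by
  decide +kernel

end Pool.Agent.Y57.RCA
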