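import Pool.Agent.Y57.RCA.Defs
import Pool.Agent.Y57.RCA.Table

/-!
# The reflection group `G(5,5,4)`
-/

set_option autoImplicit false

open scoped BigOperators

namespace Pool.Agent.Y57.RCA

/-- the additive character `a ↦ exp(2πia/5)` -/
noncomputable def zz : AddChar (ZMod 5) ℂ := ZMod.stdAddChar

theorem zz_inj {a b : ZMod 5} (h : zz a = zz b) : a = b := ZMod.injective_stdAddChar h

theorem zz_zero : zz 0 = 1 := AddChar.map_zero_eq_one _

theorem zz_add (a b : ZMod 5) : zz (a + b) = zz a * zz b := AddChar.map_add_eq_mul _ _ _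

theorem zz_neg_mul (a : ZMod 5) : zz (-a) * zz a = 1 := by
  rw [← zz_add, neg_add_cancel, zz_zero]

theorem zz_ne (a : ZMod 5) : zz a ≠ 0 := by
  intro h
  have := zz_neg_mul a
  rw [h, mul_zero] at this
  exact zero_ne_one this

theorem zz_sum (u : ZMod 5) : ∑ a, zz (a * u) = if u = 0 then 5 else 0 := by
  have := AddChar.sum_mulShift u (ZMod.isPrimitive_stdAddChar 5)
  rw [zz, this, ZMod.card]
  norm_cast

theorem zz_pow (a : ZMod 5) : zz a ^ 5 = 1 := by
  rw [← AddChar.map_nsmul_eq_pow]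
  have : (5 : ℕ) • a = 0 := by
    rw [nsmul_eq_mul]
    have : ((5 : ℕ) : ZMod 5) = 0 := ZMod.natCast_self 5
    rw [this, zero_mul]
  rw [this, zz_zero]

theorem zz_prod {ι : Type} (s : Finset ι) (f : ι → ZMod 5) :
    zz (∑ i ∈ s, f i) = ∏ i ∈ s, zz (f i) := by
  classical
  induction s using Finset.induction_on with
  | empty => simp
  | insert a s ha ih => rw [Finset.sum_insert ha, Finset.prod_insert ha, zz_add, ih]

theorem pinv (σ : S) (x : Fin 4) : σ⁻¹ (σ x) = x := σ.symm_apply_apply x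
theorem invp (σ : S) (x : Fin 4) : σ (σ⁻¹ x) = x := σ.apply_symm_apply x

theorem exists_zz (b : ℂ) (hb : b ^ 5 = 1) : ∃ a : ZMod 5, zz a = b := by
  have h1 : IsPrimitiveRoot (zz 1) 5 := by
    have ho : orderOf (zz 1) = 5 := by
      have : Fact (Nat.Prime 5) := ⟨by norm_num⟩
      refine orderOf_eq_prime (zz_pow 1) ?_
      intro h
      have := zz_inj (h.trans zz_zero.symm)
      exact absurd this (by decide)
    have h2 := IsPrimitiveRoot.orderOf (zz 1)
    rwa [ho] at h2
  obtain ⟨i, _, hi⟩ := h1.eq_pow_of_pow_eq_one hb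
  refine ⟨(i : ZMod 5), ?_⟩
  rw [← hi, ← AddChar.map_nsmul_eq_pow, nsmul_eq_mul, mul_one]

/-- the reflection representation -/
abbrev E4 : Type := Fin 4 → ℂ

/-- the elements of `G(5,5,4)` -/
@[ext] structure M : Type where
  t : Fin 4 → ZMod 5
  s : S
  h : ∑ i, t i = 0

namespace M

instance : Mul M := ⟨fun a b => ⟨fun i => a.t i + b.t (a.s⁻¹ i), a.s * b.s, by
  rw [Finset.sum_add_distrib, a.h, zero_add, Equiv.sum_comp a.s⁻¹ b.t, b.h]⟩⟩

instance : One M := ⟨⟨fun _ => 0, 1, by simp⟩⟩

instance : Inv M := ⟨fun a => ⟨fun i => - a.t (a.s i), a.s⁻¹, by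
  rw [Finset.sum_neg_distrib, Equiv.sum_comp a.s a.t, a.h, neg_zero]⟩⟩

@[simp] theorem mul_t (a b : M) (i : Fin 4) : (a * b).t i = a.t i + b.t (a.s⁻¹ i) := rfl
@[simp] theorem mul_s (a b : M) : (a * b).s = a.s * b.s := rfl
@[simp] theorem one_t (i : Fin 4) : (1 : M).t i = 0 := rfl
@[simp] theorem one_s : (1 : M).s = 1 := rfl
@[simp] theorem inv_t (a : M) (i : Fin 4) : (a⁻¹).t i = - a.t (a.s i) := rfl
@[simp] theorem inv_s (a : M) : (a⁻¹).s = a.s⁻¹ := rfl

instance : Group M := Group.ofLeftAxioms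
  (by
    intro a b c
    ext i
    · simp [add_assoc, mul_inv_rev]
    · simp [mul_assoc])
  (by
    intro a
    ext i
    · simp
    · simp)
  (by
    intro a
    ext i
    · simp
    · simp)

instance : Finite M := by
  refine Finite.of_injective (fun m : M => (m.t, m.s)) ?_
  intro a b h
  rw [Prod.mk.injEq] at h
  exact M.ext h.1 h.2

noncomputable instance : Fintype M := Fintype.ofFinite M

/-- the linear automorphism given by an element of `M` -/
noncomputable def lin (m : M) : E4 ≃ₗ[ℂ] E4 where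
  toFun v i := zz (m.t i) * v (m.s⁻¹ i)
  invFun v i := zz (- m.t (m.s i)) * v (m.s i)
  map_add' v v' := by
    funext i
    simp only [Pi.add_apply]
    ring
  map_smul' r v := by
    funext i
    simp only [Pi.smul_apply, smul_eq_mul, RingHom.id_apply]
    ring
  left_inv v := by
    funext i
    simp only [pinv]
    rw [← mul_assoc, zz_neg_mul, one_mul]
  right_inv v := by
    funext i
    simp only [invp]
    rw [← mul_assoc, ← zz_add, add_neg_cancel, zz_zero, one_mul]

theorem lin_apply (m : M) (v : E4) (i : Fin 4) : lin m v i = zz (m.t i) * v (m.s⁻¹ i) := rfl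

/-- the embedding of `M` -/
noncomputable def toGL : M →* (E4 ≃ₗ[ℂ] E4) where
  toFun := lin
  map_one' := by
    ext v i
    simp [lin_apply]
  map_mul' a b := by
    refine LinearEquiv.ext fun v => funext fun i => ?_
    rw [LinearEquiv.mul_apply, lin_apply, lin_apply, lin_apply, mul_t, mul_s, mul_inv_rev, zz_add,
      mul_assoc]
    rfl

theorem toGL_apply (m : M) (v : E4) (i : Fin 4) :
    toGL m v i = zz (m.t i) * v (m.s⁻¹ i) := rfl

theorem toGL_single (m : M) (j : Fin 4) :
    toGL m (Pi.single j 1) = Pi.single (m.s j) (zz (m.t (m.s j))) := by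
  funext i
  rw [toGL_apply]
  by_cases h : i = m.s j
  · subst h
    simp
  · rw [Pi.single_eq_of_ne h, Pi.single_eq_of_ne, mul_zero]
    intro h'
    apply h
    rw [← h']
    simp

theorem toGL_injective : Function.Injective toGL := by
  intro a b h
  have h1 : ∀ j, (Pi.single (a.s j) (zz (a.t (a.s j))) : E4) = Pi.single (b.s j) (zz (b.t (b.s j))) := by
    intro j
    rw [← toGL_single, ← toGL_single, h]
  have h2 : ∀ j, a.s j = b.s j := by
    intro j
    by_contra hne
    have := congrFun (h1 j) (a.s j)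
    rw [Pi.single_eq_same, Pi.single_eq_of_ne hne] at this
    exact zz_ne _ this
  have h3 : a.s = b.s := Equiv.ext h2
  refine M.ext ?_ h3
  funext i
  have := congrFun (h1 (a.s⁻¹ i)) i
  rw [← h3] at this
  simp only [invp, Pi.single_eq_same] at this
  exact zz_inj this

end M

/-- the group `G(5,5,4)` -/
noncomputable def G554 : Subgroup (E4 ≃ₗ[ℂ] E4) := M.toGL.range

theorem mem_G554 (w : E4 ≃ₗ[ℂ] E4) : w ∈ G554 ↔ ∃ (σ : Equiv.Perm (Fin 4)) (a : Fin 4 → ℂ),
    (∀ i, a i ^ 5 = 1) ∧ ∏ i, a i = 1 ∧ ∀ v i, w v i = a i * v (σ⁻¹ i) := by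
  constructor
  · rintro ⟨m, rfl⟩
    refine ⟨m.s, fun i => zz (m.t i), fun i => zz_pow _, ?_, fun v i => M.toGL_apply m v i⟩
    rw [← zz_prod, m.h, zz_zero]
  · rintro ⟨σ, a, ha, hp, hw⟩
    choose t ht using fun i => exists_zz (a i) (ha i)
    have hs : ∑ i, t i = 0 := by
      apply zz_inj
      rw [zz_prod, zz_zero, ← hp]
      exact Finset.prod_congr rfl fun i _ => ht i
    refine ⟨⟨t, σ, hs⟩, ?_⟩
    refine LinearEquiv.ext fun v => funext fun i => ?_
    rw [M.toGL_apply, hw]
    show zz (t i) * _ = _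
    rw [ht]

/-- the isomorphism of `M` with `G(5,5,4)` -/
noncomputable def psi : M ≃* G554 := MonoidHom.ofInjective M.toGL_injective

theorem psi_coe (m : M) : ((psi m : G554) : E4 ≃ₗ[ℂ] E4) = M.toGL m := rfl

instance : Finite G554 := Finite.of_equiv M psi.toEquiv

/-- the reflections -/
def rf (p q : Fin 4) (a : ZMod 5) : M where
  t := Pi.single q a - Pi.single p a
  s := Equiv.swap p q
  h := by simp [Finset.sum_sub_distrib]

theorem rf_t (p q : Fin 4) (a : ZMod 5) : (rf p q a).t = Pi.single q a - Pi.single p a := rfl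
theorem rf_s (p q : Fin 4) (a : ZMod 5) : (rf p q a).s = Equiv.swap p q := rfl

end Pool.Agent.Y57.RCA
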