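import Pool.Agent.Y57.RCA.Verma

/-!
# Identification of the simple quotient of a baby Verma module
-/

set_option autoImplicit false

open scoped BigOperators TensorProduct

namespace Pool.Agent.Y57.RCA

section

variable {V : Type} [AddCommGroup V] [Module ℂ V]
variable (W : Subgroup (V ≃ₗ[ℂ] V)) (c : Ref W → ℂ)
variable {U : Type} [AddCommGroup U] [Module ℂ U] (ρ : Representation ℂ W U)
variable {P : Type} [AddCommGroup P] [Module ℂ P] [Module (RRCA W c) P]
  [IsScalarTower ℂ (RRCA W c) P]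

/-- the map `H̄ ⊗ λ → P` -/
def preLift (ι : U →ₗ[ℂ] P) : RRCA W c ⊗[ℂ] U →ₗ[RRCA W c] P :=
  TensorProduct.AlgebraTensorModule.lift
    { toFun := fun h =>
        { toFun := fun u => h • ι u
          map_add' := fun u u' => by rw [map_add, smul_add]
          map_smul' := fun t u => by rw [map_smul, smul_comm, RingHom.id_apply] }
      map_add' := fun h h' => by
        ext u
        exact add_smul h h' (ι u)
      map_smul' := fun a h => by
        ext u
        exact mul_smul a h (ι u) }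

theorem preLift_tmul (ι : U →ₗ[ℂ] P) (h : RRCA W c) (u : U) :
    preLift W c ι (h ⊗ₜ[ℂ] u) = h • ι u := rfl

variable (ι : U →ₗ[ℂ] P) (hy : ∀ v u, gen W c (Gen.y v) • ι u = 0)
  (hg : ∀ w u, gen W c (Gen.g w) • ι u = ι (ρ w u))

include hy hg in
theorem babyRel_le : babyRel W c ρ ≤ LinearMap.ker (preLift W c ι) := by
  rw [babyRel, Submodule.span_le]
  rintro z (⟨h, v, u, rfl⟩ | ⟨h, w, u, rfl⟩)
  · show preLift W c ι _ = 0
    rw [preLift_tmul, mul_smul, hy, smul_zero]
  · show preLift W c ι _ = 0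
    rw [map_sub, preLift_tmul, preLift_tmul, mul_smul, hg, sub_self]

/-- the map `Δ(λ) → P` -/
def vLift : BabyVerma W c ρ →ₗ[RRCA W c] P :=
  (babyRel W c ρ).liftQ (preLift W c ι) (babyRel_le W c ρ ι hy hg)

theorem vLift_vm (h : RRCA W c) (u : U) : vLift W c ρ ι hy hg (vm W c ρ h u) = h • ι u := rfl

theorem vLift_io (u : U) : vLift W c ρ ι hy hg (io W c ρ u) = ι u := by
  show (1 : RRCA W c) • ι u = ι u
  rw [one_smul]

theorem vLift_smulC (t : ℂ) (d : BabyVerma W c ρ) :
    vLift W c ρ ι hy hg (t • d) = t • vLift W c ρ ι hy hg d := by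
  rw [← algebraMap_smul (RRCA W c) t d, map_smul, algebraMap_smul]

variable [Finite W] [FiniteDimensional ℂ V]
variable (κ : P →ₗ[ℂ] U) (hκι : ∀ u, κ (ι u) = u)
  (hκx : ∀ f p, κ (gen W c (Gen.x f) • p) = 0)

include hκι hκx in
omit [Finite W] [FiniteDimensional ℂ V] in
theorem ker_le_GG (d : BabyVerma W c ρ) (hd : vLift W c ρ ι hy hg d = 0) : d ∈ GG W c ρ 1 := by
  obtain ⟨u, e, he, rfl⟩ := io_sup_GG W c ρ d
  have h1 : ∀ e ∈ GG W c ρ 1, κ (vLift W c ρ ι hy hg e) = 0 := by
    intro e he
    induction he using Submodule.span_induction with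
    | mem z hz =>
      obtain ⟨l, d, hl, rfl⟩ := hz
      match l, hl with
      | [f], _ =>
        rw [List.map_singleton, List.prod_singleton, map_smul, hκx]
    | zero => rw [map_zero, map_zero]
    | add a b _ _ ha hb => rw [map_add, map_add, ha, hb, add_zero]
    | smul t a _ ha => rw [vLift_smulC, map_smul, ha, smul_zero]
  have h2 : κ (vLift W c ρ ι hy hg (io W c ρ u + e)) = u := by
    rw [map_add, map_add, h1 e he, vLift_io, hκι, add_zero]
  rw [hd, map_zero] at h2
  rw [← h2, map_zero, zero_add]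
  exact he

include hκι hκx in
/-- the kernel is the unique maximal submodule -/
theorem coatom_eq [IsSimpleModule (RRCA W c) P] [Nontrivial U] :
    Function.Surjective (vLift W c ρ ι hy hg) ∧
    ∀ N : Submodule (RRCA W c) (BabyVerma W c ρ), IsCoatom N →
      N = LinearMap.ker (vLift W c ρ ι hy hg) := by
  have hne : vLift W c ρ ι hy hg ≠ 0 := by
    intro h
    obtain ⟨u, hu⟩ := exists_ne (0 : U)
    apply hu
    rw [← hκι u, ← vLift_io W c ρ ι hy hg u, h, LinearMap.zero_apply, map_zero]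
  have hsurj : Function.Surjective (vLift W c ρ ι hy hg) := by
    have := LinearMap.surjective_or_eq_zero (vLift W c ρ ι hy hg)
    exact this.resolve_right hne
  refine ⟨hsurj, fun N hN => ?_⟩
  have hco : IsCoatom (LinearMap.ker (vLift W c ρ ι hy hg)) :=
    LinearMap.isCoatom_ker_of_surjective hsurj
  have hle : LinearMap.ker (vLift W c ρ ι hy hg) ≤ N := by
    by_contra hle
    have htop : N ⊔ LinearMap.ker (vLift W c ρ ι hy hg) = ⊤ := by
      refine hN.2 _ ?_
      refine lt_of_le_of_ne le_sup_left ?_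
      intro h
      exact hle (by rw [h]; exact le_sup_right)
    apply hN.1
    apply eq_top_of_sup W c ρ N
    rw [eq_top_iff]
    intro d _
    have hd : d ∈ N ⊔ LinearMap.ker (vLift W c ρ ι hy hg) := by rw [htop]; trivial
    obtain ⟨n, hn, k, hk, rfl⟩ := Submodule.mem_sup.1 hd
    exact Submodule.add_mem _ (Submodule.mem_sup_left hn)
      (Submodule.mem_sup_right (ker_le_GG W c ρ ι hy hg κ hκι hκx k hk))
  by_contra hne2
  exact hN.1 (hco.2 N (lt_of_le_of_ne hle (Ne.symm hne2)))

variable {P' : Type} [AddCommGroup P'] [Module ℂ P'] [Module (RRCA W c) P']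
  [IsScalarTower ℂ (RRCA W c) P']
variable (ι' : U →ₗ[ℂ] P') (hy' : ∀ v u, gen W c (Gen.y v) • ι' u = 0)
  (hg' : ∀ w u, gen W c (Gen.g w) • ι' u = ι' (ρ w u)) (hι' : ι' ≠ 0)

include hy hg hκι hκx hy' hg' hι' in
/-- uniqueness of the simple quotient -/
theorem exists_equiv [IsSimpleModule (RRCA W c) P] [IsSimpleModule (RRCA W c) P'] [Nontrivial U] :
    ∃ e : P' ≃ₗ[RRCA W c] P, ∀ u, e (ι' u) = ι u := by
  obtain ⟨hs, hj⟩ := coatom_eq W c ρ ι hy hg κ hκι hκx
  have hne : vLift W c ρ ι' hy' hg' ≠ 0 := by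
    intro h
    apply hι'
    ext u
    rw [← vLift_io W c ρ ι' hy' hg' u, h, LinearMap.zero_apply, LinearMap.zero_apply]
  have hs' : Function.Surjective (vLift W c ρ ι' hy' hg') := by
    have := LinearMap.surjective_or_eq_zero (vLift W c ρ ι' hy' hg')
    exact this.resolve_right hne
  have hk := hj _ (LinearMap.isCoatom_ker_of_surjective hs')
  let e1 := (vLift W c ρ ι' hy' hg').quotKerEquivOfSurjective hs'
  let e2 := (vLift W c ρ ι hy hg).quotKerEquivOfSurjective hs
  refine ⟨(e1.symm.trans (Submodule.quotEquivOfEq _ _ hk)).trans e2, fun u => ?_⟩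
  have h1 : e1.symm (ι' u) = Submodule.Quotient.mk (io W c ρ u) := by
    rw [LinearEquiv.symm_apply_eq]
    exact (vLift_io W c ρ ι' hy' hg' u).symm
  rw [LinearEquiv.trans_apply, LinearEquiv.trans_apply, h1]
  exact vLift_io W c ρ ι hy hg u

/-- the homogeneous components of a quotient of the baby Verma module -/
def partX (i : ℤ) : Submodule ℂ P :=
  Submodule.span ℂ {z | ∃ (l : List (Module.Dual ℂ V)) (u : U), (l.length : ℤ) = i ∧
    z = (l.map (xH W c)).prod • ι u}

include hy hg hκι hκx hy' hg' hι' in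
theorem partX_unique [IsSimpleModule (RRCA W c) P] [IsSimpleModule (RRCA W c) P'] [Nontrivial U]
    (i : ℤ) : Module.finrank ℂ (partX W c ι' i) = Module.finrank ℂ (partX W c ι i) := by
  obtain ⟨e, he⟩ := exists_equiv W c ρ ι hy hg κ hκι hκx ι' hy' hg' hι'
  let e' : P' ≃ₗ[ℂ] P :=
    { e with
      map_smul' := fun t d => by
        show e (t • d) = t • e d
        rw [← algebraMap_smul (RRCA W c) t d, map_smul, algebraMap_smul] }
  have h1 : (partX W c ι' i).map (e' : P' →ₗ[ℂ] P) = partX W c ι i := by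
    rw [partX, Submodule.map_span, partX]
    congr 1
    ext z
    constructor
    · rintro ⟨_, ⟨l, u, hl, rfl⟩, rfl⟩
      refine ⟨l, u, hl, ?_⟩
      show e _ = _
      rw [map_smul, he]
    · rintro ⟨l, u, hl, rfl⟩
      refine ⟨_, ⟨l, u, hl, rfl⟩, ?_⟩
      show e _ = _
      rw [map_smul, he]
  rw [← h1]
  exact (e'.submoduleMap (partX W c ι' i)).finrank_eq

end

end Pool.Agent.Y57.RCA
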