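import Pool.Agent.Y57.RCA.Act
import Pool.Agent.Y57.RCA.Quot

/-!
# The module over the restricted rational Cherednik algebra
-/

set_option autoImplicit false

open scoped BigOperators

namespace Pool.Agent.Y57.RCA

/-- coordinates of a linear form -/
def cx (f : Module.Dual ℂ E4) : Fin 4 → ℂ := fun i => f (Pi.single i 1)

theorem cx_add (f f' : Module.Dual ℂ E4) : cx (f + f') = cx f + cx f' := rfl

theorem cx_smul (t : ℂ) (f : Module.Dual ℂ E4) : cx (t • f) = t • cx f := rfl

theorem dual_apply (f : Module.Dual ℂ E4) (v : E4) : f v = ∑ i, v i * cx f i := by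
  conv_lhs => rw [← Finset.univ_sum_single v, map_sum]
  refine Finset.sum_congr rfl fun i _ => ?_
  have : (Pi.single i (v i) : E4) = v i • (Pi.single i 1 : E4) := by
    rw [← Pi.single_smul, smul_eq_mul, mul_one]
  rw [this, map_smul, smul_eq_mul]
  rfl

theorem cx_act (m : M) (f : Module.Dual ℂ E4) : cx (act (M.toGL m) f) = cf 1 m (cx f) := by
  funext i
  show f ((M.toGL m)⁻¹ (Pi.single i 1)) = zz (-(1 * m.t i)) * f (Pi.single (m.s⁻¹ i) 1)
  rw [← map_inv, M.toGL_single, M.inv_t, M.inv_s, invp, one_mul]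
  have : (Pi.single (m.s⁻¹ i) (zz (-m.t i)) : E4) = zz (-m.t i) • (Pi.single (m.s⁻¹ i) 1 : E4) := by
    rw [← Pi.single_smul, smul_eq_mul, mul_one]
  rw [this, map_smul, smul_eq_mul]

theorem cf_v (m : M) (v : E4) : M.toGL m v = cf (-1) m v := by
  funext i
  rw [M.toGL_apply]
  unfold cf
  rw [neg_one_mul, neg_neg]

theorem lc_add (K : Fin 8 → Fin 4 → Fm) (a b : Fin 4 → ℂ) : lc K (a + b) = lc K a + lc K b := by
  unfold lc
  rw [← Finset.sum_add_distrib]
  exact Finset.sum_congr rfl fun i _ => by rw [Pi.add_apply, add_smul]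

theorem lc_smul (K : Fin 8 → Fin 4 → Fm) (t : ℂ) (a : Fin 4 → ℂ) : lc K (t • a) = t • lc K a := by
  unfold lc
  rw [Finset.smul_sum]
  exact Finset.sum_congr rfl fun i _ => by rw [Pi.smul_apply, smul_smul, smul_eq_mul]

theorem lc_sym {K : Fin 8 → Fin 4 → Fm}
    (hK : ∀ r : Fin 8, ∀ a : Fin 4, Nul (app K a [(1, r, tau r)] ++ neg (app K a [(chi r, r, 1)])))
    (a : Fin 4 → ℂ) : ∀ f ∈ Vs, lc K a f ∈ Vs := by
  intro f hf
  rw [lc_apply]
  exact Vs.sum_mem fun i _ => Vs.smul_mem _ (op_sym hK i hf)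

/-- `x` acting on the module -/
noncomputable def XV (a : Fin 4 → ℂ) : Module.End ℂ Vs := (lc KX a).restrict (lc_sym inv_X a)
/-- `y` acting on the module -/
noncomputable def YV (a : Fin 4 → ℂ) : Module.End ℂ Vs := (lc KY a).restrict (lc_sym inv_Y a)
/-- group elements acting on the module -/
noncomputable def PV (m : M) : Module.End ℂ Vs := (PF m).restrict fun _ hf => PF_sym m hf

theorem XV_coe (a : Fin 4 → ℂ) (u : Vs) : ((XV a u : Vs) : I → ℂ) = lc KX a u := rfl
theorem YV_coe (a : Fin 4 → ℂ) (u : Vs) : ((YV a u : Vs) : I → ℂ) = lc KY a u := rfl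
theorem PV_coe (m : M) (u : Vs) : ((PV m u : Vs) : I → ℂ) = PF m u := rfl

theorem XV_add (a b : Fin 4 → ℂ) : XV (a + b) = XV a + XV b := by
  refine LinearMap.ext fun u => Subtype.ext ?_
  rw [XV_coe, lc_add]
  rfl

theorem XV_smul (t : ℂ) (a : Fin 4 → ℂ) : XV (t • a) = t • XV a := by
  refine LinearMap.ext fun u => Subtype.ext ?_
  rw [XV_coe, lc_smul]
  rfl

theorem YV_add (a b : Fin 4 → ℂ) : YV (a + b) = YV a + YV b := by
  refine LinearMap.ext fun u => Subtype.ext ?_
  rw [YV_coe, lc_add]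
  rfl

theorem YV_smul (t : ℂ) (a : Fin 4 → ℂ) : YV (t • a) = t • YV a := by
  refine LinearMap.ext fun u => Subtype.ext ?_
  rw [YV_coe, lc_smul]
  rfl

theorem PV_one : PV 1 = 1 := by
  refine LinearMap.ext fun u => Subtype.ext ?_
  rw [PV_coe, map_one]
  rfl

theorem PV_mul (m n : M) : PV (m * n) = PV m * PV n := by
  refine LinearMap.ext fun u => Subtype.ext ?_
  rw [PV_coe, map_mul]
  rfl

theorem PV_XV (m : M) (a : Fin 4 → ℂ) : PV m * XV a = XV (cf 1 m a) * PV m := by
  refine LinearMap.ext fun u => Subtype.ext ?_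
  exact PF_lc shift_X m a u

theorem PV_YV (m : M) (a : Fin 4 → ℂ) : PV m * YV a = YV (cf (-1) m a) * PV m := by
  refine LinearMap.ext fun u => Subtype.ext ?_
  exact PF_lc shift_Y m a u

theorem lc_comm {K : Fin 8 → Fin 4 → Fm}
    (hK : ∀ r : Fin 8, ∀ a b : Fin 4, Nul (app K b (K r a) ++ neg (app K a (K r b))))
    (a b : Fin 4 → ℂ) {f : I → ℂ} (hf : Sym f) : lc K a (lc K b f) = lc K b (lc K a f) := by
  simp only [lc_apply, map_sum, map_smul, Finset.smul_sum]
  rw [Finset.sum_comm]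
  refine Finset.sum_congr rfl fun i _ => Finset.sum_congr rfl fun j _ => ?_
  rw [op_comm hK j i hf, smul_comm]

theorem XV_comm (a b : Fin 4 → ℂ) : XV a * XV b = XV b * XV a := by
  refine LinearMap.ext fun u => Subtype.ext ?_
  exact lc_comm comm_X a b u.2

theorem YV_comm (a b : Fin 4 → ℂ) : YV a * YV b = YV b * YV a := by
  refine LinearMap.ext fun u => Subtype.ext ?_
  exact lc_comm comm_Y a b u.2

theorem XV_prod (l : List (Fin 4 → ℂ)) (u : Vs) :
    (((l.map XV).prod u : Vs) : I → ℂ) = (l.map (lc KX)).prod u := by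
  induction l generalizing u with
  | nil => rfl
  | cons a l ih =>
    rw [List.map_cons, List.prod_cons, List.map_cons, List.prod_cons, Module.End.mul_apply,
      Module.End.mul_apply, ← ih]
    rfl

theorem YV_prod (l : List (Fin 4 → ℂ)) (u : Vs) :
    (((l.map YV).prod u : Vs) : I → ℂ) = (l.map (lc KY)).prod u := by
  induction l generalizing u with
  | nil => rfl
  | cons a l ih =>
    rw [List.map_cons, List.prod_cons, List.map_cons, List.prod_cons, Module.End.mul_apply,
      Module.End.mul_apply, ← ih]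
    rfl

theorem half_pow (n : ℕ) (hn : n ≠ 0) : (1 / 2 : ℂ) ^ n ≠ 1 := by
  intro h
  have h1 : ‖(1 / 2 : ℂ) ^ n‖ = 1 := by rw [h]; simp
  rw [norm_pow] at h1
  have h2 : ‖(1 / 2 : ℂ)‖ < 1 := by norm_num
  exact absurd h1 (pow_lt_one₀ (norm_nonneg _) h2 hn).ne

theorem two_pow (n : ℕ) (hn : n ≠ 0) : (2 : ℂ) ^ n ≠ 1 := by
  intro h
  apply half_pow n hn
  rw [one_div, inv_pow, h, inv_one]

theorem XV_average (l : List (Fin 4 → ℂ)) (hl : l ≠ []) :
    ∑ m : M, (l.map fun a => XV (cf 1 m a)).prod = 0 := by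
  refine LinearMap.ext fun u => Subtype.ext ?_
  have h1 := average_zero shift_X scale_X half_pow l hl
  have h2 := LinearMap.congr_fun h1 (u : I → ℂ)
  rw [LinearMap.sum_apply] at h2 ⊢
  rw [Submodule.coe_sum]
  refine Eq.trans (Finset.sum_congr rfl fun m _ => ?_) h2
  have h3 := XV_prod (l.map (cf 1 m)) u
  rw [List.map_map, List.map_map] at h3
  exact h3

theorem YV_average (l : List (Fin 4 → ℂ)) (hl : l ≠ []) :
    ∑ m : M, (l.map fun a => YV (cf (-1) m a)).prod = 0 := by
  refine LinearMap.ext fun u => Subtype.ext ?_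
  have h1 := average_zero shift_Y scale_Y two_pow l hl
  have h2 := LinearMap.congr_fun h1 (u : I → ℂ)
  rw [LinearMap.sum_apply] at h2 ⊢
  rw [Submodule.coe_sum]
  refine Eq.trans (Finset.sum_congr rfl fun m _ => ?_) h2
  have h3 := YV_prod (l.map (cf (-1) m)) u
  rw [List.map_map, List.map_map] at h3
  exact h3

/-! ### the commutation relation -/

theorem wtt_rf (p q : Fin 4) (k : ZMod 5) (r : Fin 8) (π : S) :
    wtt (rf p q k).t r π = k * (lt r π q - lt r π p) := wtt_dd p q k r π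

theorem dual_sub {p q : Fin 4} (h : p ≠ q) (a : ZMod 5) (f : Module.Dual ℂ E4) (v : E4) :
    (f - act (M.toGL (rf p q a)) f) v =
      (cx f p - zz a * cx f q) * v p + (cx f q - zz (-a) * cx f p) * v q := by
  rw [LinearMap.sub_apply, dual_apply, dual_apply, ← Finset.sum_sub_distrib, cx_act]
  rw [Finset.sum_eq_add p q h]
  · unfold cf
    rw [rf_t_p h, rf_t_q h, rf_s, Equiv.swap_inv, Equiv.swap_apply_left, Equiv.swap_apply_right,
      one_mul, one_mul, neg_neg]
    ring
  · intro i _ hi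
    unfold cf
    rw [rf_t_ne hi.1 hi.2, rf_s, Equiv.swap_inv, Equiv.swap_apply_of_ne_of_ne hi.1 hi.2, mul_zero,
      neg_zero, zz_zero, one_mul, sub_self]
  · intro h; exact absurd (Finset.mem_univ _) h
  · intro h; exact absurd (Finset.mem_univ _) h

/-- coefficient functions -/
noncomputable def BB (u : I → ℂ) (r : Fin 8) (π : S) (d : ZMod 5) (p q : Fin 4) : ℂ :=
  if lt r π q - lt r π p = d then u (r, Equiv.swap p q * π) else 0

theorem BB_symm (u : I → ℂ) (r : Fin 8) (π : S) (p q : Fin 4) :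
    BB u r π 0 q p = BB u r π 0 p q := by
  unfold BB
  rw [Equiv.swap_comm q p]
  have : (lt r π p - lt r π q = 0) ↔ (lt r π q - lt r π p = 0) := by
    rw [sub_eq_zero, sub_eq_zero, eq_comm]
  simp only [this]

theorem pair_sum {p q : Fin 4} (h : p ≠ q) (c0 : ℂ) (f : Module.Dual ℂ E4) (v : E4) (u : I → ℂ)
    (r : Fin 8) (π : S) :
    ∑ a : ZMod 5, (c0 * (f - act (M.toGL (rf p q a)) f) v) * PF (rf p q a) u (r, π) =
      5 * c0 * ((cx f p * v p + cx f q * v q) * BB u r π 0 p q
        - cx f q * v p * BB u r π 1 q p - cx f p * v q * BB u r π 1 p q) := by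
  have h1 : ∀ a : ZMod 5, (c0 * (f - act (M.toGL (rf p q a)) f) v) * PF (rf p q a) u (r, π) =
      c0 * u (r, Equiv.swap p q * π) * ((cx f p * v p + cx f q * v q) *
        zz (a * (lt r π q - lt r π p)) - cx f q * v p * zz (a * (lt r π q - lt r π p + 1)) -
        cx f p * v q * zz (a * (lt r π q - lt r π p - 1))) := by
    intro a
    rw [dual_sub h, PF_apply, wtt_rf, rf_s, Equiv.swap_inv]
    have e1 : zz (a * (lt r π q - lt r π p + 1)) = zz (a * (lt r π q - lt r π p)) * zz a := by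
      rw [← zz_add]; congr 1; ring
    have e2 : zz (a * (lt r π q - lt r π p - 1)) = zz (a * (lt r π q - lt r π p)) * zz (-a) := by
      rw [← zz_add]; congr 1; ring
    rw [e1, e2]
    ring
  rw [Finset.sum_congr rfl fun a _ => h1 a, ← Finset.mul_sum, Finset.sum_sub_distrib,
    Finset.sum_sub_distrib, ← Finset.mul_sum, ← Finset.mul_sum, ← Finset.mul_sum, zz_sum, zz_sum,
    zz_sum]
  unfold BB
  have e1 : (lt r π q - lt r π p + 1 = 0) ↔ (lt r π p - lt r π q = 1) := by
    constructor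
    · intro h; linear_combination -h
    · intro h; linear_combination -h
  have e2 : (lt r π q - lt r π p - 1 = 0) ↔ (lt r π q - lt r π p = 1) := sub_eq_zero
  simp only [e1, e2, Equiv.swap_comm q p]
  split_ifs <;> ring

theorem comm_value (v a : Fin 4 → ℂ) {u : I → ℂ} (hu : Sym u) (r : Fin 8) (π : S) :
    lc KY v (lc KX a u) (r, π) - lc KX a (lc KY v u) (r, π) =
      ∑ j, ∑ i, v j * a i *
        (if j = i then ∑ c : Fin 4, (if c ≠ i then - BB u r π 0 i c else 0)
          else BB u r π 1 i j) := by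
  have h1 : lc KY v (lc KX a u) (r, π) =
      ∑ j, ∑ i, v j * a i * op KY j (op KX i u) (r, π) := by
    simp only [lc_apply, map_sum, map_smul, Finset.sum_apply, Pi.smul_apply, smul_eq_mul,
      Finset.mul_sum]
    rw [Finset.sum_comm]
    exact Finset.sum_congr rfl fun j _ => Finset.sum_congr rfl fun i _ => by ring
  have h2 : lc KX a (lc KY v u) (r, π) =
      ∑ j, ∑ i, v j * a i * op KX i (op KY j u) (r, π) := by
    simp only [lc_apply, map_sum, map_smul, Finset.sum_apply, Pi.smul_apply, smul_eq_mul,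
      Finset.mul_sum]
    exact Finset.sum_congr rfl fun j _ => Finset.sum_congr rfl fun i _ => by ring
  rw [h1, h2, ← Finset.sum_sub_distrib]
  refine Finset.sum_congr rfl fun j _ => ?_
  rw [← Finset.sum_sub_distrib]
  refine Finset.sum_congr rfl fun i _ => ?_
  rw [← mul_sub]
  congr 1
  by_cases hij : j = i
  · subst hij
    rw [if_pos rfl, op_yx_eq j hu]
    refine Finset.sum_congr rfl fun c _ => ?_
    unfold BB
    simp only [sub_eq_zero]
    by_cases h3 : c ≠ j <;> by_cases h4 : lt r π c = lt r π j <;> simp [h3, h4]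
  · rw [if_neg hij, op_yx_ne hij hu]
    unfold BB
    rw [Equiv.swap_comm j i]

theorem comm_rel (c0 : ℂ) (f : Module.Dual ℂ E4) (v : E4) (u : Vs) (r : Fin 8) (π : S) :
    (5 * c0) * (lc KY v (lc KX (cx f) u) (r, π) - lc KX (cx f) (lc KY v u) (r, π)) =
      - ∑ k : Fin 6, ∑ a : ZMod 5,
        (c0 * (f - act (M.toGL (rf (prs k).1 (prs k).2 a)) f) v) *
          PF (rf (prs k).1 (prs k).2 a) u (r, π) := by
  rw [comm_value v (cx f) u.2, Finset.sum_congr rfl fun k _ => pair_sum (prs_ne k) c0 f v u r π]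
  simp only [Fin.sum_univ_four, Fin.sum_univ_six, prs]
  have s1 := BB_symm u r π 0 1
  have s2 := BB_symm u r π 0 2
  have s3 := BB_symm u r π 0 3
  have s4 := BB_symm u r π 1 2
  have s5 := BB_symm u r π 1 3
  have s6 := BB_symm u r π 2 3
  simp
  rw [s1, s2, s3, s4, s5, s6]
  ring

end Pool.Agent.Y57.RCA
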