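import Pool.Agent.Y57.RCA.Defs

/-!
# Products of many `x`'s vanish in the restricted rational Cherednik algebra
-/

set_option autoImplicit false

open scoped BigOperators TensorProduct

namespace Pool.Agent.Y57.RCA

section

variable {V : Type} [AddCommGroup V] [Module ℂ V]
variable (W : Subgroup (V ≃ₗ[ℂ] V)) (c : Ref W → ℂ)

abbrev xH (f : Module.Dual ℂ V) : RRCA W c := gen W c (Gen.x f)
abbrev yH (v : V) : RRCA W c := gen W c (Gen.y v)
abbrev gH (w : W) : RRCA W c := gen W c (Gen.g w)

theorem mk_rel {a b : Fr W} (h : Rel W c a b) : mkH W c a = mkH W c b :=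
  RingQuot.mkAlgHom_rel ℂ h

theorem mkH_surjective : Function.Surjective (mkH W c) :=
  RingQuot.mkAlgHom_surjective ℂ (Rel W c)

theorem xH_add (f f' : Module.Dual ℂ V) : xH W c (f + f') = xH W c f + xH W c f' := by
  have := mk_rel W c (Rel.x_add f f')
  rw [map_add] at this
  exact this

theorem xH_smul (t : ℂ) (f : Module.Dual ℂ V) : xH W c (t • f) = t • xH W c f := by
  have := mk_rel W c (Rel.x_smul t f)
  rw [map_smul] at this
  exact this

theorem yH_add (f f' : V) : yH W c (f + f') = yH W c f + yH W c f' := by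
  have := mk_rel W c (Rel.y_add f f')
  rw [map_add] at this
  exact this

theorem yH_smul (t : ℂ) (f : V) : yH W c (t • f) = t • yH W c f := by
  have := mk_rel W c (Rel.y_smul t f)
  rw [map_smul] at this
  exact this

theorem gH_one : gH W c 1 = 1 := by
  have := mk_rel W c Rel.g_one
  rw [map_one] at this
  exact this

theorem gH_mul (w w' : W) : gH W c (w * w') = gH W c w * gH W c w' := by
  have := mk_rel W c (Rel.g_mul w w')
  rw [map_mul] at this
  exact this

theorem gH_x (w : W) (f : Module.Dual ℂ V) :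
    gH W c w * xH W c f = xH W c (act w f) * gH W c w := by
  have := mk_rel W c (Rel.g_x w f)
  rw [map_mul, map_mul] at this
  exact this

theorem gH_y (w : W) (v : V) :
    gH W c w * yH W c v = yH W c ((w : V ≃ₗ[ℂ] V) v) * gH W c w := by
  have := mk_rel W c (Rel.g_y w v)
  rw [map_mul, map_mul] at this
  exact this

theorem xH_comm (f f' : Module.Dual ℂ V) : xH W c f * xH W c f' = xH W c f' * xH W c f := by
  have := mk_rel W c (Rel.x_x f f')
  rw [map_mul, map_mul] at this
  exact this

/-- `x` as a linear map -/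
def xL : Module.Dual ℂ V →ₗ[ℂ] RRCA W c where
  toFun := xH W c
  map_add' := xH_add W c
  map_smul' := xH_smul W c

theorem mkH_prod_X (l : List (Module.Dual ℂ V)) (u : W) :
    mkH W c (l.map fun f => X W (act u f)).prod = (l.map fun f => xH W c (act u f)).prod := by
  rw [map_list_prod, List.map_map]
  rfl

theorem inv_xH [Fintype W] (l : List (Module.Dual ℂ V)) (hl : l ≠ []) :
    ∑ w : W, (l.map fun f => xH W c (act w f)).prod = 0 := by
  have := mk_rel W c (Rel.inv_x l hl)
  rw [finsum_eq_sum_of_fintype, map_sum, map_zero] at this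
  rw [← this]
  exact Finset.sum_congr rfl fun u _ => (mkH_prod_X W c l u).symm

/-- the subalgebra generated by the `x`'s, abstractly as a commutative ring -/
theorem exists_comm : ∃ (C : Type) (_ : CommRing C) (_ : Algebra ℂ C) (j : C →ₐ[ℂ] RRCA W c)
    (x : Module.Dual ℂ V → C), Function.Injective j ∧ ∀ f, j (x f) = xH W c f := by
  let s : Set (RRCA W c) := Set.range (xH W c)
  have hs : ∀ a ∈ s, ∀ b ∈ s, a * b = b * a := by
    rintro _ ⟨f, rfl⟩ _ ⟨f', rfl⟩
    exact xH_comm W c f f'
  have hc := Algebra.isMulCommutative_adjoin ℂ hs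
  let : CommRing (Algebra.adjoin ℂ s) :=
    { (Algebra.adjoin ℂ s).toRing with mul_comm := fun a b => hc.is_comm.comm a b }
  exact ⟨Algebra.adjoin ℂ s, inferInstance, (Algebra.adjoin ℂ s).algebra,
    (Algebra.adjoin ℂ s).val, fun f => ⟨xH W c f, Algebra.subset_adjoin ⟨f, rfl⟩⟩,
    Subtype.val_injective, fun f => rfl⟩

theorem act_one (f : Module.Dual ℂ V) : act (1 : V ≃ₗ[ℂ] V) f = f := by
  ext v
  simp [act]

theorem act_mul (w w' : V ≃ₗ[ℂ] V) (f : Module.Dual ℂ V) : act (w * w') f = act w (act w' f) := by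
  ext v
  simp [act, mul_inv_rev]

/-- each `x` is nilpotent -/
theorem nilp [Finite W] {C : Type} [CommRing C] [Algebra ℂ C] (j : C →ₐ[ℂ] RRCA W c)
    (x : Module.Dual ℂ V → C) (hj : Function.Injective j) (hx : ∀ f, j (x f) = xH W c f)
    (f : Module.Dual ℂ V) : IsNilpotent (x f) := by
  classical
  have : Fintype W := Fintype.ofFinite W
  have hinv : ∀ l : List (Module.Dual ℂ V), l ≠ [] →
      ∑ w : W, (l.map fun f => x (act w f)).prod = 0 := by
    intro l hl
    apply hj
    rw [map_sum, map_zero, ← inv_xH W c l hl]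
    refine Finset.sum_congr rfl fun u _ => ?_
    rw [map_list_prod, List.map_map]
    congr 1
    refine List.map_congr_left fun f _ => ?_
    simp [hx]
  have h0 : ∑ g : W, ∏ w : W, (x f + - x (act ((g * w : W) : V ≃ₗ[ℂ] V) f)) = 0 := by
    refine Finset.sum_eq_zero fun g _ => ?_
    refine Finset.prod_eq_zero (Finset.mem_univ g⁻¹) ?_
    rw [mul_inv_cancel, Subgroup.coe_one, act_one, add_neg_cancel]
  simp_rw [Fintype.prod_add] at h0
  rw [Finset.sum_comm] at h0
  simp_rw [← Finset.mul_sum] at h0
  rw [Finset.sum_eq_single Finset.univ] at h0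
  · simp only [Finset.prod_const, Finset.card_univ, Finset.compl_univ, Finset.prod_empty,
      Finset.sum_const, nsmul_eq_mul, mul_one] at h0
    refine ⟨Fintype.card W, ?_⟩
    have h1 : (algebraMap ℂ C ((Fintype.card W : ℂ))⁻¹) * (x f ^ Fintype.card W * (Fintype.card W : C)) = 0 := by
      rw [h0, mul_zero]
    have h2 : (algebraMap ℂ C ((Fintype.card W : ℂ))⁻¹) * (Fintype.card W : C) = 1 := by
      rw [← map_natCast (algebraMap ℂ C), ← map_mul, inv_mul_cancel₀, map_one]
      exact Nat.cast_ne_zero.2 Fintype.card_ne_zero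
    calc x f ^ Fintype.card W = x f ^ Fintype.card W * 1 := by rw [mul_one]
      _ = (algebraMap ℂ C ((Fintype.card W : ℂ))⁻¹) * (x f ^ Fintype.card W * (Fintype.card W : C)) := by
        rw [← h2]; ring
      _ = 0 := h1
  · intro t _ ht
    have ht' : tᶜ ≠ ∅ := by
      intro h
      exact ht ((Finset.compl_eq_empty_iff t).1 h)
    have : ∑ g : W, ∏ w ∈ tᶜ, (- x (act ((g * w : W) : V ≃ₗ[ℂ] V) f)) = 0 := by
      have h3 := hinv ((tᶜ).toList.map fun w : W => act w f) (by
        intro h
        exact ht' (Finset.toList_eq_nil.1 (List.map_eq_nil_iff.1 h)))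
      have h4 : ∀ g : W, ∏ w ∈ tᶜ, (- x (act ((g * w : W) : V ≃ₗ[ℂ] V) f)) =
          (-1) ^ (tᶜ).card *
            (((tᶜ).toList.map fun w : W => act w f).map fun f => x (act g f)).prod := by
        intro g
        rw [Finset.prod_neg, List.map_map, Finset.prod_map_toList]
        congr 1
      simp_rw [h4]
      rw [← Finset.mul_sum, h3, mul_zero]
    rw [this, mul_zero]
  · intro h
    exact absurd (Finset.mem_univ _) h

/-- all products of sufficiently many `x`'s vanish -/
theorem exists_nil [Finite W] [FiniteDimensional ℂ V] :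
    ∃ K : ℕ, ∀ l : List (Module.Dual ℂ V), l.length = K → (l.map (xH W c)).prod = 0 := by
  classical
  obtain ⟨C, _, _, j, x, hj, hx⟩ := exists_comm W c
  have hadd : ∀ f f', x (f + f') = x f + x f' := by
    intro f f'
    apply hj
    rw [map_add, hx, hx, hx, xH_add]
  have hsmul : ∀ (t : ℂ) f, x (t • f) = t • x f := by
    intro t f
    apply hj
    rw [map_smul, hx, hx, xH_smul]
  let xl : Module.Dual ℂ V →ₗ[ℂ] C := ⟨⟨x, hadd⟩, hsmul⟩
  let b := Module.finBasis ℂ (Module.Dual ℂ V)
  let J : Ideal C := Ideal.span (Set.range fun i => x (b i))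
  have hfg : J.FG := ⟨Finset.univ.image fun i => x (b i), by simp [J]⟩
  have hle : J ≤ nilradical C := by
    rw [Ideal.span_le]
    rintro _ ⟨i, rfl⟩
    exact nilp W c j x hj hx (b i)
  obtain ⟨K, hK⟩ := hfg.isNilpotent_iff_le_nilradical.2 hle
  have hmem : ∀ f, x f ∈ J := by
    intro f
    have h1 : xl f = ∑ i, b.repr f i • x (b i) := by
      conv_lhs => rw [← b.sum_repr f, map_sum]
      refine Finset.sum_congr rfl fun i _ => ?_
      rw [map_smul]
      rfl
    have h2 : x f = ∑ i, b.repr f i • x (b i) := h1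
    rw [h2]
    refine Ideal.sum_mem _ fun i _ => ?_
    rw [Algebra.smul_def]
    exact Ideal.mul_mem_left _ _ (Ideal.subset_span ⟨i, rfl⟩)
  have hprod : ∀ l : List (Module.Dual ℂ V), (l.map x).prod ∈ J ^ l.length := by
    intro l
    induction l with
    | nil => simp
    | cons a l ih =>
      rw [List.map_cons, List.prod_cons, List.length_cons, pow_succ']
      exact Ideal.mul_mem_mul (hmem a) ih
  refine ⟨K, fun l hl => ?_⟩
  have h1 := hprod l
  rw [hl, hK] at h1
  have h2 : (l.map x).prod = 0 := by simpa using h1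
  have h3 : j (l.map x).prod = (l.map (xH W c)).prod := by
    rw [map_list_prod, List.map_map]
    congr 1
    refine List.map_congr_left fun f _ => ?_
    simp [hx]
  rw [← h3, h2, map_zero]

end

end Pool.Agent.Y57.RCA
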