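import Pool.Agent.Y57.RCA.Refl

/-!
# Operators on functions on `Fin 8 × Perm (Fin 4)`
-/

set_option autoImplicit false

open scoped BigOperators

namespace Pool.Agent.Y57.RCA

section

variable {A : Type} [CommRing A]

/-- evaluation of a formal functional -/
def ev (L : Fm) (π : S) (f : I → A) : A :=
  (L.map fun e => (e.1 : A) * f (e.2.1, π * e.2.2)).sum

theorem ev_nil (π : S) (f : I → A) : ev [] π f = 0 := rfl

theorem ev_cons (e : ℤ × Fin 8 × S) (L : Fm) (π : S) (f : I → A) :
    ev (e :: L) π f = (e.1 : A) * f (e.2.1, π * e.2.2) + ev L π f := by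
  simp [ev]

theorem ev_append (L L' : Fm) (π : S) (f : I → A) : ev (L ++ L') π f = ev L π f + ev L' π f := by
  simp [ev]

theorem ev_neg (L : Fm) (π : S) (f : I → A) : ev (neg L) π f = - ev L π f := by
  induction L with
  | nil => simp [neg, ev]
  | cons e L ih =>
    have : neg (e :: L) = (-e.1, e.2) :: neg L := rfl
    rw [this, ev_cons, ev_cons, ih]
    push_cast
    ring

theorem ev_add (L : Fm) (π : S) (f f' : I → A) : ev L π (f + f') = ev L π f + ev L π f' := by
  induction L with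
  | nil => simp [ev]
  | cons e L ih =>
    rw [ev_cons, ev_cons, ev_cons, ih, Pi.add_apply]
    ring

theorem ev_smul (L : Fm) (π : S) (t : A) (f : I → A) : ev L π (t • f) = t * ev L π f := by
  induction L with
  | nil => simp [ev]
  | cons e L ih =>
    rw [ev_cons, ev_cons, ih, Pi.smul_apply, smul_eq_mul]
    ring

/-- the operator given by a table -/
def op (K : Fin 8 → Fin 4 → Fm) (i : Fin 4) : (I → A) →ₗ[A] (I → A) where
  toFun f x := ev (K x.1 (x.2⁻¹ i)) x.2 f
  map_add' _ _ := funext fun _ => ev_add _ _ _ _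
  map_smul' _ _ := funext fun _ => ev_smul _ _ _ _

theorem op_apply (K : Fin 8 → Fin 4 → Fm) (i : Fin 4) (f : I → A) (r : Fin 8) (π : S) :
    op K i f (r, π) = ev (K r (π⁻¹ i)) π f := rfl

theorem ev_op_map (K : Fin 8 → Fin 4 → Fm) (i : Fin 4) (f : I → A) (e : ℤ × Fin 8 × S) (π : S) :
    ev ((K e.2.1 (e.2.2⁻¹ (π⁻¹ i))).map fun e' => (e.1 * e'.1, e'.2.1, e.2.2 * e'.2.2)) π f =
      (e.1 : A) * op K i f (e.2.1, π * e.2.2) := by
  rw [op_apply, mul_inv_rev, Equiv.Perm.mul_apply]
  generalize K e.2.1 (e.2.2⁻¹ (π⁻¹ i)) = L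
  induction L with
  | nil => simp [ev]
  | cons e' L ih =>
    rw [List.map_cons, ev_cons, ev_cons, ih, mul_assoc π]
    push_cast
    ring

/-- composition of formal functionals and operators -/
theorem ev_op (K : Fin 8 → Fin 4 → Fm) (i : Fin 4) (f : I → A) (L : Fm) (π : S) :
    ev L π (op K i f) = ev (app K (π⁻¹ i) L) π f := by
  induction L with
  | nil => rfl
  | cons e L ih =>
    have : app K (π⁻¹ i) (e :: L) =
      ((K e.2.1 (e.2.2⁻¹ (π⁻¹ i))).map fun e' => (e.1 * e'.1, e'.2.1, e.2.2 * e'.2.2)) ++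
        app K (π⁻¹ i) L := rfl
    rw [this, ev_append, ev_cons, ih, ev_op_map]

theorem op_op (K K' : Fin 8 → Fin 4 → Fm) (i j : Fin 4) (f : I → A) (r : Fin 8) (π : S) :
    op K i (op K' j f) (r, π) = ev (app K' (π⁻¹ j) (K r (π⁻¹ i))) π f := by
  rw [op_apply, ev_op]

end

theorem tau_tau : ∀ r, tau r * tau r = 1 := by decide +kernel

theorem chi_chi : ∀ r, chi r * chi r = 1 := by decide

theorem wt_tau : ∀ r ρ, wt r (tau r ρ) = wt r ρ := by decide +kernel

/-- symmetric functions -/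
def Sym (f : I → ℂ) : Prop := ∀ r π, f (r, π * tau r) = (chi r : ℂ) * f (r, π)

theorem symCoef_cons (e : ℤ × Fin 8 × S) (L : Fm) (r : Fin 8) (g : S) :
    symCoef (e :: L) r g = ((if e.2.1 = r ∧ e.2.2 = g then e.1 else 0) +
      (if e.2.1 = r ∧ e.2.2 = g * tau r then chi r * e.1 else 0)) + symCoef L r g := by
  simp [symCoef]

theorem two_ev (L : Fm) (π : S) (f : I → ℂ) (hf : Sym f) :
    2 * ev L π f = ∑ x : Fin 8 × S, (symCoef L x.1 x.2 : ℂ) * f (x.1, π * x.2) := by
  induction L with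
  | nil => simp [ev, symCoef]
  | cons e L ih =>
    rw [ev_cons, mul_add, ih]
    simp only [symCoef_cons]
    push_cast
    simp only [add_mul, Finset.sum_add_distrib]
    congr 1
    rw [Finset.sum_eq_single e.2, Finset.sum_eq_single (e.2.1, e.2.2 * tau e.2.1)]
    · rw [if_pos ⟨rfl, rfl⟩, if_pos ⟨rfl, by
        show e.2.2 = e.2.2 * tau e.2.1 * tau e.2.1
        rw [mul_assoc, tau_tau, mul_one]⟩]
      show _ = _ + (chi e.2.1 * e.1 : ℂ) * f (e.2.1, π * (e.2.2 * tau e.2.1))
      rw [← mul_assoc π, hf]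
      have h1 : (chi e.2.1 : ℂ) * (chi e.2.1 : ℂ) = 1 := by
        exact_mod_cast chi_chi e.2.1
      linear_combination (-(e.1 : ℂ) * f (e.2.1, π * e.2.2)) * h1
    · rintro ⟨r, g⟩ - hne
      rw [if_neg, zero_mul]
      rintro ⟨h1, h2⟩
      apply hne
      have h1' : e.2.1 = r := h1
      have h2' : e.2.2 = g * tau r := h2
      rw [h2', h1', mul_assoc, tau_tau, mul_one]
    · intro h
      exact absurd (Finset.mem_univ _) h
    · rintro ⟨r, g⟩ - hne
      rw [if_neg, zero_mul]
      rintro ⟨h1, h2⟩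
      exact hne (Prod.ext h1.symm h2.symm)
    · intro h
      exact absurd (Finset.mem_univ _) h

theorem symCoef_tau (L : Fm) (r : Fin 8) (g : S) :
    symCoef L r (g * tau r) = chi r * symCoef L r g := by
  induction L with
  | nil => simp [symCoef]
  | cons e L ih =>
    rw [symCoef_cons, symCoef_cons, ih, mul_assoc g, tau_tau, mul_one]
    have h1 := chi_chi r
    have h2 : (if e.2.1 = r ∧ e.2.2 = g then chi r * e.1 else 0) =
        chi r * (if e.2.1 = r ∧ e.2.2 = g then e.1 else 0) := by split_ifs <;> simp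
    have h3 : (if e.2.1 = r ∧ e.2.2 = g * tau r then chi r * e.1 else 0) =
        chi r * (if e.2.1 = r ∧ e.2.2 = g * tau r then e.1 else 0) := by split_ifs <;> simp
    rw [h2, h3]
    linear_combination (-(if e.2.1 = r ∧ e.2.2 = g * tau r then e.1 else 0)) * h1

theorem symCoef_zero (L : Fm) (r : Fin 8) (g : S)
    (h : ∀ e ∈ L, ¬(e.2.1 = r ∧ e.2.2 = g) ∧ ¬(e.2.1 = r ∧ e.2.2 = g * tau r)) :
    symCoef L r g = 0 := by
  induction L with
  | nil => rfl
  | cons e L ih =>
    rw [symCoef_cons, if_neg (h e (by simp)).1, if_neg (h e (by simp)).2,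
      ih fun e' he' => h e' (by simp [he'])]
    rfl

theorem ev_nul {L : Fm} (hL : Nul L) (π : S) {f : I → ℂ} (hf : Sym f) : ev L π f = 0 := by
  have h0 : ∀ r g, symCoef L r g = 0 := by
    intro r g
    by_cases h1 : ∃ e ∈ L, e.2.1 = r ∧ e.2.2 = g
    · obtain ⟨e, he, rfl, rfl⟩ := h1
      exact hL e he
    · by_cases h2 : ∃ e ∈ L, e.2.1 = r ∧ e.2.2 = g * tau r
      · obtain ⟨e, he, rfl, h3⟩ := h2
        have h4 := hL e he
        rw [h3, symCoef_tau] at h4
        have h5 := chi_chi e.2.1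
        calc symCoef L e.2.1 g = (chi e.2.1 * chi e.2.1) * symCoef L e.2.1 g := by rw [h5, one_mul]
          _ = chi e.2.1 * (chi e.2.1 * symCoef L e.2.1 g) := by ring
          _ = 0 := by rw [h4, mul_zero]
      · apply symCoef_zero
        intro e he
        exact ⟨fun h => h1 ⟨e, he, h⟩, fun h => h2 ⟨e, he, h⟩⟩
  have h1 := two_ev L π f hf
  rw [Finset.sum_eq_zero (fun x _ => by rw [h0]; simp)] at h1
  exact (mul_eq_zero.1 h1).resolve_left two_ne_zero

/-- the symmetric functions form the module -/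
def Vs : Submodule ℂ (I → ℂ) where
  carrier := {f | Sym f}
  add_mem' := by
    intro a b ha hb r π
    rw [Pi.add_apply, Pi.add_apply, ha r π, hb r π]
    ring
  zero_mem' := by
    intro r π
    simp
  smul_mem' := by
    intro t a ha r π
    rw [Pi.smul_apply, Pi.smul_apply, ha r π, smul_eq_mul, smul_eq_mul]
    ring

theorem op_sym {K : Fin 8 → Fin 4 → Fm}
    (hK : ∀ r : Fin 8, ∀ a : Fin 4, Nul (app K a [(1, r, tau r)] ++ neg (app K a [(chi r, r, 1)])))
    (i : Fin 4) {f : I → ℂ} (hf : Sym f) : Sym (op K i f) := by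
  intro r π
  have h1 := ev_nul (hK r (π⁻¹ i)) π hf
  rw [ev_append, ev_neg, ← ev_op, ← ev_op, ev_cons, ev_cons, ev_nil] at h1
  simp only [Int.cast_one, one_mul, mul_one, add_zero] at h1
  exact sub_eq_zero.1 (by rw [sub_eq_add_neg]; exact h1)

theorem op_comm {K : Fin 8 → Fin 4 → Fm}
    (hK : ∀ r : Fin 8, ∀ a b : Fin 4, Nul (app K b (K r a) ++ neg (app K a (K r b))))
    (i j : Fin 4) {f : I → ℂ} (hf : Sym f) : op K i (op K j f) = op K j (op K i f) := by
  funext x
  obtain ⟨r, π⟩ := x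
  have h1 := ev_nul (hK r (π⁻¹ i) (π⁻¹ j)) π hf
  rw [ev_append, ev_neg, ← op_op, ← op_op] at h1
  exact sub_eq_zero.1 (by rw [sub_eq_add_neg]; exact h1)

/-- the letter of the particle `p` -/
def lt (r : Fin 8) (π : S) (p : Fin 4) : ZMod 5 := wt r (π⁻¹ p)

theorem swap_conj (π : S) (a b : Fin 4) : π * Equiv.swap (π⁻¹ a) (π⁻¹ b) = Equiv.swap a b * π := by
  ext i
  simp only [Equiv.Perm.mul_apply]
  rw [Equiv.swap_apply_def, Equiv.swap_apply_def]
  have h1 : ∀ a, (i = π⁻¹ a) ↔ π i = a := by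
    intro a
    constructor
    · rintro rfl; exact invp π a
    · rintro rfl; exact (pinv π i).symm
  simp only [h1]
  split_ifs <;> simp

/-- the commutator of `y_j` and `x_i` -/
theorem op_yx_ne {i j : Fin 4} (hij : j ≠ i) {f : I → ℂ} (hf : Sym f) (r : Fin 8) (π : S) :
    op KY j (op KX i f) (r, π) - op KX i (op KY j f) (r, π) =
      if lt r π j - lt r π i = 1 then f (r, Equiv.swap j i * π) else 0 := by
  have h1 := ev_nul (comm_YX r (π⁻¹ j) (π⁻¹ i)) π hf
  have hne : π⁻¹ j ≠ π⁻¹ i := fun h => hij ((π⁻¹ : S).injective h)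
  rw [ev_append, ev_append, ev_neg, ev_neg, ← op_op, ← op_op, rhs, if_neg hne] at h1
  unfold lt
  split_ifs at h1 ⊢ with h2
  · rw [ev_cons, ev_nil, swap_conj] at h1
    simp only [Int.cast_one, one_mul, add_zero] at h1
    linear_combination h1
  · rw [ev_nil] at h1
    linear_combination h1

theorem ev_filter_map (r : Fin 8) (l : List (Fin 4)) (P : Fin 4 → Prop) [DecidablePred P]
    (u : Fin 4 → S) (π : S) (f : I → ℂ) :
    ev ((l.filter fun c => P c).map fun c => ((-1 : ℤ), r, u c)) π f =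
      (l.map fun c => if P c then - f (r, π * u c) else 0).sum := by
  induction l with
  | nil => rfl
  | cons a l ih =>
    rw [List.filter_cons]
    by_cases h : P a
    · rw [if_pos (by simpa using h), List.map_cons, ev_cons, ih, List.map_cons, List.sum_cons,
        if_pos h]
      push_cast
      ring
    · rw [if_neg (by simpa using h), ih, List.map_cons, List.sum_cons, if_neg h, zero_add]

theorem op_yx_eq (i : Fin 4) {f : I → ℂ} (hf : Sym f) (r : Fin 8) (π : S) :
    op KY i (op KX i f) (r, π) - op KX i (op KY i f) (r, π) =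
      ∑ c : Fin 4, if c ≠ i ∧ lt r π c = lt r π i then - f (r, Equiv.swap i c * π) else 0 := by
  have h1 := ev_nul (comm_YX r (π⁻¹ i) (π⁻¹ i)) π hf
  rw [ev_append, ev_append, ev_neg, ev_neg, ← op_op, ← op_op, rhs, if_pos rfl,
    ev_filter_map] at h1
  have h2 : ((List.finRange 4).map fun c => if c ≠ π⁻¹ i ∧ wt r c = wt r (π⁻¹ i) then
      - f (r, π * Equiv.swap (π⁻¹ i) c) else 0).sum =
      ∑ c : Fin 4, if c ≠ i ∧ lt r π c = lt r π i then - f (r, Equiv.swap i c * π) else 0 := by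
    rw [← List.ofFn_eq_map, List.sum_ofFn, ← Equiv.sum_comp (π⁻¹ : S)]
    refine Finset.sum_congr rfl fun c _ => ?_
    rw [swap_conj]
    have h3 : (π⁻¹ : S) c ≠ π⁻¹ i ↔ c ≠ i := (π⁻¹ : S).injective.ne_iff
    simp only [h3]
    rfl
  rw [h2] at h1
  linear_combination h1

end Pool.Agent.Y57.RCA
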