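import Pool.Agent.Y57.RCA.Group

/-!
# Reflections in `G(5,5,4)`
-/

set_option autoImplicit false

open scoped BigOperators

namespace Pool.Agent.Y57.RCA

theorem rf_t_q {p q : Fin 4} (h : p ≠ q) (a : ZMod 5) : (rf p q a).t q = a := by
  rw [rf_t, Pi.sub_apply, Pi.single_eq_same, Pi.single_eq_of_ne h.symm, sub_zero]

theorem rf_t_p {p q : Fin 4} (h : p ≠ q) (a : ZMod 5) : (rf p q a).t p = -a := by
  rw [rf_t, Pi.sub_apply, Pi.single_eq_same, Pi.single_eq_of_ne h, zero_sub]

theorem rf_t_ne {p q i : Fin 4} (hp : i ≠ p) (hq : i ≠ q) (a : ZMod 5) : (rf p q a).t i = 0 := by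
  rw [rf_t, Pi.sub_apply, Pi.single_eq_of_ne hp, Pi.single_eq_of_ne hq, sub_zero]

/-- a vector in the range of `w - 1` -/
theorem sub_single (m : M) (p : Fin 4) :
    ((M.toGL m : E4 ≃ₗ[ℂ] E4) : E4 →ₗ[ℂ] E4) (Pi.single p 1) - LinearMap.id (R := ℂ) (Pi.single p 1) =
      Pi.single (m.s p) (zz (m.t (m.s p))) - Pi.single p 1 := by
  show M.toGL m (Pi.single p 1) - Pi.single p 1 = _
  rw [M.toGL_single]

theorem isReflection_rf {p q : Fin 4} (h : p ≠ q) (a : ZMod 5) : IsReflection (M.toGL (rf p q a)) := by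
  have key : ∀ v : E4, M.toGL (rf p q a) v - v =
      (v p - zz (-a) * v q) • (Pi.single q (zz a) - Pi.single p 1 : E4) := by
    intro v
    funext i
    rw [Pi.sub_apply, M.toGL_apply, rf_s, Equiv.swap_inv, Pi.smul_apply, Pi.sub_apply, smul_eq_mul]
    by_cases hp : i = p
    · subst hp
      rw [rf_t_p h, Equiv.swap_apply_left, Pi.single_eq_of_ne h, Pi.single_eq_same]
      ring
    · by_cases hq : i = q
      · subst hq
        rw [rf_t_q h, Equiv.swap_apply_right, Pi.single_eq_of_ne h.symm, Pi.single_eq_same]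
        have := zz_neg_mul a
        linear_combination (v i) * this
      · rw [rf_t_ne hp hq, Equiv.swap_apply_of_ne_of_ne hp hq, Pi.single_eq_of_ne hp,
          Pi.single_eq_of_ne hq, zz_zero]
        ring
  have hmem : (Pi.single q (zz a) - Pi.single p 1 : E4) ∈
      LinearMap.range (((M.toGL (rf p q a) : E4 ≃ₗ[ℂ] E4) : E4 →ₗ[ℂ] E4) - LinearMap.id) := by
    refine ⟨Pi.single p 1, ?_⟩
    rw [LinearMap.sub_apply, sub_single, rf_s, Equiv.swap_apply_left, rf_t_q h]
  unfold IsReflection
  rw [finrank_eq_one_iff_of_nonzero' ⟨_, hmem⟩]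
  · rintro ⟨_, v, rfl⟩
    refine ⟨v p - zz (-a) * v q, ?_⟩
    apply Subtype.ext
    exact (key v).symm
  · intro h0
    have h1 := congrArg Subtype.val h0
    have h2 := congrFun h1 p
    simp only [Pi.sub_apply, Pi.single_eq_of_ne h, Pi.single_eq_same, zero_sub] at h2
    exact (neg_ne_zero.2 one_ne_zero) h2

theorem classify (m : M) (hm : IsReflection (M.toGL m)) : ∃ p q : Fin 4, p ≠ q ∧ ∃ a, m = rf p q a := by
  have hprop : ∀ (v v' : E4), M.toGL m v - v ≠ 0 → ∃ r : ℂ, r • (M.toGL m v - v) = M.toGL m v' - v' := by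
    intro v v' hv
    have hmem : ∀ v : E4, M.toGL m v - v ∈
        LinearMap.range (((M.toGL m : E4 ≃ₗ[ℂ] E4) : E4 →ₗ[ℂ] E4) - LinearMap.id) := fun v => ⟨v, rfl⟩
    unfold IsReflection at hm
    rw [finrank_eq_one_iff_of_nonzero' ⟨_, hmem v⟩ (by
      intro h
      exact hv (congrArg Subtype.val h))] at hm
    obtain ⟨r, hr⟩ := hm ⟨_, hmem v'⟩
    exact ⟨r, congrArg Subtype.val hr⟩
  by_cases hs : m.s = 1
  · -- diagonal case
    exfalso
    have hd : ∀ i, M.toGL m (Pi.single i 1) - Pi.single i 1 = (Pi.single i (zz (m.t i) - 1) : E4) := by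
      intro i
      rw [M.toGL_single, hs]
      show (Pi.single i (zz (m.t i)) - Pi.single i 1 : E4) = _
      rw [← Pi.single_sub]
    have hne : ∃ i, m.t i ≠ 0 := by
      by_contra hall
      push Not at hall
      have h1 : m = 1 := by
        ext i
        · rw [hall i]; rfl
        · rw [hs]; rfl
      rw [h1, map_one] at hm
      unfold IsReflection at hm
      have h2 : (((1 : E4 ≃ₗ[ℂ] E4) : E4 →ₗ[ℂ] E4) - LinearMap.id) = 0 := by
        ext v
        simp
      rw [h2, LinearMap.range_zero, finrank_bot] at hm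
      exact zero_ne_one hm
    obtain ⟨i, hi⟩ := hne
    have hz : ∀ j, m.t j ≠ 0 → zz (m.t j) - 1 ≠ 0 := by
      intro j hj h
      apply hj
      apply zz_inj
      rw [zz_zero]
      exact sub_eq_zero.1 h
    have hone : ∀ j, j ≠ i → m.t j = 0 := by
      intro j hj
      by_contra hj0
      obtain ⟨r, hr⟩ := hprop (Pi.single i 1) (Pi.single j 1) (by
        rw [hd]
        intro h0
        have := congrFun h0 i
        rw [Pi.single_eq_same] at this
        exact hz i hi this)
      rw [hd, hd] at hr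
      have := congrFun hr j
      rw [Pi.smul_apply, Pi.single_eq_of_ne hj, Pi.single_eq_same, smul_zero] at this
      exact hz j hj0 this.symm
    have hsum := m.h
    rw [Finset.sum_eq_single i (fun j _ hj => hone j hj) (fun h => absurd (Finset.mem_univ i) h)] at hsum
    exact hi hsum
  · obtain ⟨p, hp⟩ : ∃ p, m.s p ≠ p := by
      by_contra hall
      push Not at hall
      exact hs (Equiv.ext hall)
    have hd : ∀ i, M.toGL m (Pi.single i 1) - Pi.single i 1 =
        (Pi.single (m.s i) (zz (m.t (m.s i))) - Pi.single i 1 : E4) := by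
      intro i
      rw [M.toGL_single]
    have hne : M.toGL m (Pi.single p 1) - Pi.single p 1 ≠ 0 := by
      rw [hd]
      intro h0
      have := congrFun h0 p
      rw [Pi.sub_apply, Pi.single_eq_of_ne hp.symm, Pi.single_eq_same, Pi.zero_apply, zero_sub] at this
      exact (neg_ne_zero.2 one_ne_zero) this
    have hfix : ∀ i, i ≠ p → i ≠ m.s p → m.s i = i ∧ m.t i = 0 := by
      intro i hip hiq
      obtain ⟨r, hr⟩ := hprop (Pi.single p 1) (Pi.single i 1) hne
      rw [hd, hd] at hr
      have h1 := congrFun hr i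
      rw [Pi.smul_apply, Pi.sub_apply, Pi.single_eq_of_ne hiq, Pi.single_eq_of_ne hip, sub_zero,
        smul_zero, Pi.sub_apply, Pi.single_eq_same] at h1
      have h2 : m.s i = i := by
        by_contra hne2
        rw [Pi.single_eq_of_ne (Ne.symm hne2), zero_sub] at h1
        exact (neg_ne_zero.2 one_ne_zero) h1.symm
      refine ⟨h2, ?_⟩
      rw [h2, Pi.single_eq_same] at h1
      apply zz_inj
      rw [zz_zero]
      exact (sub_eq_zero.1 h1.symm)
    have hsq : m.s (m.s p) = p := by
      by_contra hne2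
      have h3 : m.s (m.s p) ≠ m.s p := fun h => hp (m.s.injective h)
      have h4 := (hfix (m.s (m.s p)) hne2 h3).1
      exact h3 (m.s.injective h4)
    refine ⟨p, m.s p, hp.symm, m.t (m.s p), ?_⟩
    have hswap : m.s = Equiv.swap p (m.s p) := by
      ext i
      by_cases hip : i = p
      · subst hip; rw [Equiv.swap_apply_left]
      · by_cases hiq : i = m.s p
        · subst hiq; rw [Equiv.swap_apply_right, hsq]
        · rw [Equiv.swap_apply_of_ne_of_ne hip hiq, (hfix i hip hiq).1]
    refine M.ext ?_ hswap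
    funext i
    by_cases hip : i = p
    · subst hip
      rw [rf_t_p hp.symm]
      have hsum := m.h
      rw [Finset.sum_eq_add i (m.s i) hp.symm (fun j _ hj => (hfix j hj.1 hj.2).2)
        (fun h => absurd (Finset.mem_univ _) h) (fun h => absurd (Finset.mem_univ _) h)] at hsum
      exact eq_neg_of_add_eq_zero_left hsum
    · by_cases hiq : i = m.s p
      · subst hiq; rw [rf_t_q hp.symm]
      · rw [rf_t_ne hip hiq, (hfix i hip hiq).2]

theorem rf_symm (p q : Fin 4) (a : ZMod 5) : rf p q a = rf q p (-a) := by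
  refine M.ext ?_ ?_
  · rw [rf_t, rf_t, Pi.single_neg, Pi.single_neg]
    abel
  · rw [rf_s, rf_s, Equiv.swap_comm]

/-- the six pairs -/
def prs : Fin 6 → Fin 4 × Fin 4 := ![(0, 1), (0, 2), (0, 3), (1, 2), (1, 3), (2, 3)]

theorem prs_ne : ∀ k, (prs k).1 ≠ (prs k).2 := by decide

theorem prs_surj : ∀ p q : Fin 4, p ≠ q → ∃ k, prs k = (p, q) ∨ prs k = (q, p) := by decide

theorem prs_inj : ∀ k l : Fin 6,
    Equiv.swap (prs k).1 (prs k).2 = Equiv.swap (prs l).1 (prs l).2 → k = l := by decide +kernel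

/-- the reflections, enumerated -/
noncomputable def refMap (j : Fin 6 × ZMod 5) : Ref G554 :=
  ⟨psi (rf (prs j.1).1 (prs j.1).2 j.2), isReflection_rf (prs_ne j.1) j.2⟩

theorem refMap_bij : Function.Bijective refMap := by
  constructor
  · rintro ⟨k, a⟩ ⟨l, b⟩ h
    have h1 : psi (rf (prs k).1 (prs k).2 a) = psi (rf (prs l).1 (prs l).2 b) :=
      congrArg Subtype.val h
    have h2 := psi.injective h1
    have h3 : k = l := prs_inj k l (congrArg M.s h2)
    subst h3
    have h4 := congrFun (congrArg M.t h2) (prs k).2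
    rw [rf_t_q (prs_ne k), rf_t_q (prs_ne k)] at h4
    rw [h4]
  · rintro ⟨w, hw⟩
    obtain ⟨m, rfl⟩ := psi.surjective w
    obtain ⟨p, q, hpq, a, rfl⟩ := classify m hw
    obtain ⟨k, hk | hk⟩ := prs_surj p q hpq
    · refine ⟨(k, a), ?_⟩
      apply Subtype.ext
      show psi _ = _
      rw [hk]
    · refine ⟨(k, -a), ?_⟩
      apply Subtype.ext
      show psi _ = _
      rw [hk]
      show psi (rf q p (-a)) = _
      rw [← rf_symm]

theorem exists_perm : ∀ p q : Fin 4, p ≠ q → ∃ σ : S, σ 0 = p ∧ σ 1 = q := by decide +kernel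

theorem isConj_rf {p q : Fin 4} (h : p ≠ q) (a : ZMod 5) : IsConj (rf 0 1 0) (rf p q a) := by
  obtain ⟨σ, h0, h1⟩ := exists_perm p q h
  rw [isConj_iff]
  refine ⟨⟨Pi.single q (3 * a) - Pi.single p (3 * a), σ, by simp [Finset.sum_sub_distrib]⟩, ?_⟩
  rw [mul_inv_eq_iff_eq_mul]
  have hs : σ * Equiv.swap 0 1 = Equiv.swap p q * σ := by
    rw [← h0, ← h1]
    ext i
    simp only [Equiv.Perm.mul_apply]
    rw [Equiv.swap_apply_def, Equiv.swap_apply_def]
    simp only [EmbeddingLike.apply_eq_iff_eq]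
    split_ifs <;> rfl
  refine M.ext ?_ hs
  funext i
  rw [M.mul_t, M.mul_t]
  show (Pi.single q (3 * a) - Pi.single p (3 * a) : Fin 4 → ZMod 5) i + (rf 0 1 0).t _ =
    (rf p q a).t i + (Pi.single q (3 * a) - Pi.single p (3 * a) : Fin 4 → ZMod 5)
      ((Equiv.swap p q)⁻¹ i)
  have h00 : ∀ j, (rf 0 1 0).t j = 0 := by
    intro j
    rw [rf_t, Pi.single_zero, Pi.single_zero]
    simp
  have h5 : ∀ a : ZMod 5, 3 * a = a + -(3 * a) := by decide
  have h6 : ∀ a : ZMod 5, -(3 * a) = -a + 3 * a := by decide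
  rw [h00, add_zero, Equiv.swap_inv]
  by_cases hp : i = p
  · subst hp
    rw [rf_t_p h, Equiv.swap_apply_left, Pi.sub_apply, Pi.sub_apply, Pi.single_eq_same,
      Pi.single_eq_same, Pi.single_eq_of_ne h, Pi.single_eq_of_ne h.symm, zero_sub, sub_zero]
    exact h6 a
  · by_cases hq : i = q
    · subst hq
      rw [rf_t_q h, Equiv.swap_apply_right, Pi.sub_apply, Pi.sub_apply, Pi.single_eq_same,
        Pi.single_eq_same, Pi.single_eq_of_ne h, Pi.single_eq_of_ne h.symm, zero_sub, sub_zero]
      exact h5 a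
    · rw [rf_t_ne hp hq, Equiv.swap_apply_of_ne_of_ne hp hq, zero_add]

/-- parameters are constant -/
theorem param_const (c : Ref G554 → ℂ) (hc : IsParameter G554 c) (s : Ref G554) :
    c s = c (refMap (0, 0)) := by
  symm
  apply hc
  obtain ⟨j, rfl⟩ := refMap_bij.2 s
  show IsConj (psi (rf (prs 0).1 (prs 0).2 0)) (psi (rf (prs j.1).1 (prs j.1).2 j.2))
  exact (psi : M →* G554).map_isConj (isConj_rf (prs_ne j.1) j.2)

instance : Finite (Ref G554) := Finite.of_surjective _ refMap_bij.2

theorem finsum_ref {A : Type} [AddCommMonoid A] (F : Ref G554 → A) :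
    ∑ᶠ s : Ref G554, F s = ∑ k : Fin 6, ∑ a : ZMod 5, F (refMap (k, a)) := by
  rw [← finsum_eq_of_bijective (f := fun j => F (refMap j)) refMap refMap_bij (fun j => rfl),
    finsum_eq_sum_of_fintype, Fintype.sum_prod_type]

theorem isReflectionGroup_G554 : IsReflectionGroup G554 := by
  refine ⟨inferInstance, ?_⟩
  apply le_antisymm
  · rw [Subgroup.closure_le]
    intro s hs
    exact hs.1
  · -- transport to the model
    let H : Subgroup M := (Subgroup.closure {s | s ∈ G554 ∧ IsReflection s}).comap M.toGL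
    have hrf : ∀ p q : Fin 4, p ≠ q → ∀ a, rf p q a ∈ H := by
      intro p q h a
      exact Subgroup.subset_closure ⟨⟨_, rfl⟩, isReflection_rf h a⟩
    -- permutations
    have hzero : ∀ σ : S, ∑ _i : Fin 4, (0 : ZMod 5) = 0 := by simp
    have hperm : ∀ σ : S, (⟨fun _ => 0, σ, by simp⟩ : M) ∈ H := by
      intro σ
      induction σ using Equiv.Perm.swap_induction_on with
      | one => exact H.one_mem
      | swap_mul f x y hxy ih =>
        have h1 := H.mul_mem (hrf x y hxy 0) ih
        have h2 : (rf x y 0 * ⟨fun _ => 0, f, by simp⟩ : M) =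
            ⟨fun _ => 0, Equiv.swap x y * f, by simp⟩ := by
          refine M.ext ?_ rfl
          funext i
          rw [M.mul_t, rf_t, Pi.single_zero, Pi.single_zero]
          simp
        rwa [h2] at h1
    have hdiag : ∀ p q : Fin 4, p ≠ q → ∀ a : ZMod 5,
        (⟨Pi.single q a - Pi.single p a, 1, by simp [Finset.sum_sub_distrib]⟩ : M) ∈ H := by
      intro p q h a
      have h1 := H.mul_mem (hrf p q h a) (hrf p q h 0)
      have h2 : rf p q a * rf p q 0 =
          (⟨Pi.single q a - Pi.single p a, 1, by simp [Finset.sum_sub_distrib]⟩ : M) := by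
        refine M.ext ?_ (Equiv.swap_mul_self p q)
        funext i
        rw [M.mul_t]
        simp only [rf_t, Pi.single_zero, sub_self, Pi.zero_apply, add_zero]
      rwa [h2] at h1
    have htop : ∀ m : M, m ∈ H := by
      intro m
      have h1 := H.mul_mem (H.mul_mem (hdiag 0 1 (by decide) (m.t 1)) (hdiag 0 2 (by decide) (m.t 2)))
        (hdiag 0 3 (by decide) (m.t 3))
      have h2 := H.mul_mem h1 (hperm m.s)
      have hsum := m.h
      rw [Fin.sum_univ_four] at hsum
      convert h2 using 1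
      refine M.ext ?_ (by simp)
      funext i
      have h0 : m.t 0 = -m.t 1 - m.t 2 - m.t 3 := by linear_combination hsum
      fin_cases i
      · simp [h0]; ring
      · simp
      · simp
      · simp
    rintro _ ⟨m, rfl⟩
    exact htop m

end Pool.Agent.Y57.RCA
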