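import Pool.Agent.Y57.RCA.Theta

/-!
# Simplicity of the module
-/

set_option autoImplicit false

open scoped BigOperators

namespace Pool.Agent.Y57.RCA

/-- symmetrised delta functions -/
def bA (A : Type) [CommRing A] (r : Fin 8) : I → A := fun x =>
  if x.1 = r then (if x.2 = 1 then 1 else 0) + (if x.2 = tau r then ((chi r : ℤ) : A) else 0) else 0

theorem bA_sym (r : Fin 8) : Sym (bA ℂ r) := by
  intro r' π
  unfold bA
  by_cases h : r' = r
  · subst h
    simp only [if_true]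
    have h1 : (π * tau r' = 1) ↔ (π = tau r') := by
      rw [mul_eq_one_iff_eq_inv]
      have : (tau r')⁻¹ = tau r' := inv_eq_of_mul_eq_one_left (tau_tau r')
      rw [this]
    have h2 : (π * tau r' = tau r') ↔ (π = 1) := mul_eq_right
    have h3 : (chi r' : ℂ) * (chi r' : ℂ) = 1 := by exact_mod_cast chi_chi r'
    simp only [h1, h2]
    split_ifs <;> first | linear_combination (-1 : ℂ) * h3 | ring
  · simp [h]

/-- the words producing the generators of each type -/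
def wd : Fin 8 → List (Fin 4) := ![[], [0], [2], [0, 0], [0, 2], [0, 2, 2], [0, 0, 2], [0, 0, 2, 2]]

/-- multiplicities -/
def nn : Fin 8 → ℤ := ![1, 2, 1, 1, 2, 1, 1, 1]

/-- evaluate a word -/
def evw {A : Type} [CommRing A] (l : List (Fin 4)) (f : I → A) : I → A :=
  l.foldr (fun i f => op KX i f) f

theorem gen_check : ∀ r : Fin 8, ∀ x : I, nn r * evw (wd r) (bA ℤ 0) x = bA ℤ r x := by
  decide +kernel

theorem ev_cast (L : Fm) (π : S) (f : I → ℤ) :
    ((ev L π f : ℤ) : ℂ) = ev L π (fun x => (f x : ℂ)) := by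
  induction L with
  | nil => simp [ev]
  | cons e L ih =>
    rw [ev_cons, ev_cons, ← ih]
    push_cast
    rfl

theorem evw_cast (l : List (Fin 4)) (f : I → ℤ) (x : I) :
    ((evw l f x : ℤ) : ℂ) = evw l (fun x => (f x : ℂ)) x := by
  induction l generalizing x with
  | nil => rfl
  | cons i l ih =>
    show ((op KX i (evw l f) x : ℤ) : ℂ) = op KX i (evw l fun x => (f x : ℂ)) x
    have h1 : (evw l fun x => (f x : ℂ)) = fun x => ((evw l f x : ℤ) : ℂ) := by
      funext y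
      exact (ih y).symm
    rw [h1]
    exact ev_cast _ _ _

theorem bA_cast (r : Fin 8) : (fun x => ((bA ℤ r x : ℤ) : ℂ)) = bA ℂ r := by
  funext x
  unfold bA
  split_ifs <;> simp

theorem gen_checkC (r : Fin 8) : (nn r : ℂ) • evw (wd r) (bA ℂ 0) = bA ℂ r := by
  funext x
  rw [Pi.smul_apply, smul_eq_mul, ← bA_cast r, ← bA_cast 0, ← evw_cast]
  show (nn r : ℂ) * ((evw (wd r) (bA ℤ 0) x : ℤ) : ℂ) = ((bA ℤ r x : ℤ) : ℂ)
  rw [← gen_check r x, Int.cast_mul]

/-- the symmetrised delta functions in the module -/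
noncomputable def vb (r : Fin 8) : Vs := ⟨bA ℂ r, bA_sym r⟩

theorem lc_single (K : Fin 8 → Fin 4 → Fm) (i : Fin 4) : lc K (Pi.single i 1) = op K i := by
  unfold lc
  rw [Finset.sum_eq_single i]
  · rw [Pi.single_eq_same, one_smul]
  · intro j _ hj
    rw [Pi.single_eq_of_ne hj, zero_smul]
  · intro h; exact absurd (Finset.mem_univ _) h

theorem XV_word (l : List (Fin 4)) (u : Vs) :
    (((l.map fun i => XV (Pi.single i 1)).prod u : Vs) : I → ℂ) = evw l u := by
  induction l with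
  | nil => rfl
  | cons i l ih =>
    rw [List.map_cons, List.prod_cons, Module.End.mul_apply, XV_coe, ih, lc_single]
    rfl

theorem vb_word (r : Fin 8) :
    vb r = (nn r : ℂ) • ((wd r).map fun i => XV (Pi.single i 1)).prod (vb 0) := by
  apply Subtype.ext
  rw [Submodule.coe_smul, XV_word]
  exact (gen_checkC r).symm

/-- permutations in `M` -/
def pm (σ : S) : M := ⟨fun _ => 0, σ, by simp⟩

theorem PF_pm (σ : S) (f : I → ℂ) (r : Fin 8) (π : S) : PF (pm σ) f (r, π) = f (r, σ⁻¹ * π) := by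
  rw [PF_apply]
  have : wtt (pm σ).t r π = 0 := Finset.sum_eq_zero fun p _ => zero_mul _
  rw [this, zz_zero, one_mul]
  rfl

theorem span_formula (u : Vs) : u = (1 / 2 : ℂ) • ∑ x : I, (u : I → ℂ) x • PV (pm x.2) (vb x.1) := by
  apply Subtype.ext
  funext y
  obtain ⟨r, π⟩ := y
  rw [Submodule.coe_smul, Submodule.coe_sum, Pi.smul_apply, Finset.sum_apply]
  have h1 : ∀ x : I, (((u : I → ℂ) x • PV (pm x.2) (vb x.1) : Vs) : I → ℂ) (r, π) =
      (if x = (r, π) then (u : I → ℂ) x else 0) +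
        (if x = (r, π * tau r) then (chi r : ℂ) * (u : I → ℂ) x else 0) := by
    rintro ⟨r', σ⟩
    rw [Submodule.coe_smul, Pi.smul_apply, PV_coe, PF_pm]
    show (u : I → ℂ) (r', σ) • bA ℂ r' (r, σ⁻¹ * π) = _
    unfold bA
    by_cases hr : r = r'
    · subst hr
      simp only [if_true, Prod.mk.injEq, true_and, smul_eq_mul]
      have e1 : (σ⁻¹ * π = 1) ↔ (σ = π) := inv_mul_eq_one
      have e2 : (σ⁻¹ * π = tau r) ↔ (σ = π * tau r) := by
        rw [inv_mul_eq_iff_eq_mul]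
        constructor
        · rintro rfl; rw [mul_assoc, tau_tau, mul_one]
        · rintro rfl; rw [mul_assoc, tau_tau, mul_one]
      simp only [e1, e2]
      split_ifs <;> ring
    · simp [hr, Ne.symm hr]
  rw [Finset.sum_congr rfl fun x _ => h1 x, Finset.sum_add_distrib,
    Finset.sum_ite_eq' Finset.univ ((r, π) : I) (fun x => (u : I → ℂ) x),
    Finset.sum_ite_eq' Finset.univ ((r, π * tau r) : I) (fun x => (chi r : ℂ) * (u : I → ℂ) x),
    if_pos (Finset.mem_univ _), if_pos (Finset.mem_univ _)]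
  have h2 : (u : I → ℂ) (r, π * tau r) = (chi r : ℂ) * (u : I → ℂ) (r, π) := u.2 r π
  have h3 : (chi r : ℂ) * (chi r : ℂ) = 1 := by exact_mod_cast chi_chi r
  rw [h2, ← mul_assoc, h3, smul_eq_mul]
  ring

/-- projection to an eigenspace of the torus -/
noncomputable def Qd (p q : Fin 4) (d : ZMod 5) : Module.End ℂ Vs :=
  ∑ k : ZMod 5, zz (-(k * d)) • PV (dd p q k)

theorem Qd_apply (p q : Fin 4) (d : ZMod 5) (u : Vs) (r : Fin 8) (π : S) :
    ((Qd p q d u : Vs) : I → ℂ) (r, π) =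
      (if lt r π q - lt r π p = d then 5 else 0) * (u : I → ℂ) (r, π) := by
  unfold Qd
  rw [LinearMap.sum_apply, Submodule.coe_sum, Finset.sum_apply]
  have h1 : ∀ k : ZMod 5, (((zz (-(k * d)) • PV (dd p q k)) u : Vs) : I → ℂ) (r, π) =
      zz (k * (lt r π q - lt r π p - d)) * (u : I → ℂ) (r, π) := by
    intro k
    rw [LinearMap.smul_apply, Submodule.coe_smul, Pi.smul_apply, PV_coe, PF_dd, smul_eq_mul,
      ← mul_assoc, ← zz_add]
    congr 2
    ring
  rw [Finset.sum_congr rfl fun k _ => h1 k, ← Finset.sum_mul, zz_sum]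
  simp only [sub_eq_zero (b := d)]

theorem lt_sep : ∀ (r : Fin 8) (π : S), lt r π 1 - lt r π 0 = 0 → lt r π 2 - lt r π 0 = 1 →
    lt r π 3 - lt r π 0 = 3 → r = 0 ∧ (π = 1 ∨ π = tau 0) := by
  unfold lt
  decide +kernel

theorem lt_zero : ∀ π : S, (π = 1 ∨ π = tau 0) → lt 0 π 1 - lt 0 π 0 = 0 ∧
    lt 0 π 2 - lt 0 π 0 = 1 ∧ lt 0 π 3 - lt 0 π 0 = 3 := by
  unfold lt
  decide +kernel

theorem tau_zero_ne : (tau 0 : S) ≠ 1 := by decide

/-- from a vector with a nonzero component in degree `0` to the highest weight vector -/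
theorem vb_of_PV (N : Submodule ℂ Vs) (hp : ∀ m, ∀ u ∈ N, PV m u ∈ N) (u : Vs) (hu : u ∈ N)
    (π : S) (hne : (u : I → ℂ) (0, π) ≠ 0) : vb 0 ∈ N := by
  have hQ : ∀ p q d, ∀ u ∈ N, Qd p q d u ∈ N := by
    intro p q d u hu
    unfold Qd
    rw [LinearMap.sum_apply]
    exact N.sum_mem fun k _ => N.smul_mem _ (hp _ _ hu)
  let u1 := PV (pm π⁻¹) u
  have hu1 : u1 ∈ N := hp _ _ hu
  have hne1 : (u1 : I → ℂ) (0, 1) ≠ 0 := by
    show PF (pm π⁻¹) u (0, 1) ≠ 0
    rw [PF_pm, inv_inv, mul_one]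
    exact hne
  have h2 := hQ 0 1 0 _ (hQ 0 2 1 _ (hQ 0 3 3 _ hu1))
  have h3 : Qd 0 1 0 (Qd 0 2 1 (Qd 0 3 3 u1)) = (125 * (u1 : I → ℂ) (0, 1)) • vb 0 := by
    apply Subtype.ext
    funext y
    obtain ⟨r, σ⟩ := y
    rw [Qd_apply, Qd_apply, Qd_apply, Submodule.coe_smul, Pi.smul_apply, smul_eq_mul]
    show _ = _ * bA ℂ 0 (r, σ)
    by_cases h : r = 0 ∧ (σ = 1 ∨ σ = tau 0)
    · obtain ⟨rfl, hσ⟩ := h
      obtain ⟨e1, e2, e3⟩ := lt_zero σ hσ
      rw [if_pos e1, if_pos e2, if_pos e3]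
      unfold bA
      rcases hσ with rfl | rfl
      · rw [if_pos rfl, if_pos rfl, if_neg (Ne.symm tau_zero_ne)]
        ring
      · rw [if_pos rfl, if_neg tau_zero_ne, if_pos rfl]
        have h4 : (u1 : I → ℂ) (0, 1 * tau 0) = (chi 0 : ℂ) * (u1 : I → ℂ) (0, 1) := u1.2 0 1
        rw [one_mul] at h4
        rw [h4]
        ring
    · have hz : bA ℂ 0 (r, σ) = 0 := by
        unfold bA
        by_cases hr : r = 0
        · subst hr
          have h5 : ¬(σ = 1 ∨ σ = tau 0) := fun h' => h ⟨rfl, h'⟩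
          push Not at h5
          simp [h5.1, h5.2]
        · simp [hr]
      rw [hz, mul_zero]
      by_cases e1 : lt r σ 1 - lt r σ 0 = 0
      · by_cases e2 : lt r σ 2 - lt r σ 0 = 1
        · by_cases e3 : lt r σ 3 - lt r σ 0 = 3
          · exact absurd (lt_sep r σ e1 e2 e3) h
          · rw [if_neg e3]; ring
        · rw [if_neg e2]; ring
      · rw [if_neg e1]; ring
  rw [h3] at h2
  have h4 := N.smul_mem (125 * (u1 : I → ℂ) (0, 1))⁻¹ h2
  rwa [smul_smul, inv_mul_cancel₀ (mul_ne_zero (by norm_num) hne1), one_smul] at h4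

/-- certificates for the injectivity of the `y`'s in positive degree -/
def cert : Fin 8 → List (ℤ × Fin 8 × S × Fin 4) :=
  ![[], [(-1, 0, 1, 0)], [(1, 0, s02, 0), (1, 0, s12, 1), (-1, 0, 1, 2)], [(-1, 1, 1, 0)],
    [(-1, 2, 1, 0)], [(-1, 4, s12, 2)], [(1, 3, s12, 1)], [(-1, 5, 1, 0)]]

def cD : Fin 8 → ℤ := ![1, 1, 2, 1, 1, 1, 1, 1]

theorem cD_ne : ∀ r, cD r ≠ 0 := by decide

theorem cert_check : ∀ r : Fin 8, r ≠ 0 →
    Nul (((cert r).flatMap fun e => app KY e.2.2.2 [(e.1, e.2.1, e.2.2.1)]) ++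
      [(-(cD r), r, 1)]) := by
  decide +kernel

theorem cert_deg : ∀ r : Fin 8, ∀ e ∈ cert r, dg e.2.1 + 1 = dg r := by decide +kernel

theorem dg_zero : ∀ r : Fin 8, dg r = 0 → r = 0 := by decide

theorem exists_zero_comp (N : Submodule ℂ Vs) (hy : ∀ i, ∀ u ∈ N, YV (Pi.single i 1) u ∈ N)
    (n : ℕ) : ∀ (r : Fin 8), dg r = n → ∀ u ∈ N, ∀ π : S, (u : I → ℂ) (r, π) ≠ 0 →
      ∃ u' ∈ N, ∃ π' : S, (u' : I → ℂ) (0, π') ≠ 0 := by
  induction n with
  | zero =>
    intro r hr u hu π hne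
    rw [dg_zero r hr] at hne
    exact ⟨u, hu, π, hne⟩
  | succ n ih =>
    intro r hr u hu π hne
    by_contra hall
    have h0 : ∀ e ∈ cert r, (op KY (π e.2.2.2) u : I → ℂ) (e.2.1, π * e.2.2.1) = 0 := by
      intro e he
      by_contra hne2
      apply hall
      have hd : dg e.2.1 = n := by
        have := cert_deg r e he
        omega
      refine ih e.2.1 hd (YV (Pi.single (π e.2.2.2) 1) u) (hy _ u hu) (π * e.2.2.1) ?_
      rw [YV_coe, lc_single]
      exact hne2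
    have hr0 : r ≠ 0 := by
      intro h
      rw [h] at hr
      exact absurd hr (by simp [dg])
    have h1 := ev_nul (cert_check r hr0) π u.2
    rw [ev_append] at h1
    have h2 : ev ((cert r).flatMap fun e => app KY e.2.2.2 [(e.1, e.2.1, e.2.2.1)]) π
        (u : I → ℂ) = 0 := by
      generalize cert r = L at h0
      clear h1
      induction L with
      | nil => rfl
      | cons e L ihL =>
        rw [List.flatMap_cons, ev_append, ihL fun e' he' => h0 e' (by simp [he']), add_zero]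
        have h3 := ev_op KY (π e.2.2.2) (u : I → ℂ) [(e.1, e.2.1, e.2.2.1)] π
        rw [pinv] at h3
        rw [← h3, ev_cons, ev_nil, add_zero]
        show (e.1 : ℂ) * _ = 0
        rw [h0 e (by simp), mul_zero]
    rw [h2, zero_add, ev_cons, ev_nil, add_zero] at h1
    have h3 : ((-(cD r) : ℤ) : ℂ) ≠ 0 := by
      exact_mod_cast neg_ne_zero.2 (cD_ne r)
    rw [mul_one] at h1
    exact hne ((mul_eq_zero.1 h1).resolve_left h3)

theorem XV_words_mem (N : Submodule ℂ Vs) (hx : ∀ i, ∀ u ∈ N, XV (Pi.single i 1) u ∈ N)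
    (l : List (Fin 4)) {u : Vs} (hu : u ∈ N) :
    (l.map fun i => XV (Pi.single i 1)).prod u ∈ N := by
  induction l with
  | nil => exact hu
  | cons i l ih =>
    rw [List.map_cons, List.prod_cons, Module.End.mul_apply]
    exact hx i _ ih

/-- simplicity of the module -/
theorem eq_top_of_stable (N : Submodule ℂ Vs) (hN : N ≠ ⊥)
    (hx : ∀ i, ∀ u ∈ N, XV (Pi.single i 1) u ∈ N) (hy : ∀ i, ∀ u ∈ N, YV (Pi.single i 1) u ∈ N)
    (hp : ∀ m, ∀ u ∈ N, PV m u ∈ N) : N = ⊤ := by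
  obtain ⟨u, hu, hne⟩ := (Submodule.ne_bot_iff N).1 hN
  obtain ⟨⟨r, π⟩, hrp⟩ : ∃ x, (u : I → ℂ) x ≠ 0 := by
    by_contra hall
    push Not at hall
    exact hne (Subtype.ext (funext hall))
  obtain ⟨u', hu', π', hne'⟩ := exists_zero_comp N hy (dg r) r rfl u hu π hrp
  have hvb := vb_of_PV N hp u' hu' π' hne'
  rw [eq_top_iff]
  intro v _
  rw [span_formula v]
  refine N.smul_mem _ (N.sum_mem fun x _ => N.smul_mem _ (hp _ _ ?_))
  rw [vb_word]
  exact N.smul_mem _ (XV_words_mem N hx _ hvb)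

end Pool.Agent.Y57.RCA
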