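import Pool.Agent.Y57.RCA.Modl

/-!
# The action of the restricted rational Cherednik algebra
-/

set_option autoImplicit false

open scoped BigOperators

namespace Pool.Agent.Y57.RCA

/-- the action of the generators -/
noncomputable def genAct (c0 : ℂ) : Gen G554 → Module.End ℂ Vs
  | .x f => XV (cx f)
  | .y v => (5 * c0) • YV v
  | .g w => PV (psi.symm w)

/-- the action of the free algebra -/
noncomputable def frAct (c0 : ℂ) : Fr G554 →ₐ[ℂ] Module.End ℂ Vs := FreeAlgebra.lift ℂ (genAct c0)

theorem frAct_X (c0 : ℂ) (f : Module.Dual ℂ E4) : frAct c0 (X G554 f) = XV (cx f) :=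
  FreeAlgebra.lift_ι_apply _ _

theorem frAct_Y (c0 : ℂ) (v : E4) : frAct c0 (Y G554 v) = (5 * c0) • YV v :=
  FreeAlgebra.lift_ι_apply _ _

theorem frAct_G (c0 : ℂ) (m : M) : frAct c0 (G G554 (psi m)) = PV m := by
  have h : frAct c0 (G G554 (psi m)) = PV (psi.symm (psi m)) := FreeAlgebra.lift_ι_apply _ _
  rw [h, MulEquiv.symm_apply_apply]

theorem sum_G554 {A : Type} [AddCommMonoid A] (F : G554 → A) :
    ∑ᶠ w : G554, F w = ∑ m : M, F (psi m) := by
  rw [← finsum_eq_of_bijective (f := fun m => F (psi m)) psi psi.bijective (fun m => rfl),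
    finsum_eq_sum_of_fintype]

theorem frAct_rel (c : Ref G554 → ℂ) (hc : IsParameter G554 c) (a b : Fr G554)
    (h : Rel G554 c a b) : frAct (c (refMap (0, 0))) a = frAct (c (refMap (0, 0))) b := by
  cases h with
  | x_add f f' => rw [map_add, frAct_X, frAct_X, frAct_X, cx_add, XV_add]
  | x_smul t f => rw [map_smul, frAct_X, frAct_X, cx_smul, XV_smul]
  | y_add v v' => rw [map_add, frAct_Y, frAct_Y, frAct_Y, YV_add, smul_add]
  | y_smul t v => rw [map_smul, frAct_Y, frAct_Y, YV_smul, smul_comm]
  | g_one =>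
    have : (1 : G554) = psi 1 := (map_one psi).symm
    rw [map_one, this, frAct_G, PV_one]
  | g_mul w w' =>
    obtain ⟨m, rfl⟩ := psi.surjective w
    obtain ⟨n, rfl⟩ := psi.surjective w'
    rw [map_mul, ← map_mul, frAct_G, frAct_G, frAct_G, PV_mul]
  | g_x w f =>
    obtain ⟨m, rfl⟩ := psi.surjective w
    rw [map_mul, map_mul, frAct_G, frAct_X, frAct_X, psi_coe, cx_act, PV_XV]
  | g_y w v =>
    obtain ⟨m, rfl⟩ := psi.surjective w
    rw [map_mul, map_mul, frAct_G, frAct_Y, frAct_Y, psi_coe, cf_v, mul_smul_comm, PV_YV,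
      smul_mul_assoc]
  | x_x f f' => rw [map_mul, map_mul, frAct_X, frAct_X, XV_comm]
  | y_y v v' => rw [map_mul, map_mul, frAct_Y, frAct_Y, smul_mul_smul_comm, smul_mul_smul_comm,
      YV_comm]
  | y_x v f =>
    rw [finsum_ref, map_sub, map_mul, map_mul, map_neg, map_sum, frAct_X, frAct_Y]
    refine LinearMap.ext fun u => Subtype.ext (funext fun x => ?_)
    obtain ⟨r, π⟩ := x
    have h1 := comm_rel (c (refMap (0, 0))) f v u r π
    have h2 : ∀ k : Fin 6, frAct (c (refMap (0, 0))) (∑ a : ZMod 5, (c (refMap (k, a)) *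
        (f - act ((refMap (k, a)).1 : E4 ≃ₗ[ℂ] E4) f) v) • G G554 (refMap (k, a)).1) =
        ∑ a : ZMod 5, (c (refMap (0, 0)) *
          (f - act (M.toGL (rf (prs k).1 (prs k).2 a)) f) v) • PV (rf (prs k).1 (prs k).2 a) := by
      intro k
      rw [map_sum]
      refine Finset.sum_congr rfl fun a _ => ?_
      rw [map_smul, param_const c hc (refMap (k, a))]
      congr 1
      exact frAct_G _ _
    rw [Finset.sum_congr rfl fun k _ => h2 k]
    have h3 : (((-∑ k : Fin 6, ∑ a : ZMod 5, (c (refMap (0, 0)) *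
          (f - act (M.toGL (rf (prs k).1 (prs k).2 a)) f) v) •
            PV (rf (prs k).1 (prs k).2 a)) u : Vs) : I → ℂ) (r, π) =
        - ∑ k : Fin 6, ∑ a : ZMod 5, (c (refMap (0, 0)) *
          (f - act (M.toGL (rf (prs k).1 (prs k).2 a)) f) v) *
          PF (rf (prs k).1 (prs k).2 a) u (r, π) := by
      simp only [LinearMap.neg_apply, LinearMap.sum_apply, LinearMap.smul_apply,
        Submodule.coe_neg, Submodule.coe_sum, Submodule.coe_smul, Pi.neg_apply, Finset.sum_apply,
        Pi.smul_apply, smul_eq_mul]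
      rfl
    rw [h3, ← h1]
    rw [mul_sub]
    rw [smul_mul_assoc, mul_smul_comm]
    rfl
  | inv_x l hl =>
    rw [sum_G554, map_sum, map_zero, ← XV_average (l.map cx) (by simpa using hl)]
    refine Finset.sum_congr rfl fun m _ => ?_
    rw [map_list_prod, List.map_map, List.map_map]
    congr 1
    refine List.map_congr_left fun f _ => ?_
    simp only [Function.comp_apply]
    rw [frAct_X, psi_coe, cx_act]
  | inv_y l hl =>
    rw [sum_G554, map_sum, map_zero]
    have h1 := YV_average l hl
    have h2 : ∀ m : M, frAct (c (refMap (0, 0)))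
        (l.map fun v => Y G554 ((psi m : E4 ≃ₗ[ℂ] E4) v)).prod =
        (5 * c (refMap (0, 0))) ^ l.length • (l.map fun a => YV (cf (-1) m a)).prod := by
      intro m
      rw [map_list_prod, List.map_map]
      clear h1 hl
      induction l with
      | nil => simp
      | cons a l ih =>
        rw [List.map_cons, List.prod_cons, ih, List.map_cons, List.prod_cons, List.length_cons]
        simp only [Function.comp_apply]
        rw [frAct_Y, psi_coe, cf_v, smul_mul_smul_comm, pow_succ']
    rw [Finset.sum_congr rfl fun m _ => h2 m, ← Finset.smul_sum, h1, smul_zero]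

end Pool.Agent.Y57.RCA
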