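import Pool.Agent.Y57.RCA.Nil

/-!
# Baby Verma modules and their simple quotients
-/

set_option autoImplicit false

open scoped BigOperators TensorProduct

namespace Pool.Agent.Y57.RCA

section

variable {V : Type} [AddCommGroup V] [Module ℂ V]
variable (W : Subgroup (V ≃ₗ[ℂ] V)) (c : Ref W → ℂ)
variable {U : Type} [AddCommGroup U] [Module ℂ U] (ρ : Representation ℂ W U)

/-- the image of `h ⊗ u` in the baby Verma module -/
def vm (h : RRCA W c) (u : U) : BabyVerma W c ρ := Submodule.Quotient.mk (h ⊗ₜ[ℂ] u)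

theorem smul_vm (a h : RRCA W c) (u : U) : a • vm W c ρ h u = vm W c ρ (a * h) u := rfl

theorem vm_eq (h : RRCA W c) (u : U) : vm W c ρ h u = h • vm W c ρ 1 u := by
  rw [smul_vm, mul_one]

theorem vm_add (h : RRCA W c) (u u' : U) : vm W c ρ h (u + u') = vm W c ρ h u + vm W c ρ h u' := by
  unfold vm
  rw [TensorProduct.tmul_add]
  rfl

theorem vm_smul (h : RRCA W c) (t : ℂ) (u : U) : vm W c ρ h (t • u) = t • vm W c ρ h u := by
  unfold vm
  rw [TensorProduct.tmul_smul]
  rfl

/-- the inclusion of `λ` -/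
def io : U →ₗ[ℂ] BabyVerma W c ρ where
  toFun := vm W c ρ 1
  map_add' := vm_add W c ρ 1
  map_smul' := vm_smul W c ρ 1

theorem yH_io (v : V) (u : U) : yH W c v • io W c ρ u = 0 := by
  show Submodule.Quotient.mk _ = _
  rw [Submodule.Quotient.mk_eq_zero]
  refine Submodule.subset_span (Or.inl ⟨1, v, u, ?_⟩)
  show (yH W c v * 1) ⊗ₜ[ℂ] u = _
  rw [mul_one, one_mul]

theorem gH_io (w : W) (u : U) : gH W c w • io W c ρ u = io W c ρ (ρ w u) := by
  show Submodule.Quotient.mk _ = Submodule.Quotient.mk _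
  rw [Submodule.Quotient.eq]
  refine Submodule.subset_span (Or.inr ⟨1, w, u, ?_⟩)
  show (gH W c w * 1) ⊗ₜ[ℂ] u - _ = _
  rw [mul_one, one_mul]

/-- the span of the words in the `x`'s applied to `λ` -/
def DD : Submodule ℂ (BabyVerma W c ρ) :=
  Submodule.span ℂ {z | ∃ (l : List (Module.Dual ℂ V)) (u : U),
    z = (l.map (xH W c)).prod • io W c ρ u}

theorem DD_mem (l : List (Module.Dual ℂ V)) (u : U) :
    (l.map (xH W c)).prod • io W c ρ u ∈ DD W c ρ := Submodule.subset_span ⟨l, u, rfl⟩

/-- to check that `h` preserves `DD` -/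
theorem DD_stable {h : RRCA W c}
    (H : ∀ (l : List (Module.Dual ℂ V)) (u : U),
      h • (l.map (xH W c)).prod • io W c ρ u ∈ DD W c ρ)
    {d : BabyVerma W c ρ} (hd : d ∈ DD W c ρ) : h • d ∈ DD W c ρ := by
  induction hd using Submodule.span_induction with
  | mem z hz =>
    obtain ⟨l, u, rfl⟩ := hz
    exact H l u
  | zero => rw [smul_zero]; exact Submodule.zero_mem _
  | add a b _ _ ha hb => rw [smul_add]; exact Submodule.add_mem _ ha hb
  | smul t a _ ha => rw [smul_comm]; exact Submodule.smul_mem _ t ha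

theorem DD_x (f : Module.Dual ℂ V) {d : BabyVerma W c ρ} (hd : d ∈ DD W c ρ) :
    xH W c f • d ∈ DD W c ρ := by
  refine DD_stable W c ρ (fun l u => ?_) hd
  rw [← mul_smul]
  exact DD_mem W c ρ (f :: l) u

theorem DD_g (w : W) {d : BabyVerma W c ρ} (hd : d ∈ DD W c ρ) :
    gH W c w • d ∈ DD W c ρ := by
  refine DD_stable W c ρ (fun l u => ?_) hd
  induction l with
  | nil =>
    rw [List.map_nil, List.prod_nil, one_smul, gH_io]
    have := DD_mem W c ρ [] (ρ w u)
    rwa [List.map_nil, List.prod_nil, one_smul] at this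
  | cons a l ih =>
    rw [List.map_cons, List.prod_cons, mul_smul, ← mul_smul, gH_x, mul_smul]
    exact DD_x W c ρ _ ih

theorem DD_mk (z : Fr W) (hz : ∀ d ∈ DD W c ρ, mkH W c z • d ∈ DD W c ρ) (t : ℂ)
    {d : BabyVerma W c ρ} (hd : d ∈ DD W c ρ) : mkH W c (t • z) • d ∈ DD W c ρ := by
  rw [map_smul, smul_assoc]
  exact Submodule.smul_mem _ _ (hz d hd)

theorem yx_rel (v : V) (f : Module.Dual ℂ V) :
    yH W c v * xH W c f = xH W c f * yH W c v -
      mkH W c (∑ᶠ s : Ref W, (c s * (f - act s.1 f) v) • G W s.1) := by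
  have := mk_rel W c (Rel.y_x v f)
  rw [map_sub, map_mul, map_mul, map_neg] at this
  rw [sub_eq_iff_eq_add] at this
  rw [sub_eq_add_neg, add_comm]
  exact this

theorem DD_y (v : V) {d : BabyVerma W c ρ} (hd : d ∈ DD W c ρ) :
    yH W c v • d ∈ DD W c ρ := by
  refine DD_stable W c ρ (fun l u => ?_) hd
  induction l with
  | nil =>
    rw [List.map_nil, List.prod_nil, one_smul, yH_io]
    exact Submodule.zero_mem _
  | cons a l ih =>
    rw [List.map_cons, List.prod_cons, mul_smul, ← mul_smul, yx_rel, sub_smul, mul_smul]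
    refine Submodule.sub_mem _ (DD_x W c ρ _ ih) ?_
    have key : ∀ d ∈ DD W c ρ,
        mkH W c (∑ᶠ s : Ref W, (c s * (a - act s.1 a) v) • G W s.1) • d ∈ DD W c ρ := by
      refine finsum_induction (fun z : Fr W => ∀ d ∈ DD W c ρ, mkH W c z • d ∈ DD W c ρ) ?_ ?_ ?_
      · intro d _
        rw [map_zero, zero_smul]
        exact Submodule.zero_mem _
      · intro x y hx hy d hd
        rw [map_add, add_smul]
        exact Submodule.add_mem _ (hx d hd) (hy d hd)
      · intro s d hd
        exact DD_mk W c ρ _ (fun d hd => DD_g W c ρ s.1 hd) _ hd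
    exact key _ (DD_mem W c ρ l u)

theorem DD_all (h : RRCA W c) : ∀ d ∈ DD W c ρ, h • d ∈ DD W c ρ := by
  obtain ⟨z, rfl⟩ := mkH_surjective W c h
  induction z using FreeAlgebra.induction with
  | grade0 r =>
    intro d hd
    rw [AlgHom.commutes, algebraMap_smul]
    exact Submodule.smul_mem _ _ hd
  | grade1 a =>
    intro d hd
    cases a with
    | x f => exact DD_x W c ρ f hd
    | y v => exact DD_y W c ρ v hd
    | g w => exact DD_g W c ρ w hd
  | mul a b ha hb =>
    intro d hd
    rw [map_mul, mul_smul]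
    exact ha _ (hb _ hd)
  | add a b ha hb =>
    intro d hd
    rw [map_add, add_smul]
    exact Submodule.add_mem _ (ha _ hd) (hb _ hd)

theorem DD_top : DD W c ρ = ⊤ := by
  rw [eq_top_iff]
  rintro d -
  induction d using Submodule.Quotient.induction_on with
  | H z =>
    induction z using TensorProduct.induction_on with
    | zero => exact Submodule.zero_mem _
    | tmul h u =>
      have := DD_all W c ρ h _ (DD_mem W c ρ [] u)
      rw [List.map_nil, List.prod_nil, one_smul] at this
      have h2 : (Submodule.Quotient.mk (h ⊗ₜ[ℂ] u) : BabyVerma W c ρ) = h • io W c ρ u :=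
        vm_eq W c ρ h u
      rw [h2]
      exact this
    | add a b ha hb => exact Submodule.add_mem _ ha hb

/-- the span of the `x`-words of length `k` applied to the baby Verma module -/
def GG (k : ℕ) : Submodule ℂ (BabyVerma W c ρ) :=
  Submodule.span ℂ {z | ∃ (l : List (Module.Dual ℂ V)) (d : BabyVerma W c ρ),
    l.length = k ∧ z = (l.map (xH W c)).prod • d}

theorem GG_zero : GG W c ρ 0 = ⊤ := by
  rw [eq_top_iff]
  rintro d -
  exact Submodule.subset_span ⟨[], d, rfl, by simp⟩

theorem GG_one_word {k : ℕ} (l : List (Module.Dual ℂ V)) (hl : l.length = k)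
    {d : BabyVerma W c ρ} (hd : d ∈ GG W c ρ 1) :
    (l.map (xH W c)).prod • d ∈ GG W c ρ (k + 1) := by
  induction hd using Submodule.span_induction with
  | mem z hz =>
    obtain ⟨l', d, hl', rfl⟩ := hz
    refine Submodule.subset_span ⟨l ++ l', d, ?_, ?_⟩
    · rw [List.length_append, hl, hl']
    · rw [List.map_append, List.prod_append, mul_smul]
  | zero => rw [smul_zero]; exact Submodule.zero_mem _
  | add a b _ _ ha hb => rw [smul_add]; exact Submodule.add_mem _ ha hb
  | smul t a _ ha => rw [smul_comm]; exact Submodule.smul_mem _ t ha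

theorem eq_top_of_sup [Finite W] [FiniteDimensional ℂ V]
    (N : Submodule (RRCA W c) (BabyVerma W c ρ))
    (hN : N.restrictScalars ℂ ⊔ GG W c ρ 1 = ⊤) : N = ⊤ := by
  have h1 : ∀ k, N.restrictScalars ℂ ⊔ GG W c ρ k = ⊤ := by
    intro k
    induction k with
    | zero => rw [GG_zero, sup_top_eq]
    | succ k ih =>
      rw [eq_top_iff, ← ih, sup_le_iff]
      refine ⟨le_sup_left, ?_⟩
      rw [GG, Submodule.span_le]
      rintro _ ⟨l, d, hl, rfl⟩
      have hd : d ∈ N.restrictScalars ℂ ⊔ GG W c ρ 1 := by rw [hN]; trivial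
      obtain ⟨n, hn, e, he, rfl⟩ := Submodule.mem_sup.1 hd
      rw [smul_add]
      refine Submodule.add_mem _ ?_ ?_
      · exact Submodule.mem_sup_left (N.smul_mem _ hn)
      · exact Submodule.mem_sup_right (GG_one_word W c ρ l hl he)
  obtain ⟨K, hK⟩ := exists_nil W c
  have h2 : GG W c ρ K = ⊥ := by
    rw [eq_bot_iff, GG, Submodule.span_le]
    rintro _ ⟨l, d, hl, rfl⟩
    rw [hK l hl, zero_smul]
    exact Submodule.zero_mem _
  have h3 := h1 K
  rw [h2, sup_bot_eq] at h3
  rw [eq_top_iff]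
  intro d _
  have : d ∈ N.restrictScalars ℂ := by rw [h3]; trivial
  exact this

theorem io_sup_GG (d : BabyVerma W c ρ) : ∃ (u : U), ∃ e ∈ GG W c ρ 1, d = io W c ρ u + e := by
  have hd : d ∈ DD W c ρ := by rw [DD_top]; trivial
  induction hd using Submodule.span_induction with
  | mem z hz =>
    obtain ⟨l, u, rfl⟩ := hz
    cases l with
    | nil => exact ⟨u, 0, Submodule.zero_mem _, by simp⟩
    | cons a l =>
      refine ⟨0, _, Submodule.subset_span ⟨[a], (l.map (xH W c)).prod • io W c ρ u, rfl, rfl⟩, ?_⟩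
      rw [map_zero, zero_add, ← mul_smul]
      simp
  | zero => exact ⟨0, 0, Submodule.zero_mem _, by simp⟩
  | add a b _ _ ha hb =>
    obtain ⟨u, e, he, rfl⟩ := ha
    obtain ⟨u', e', he', rfl⟩ := hb
    exact ⟨u + u', e + e', Submodule.add_mem _ he he', by rw [map_add]; abel⟩
  | smul t a _ ha =>
    obtain ⟨u, e, he, rfl⟩ := ha
    exact ⟨t • u, t • e, Submodule.smul_mem _ _ he, by rw [map_smul, smul_add]⟩

end

end Pool.Agent.Y57.RCA
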